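import Mathlib

/-!
# Binary quartic forms attached to triples `(x, y, m)`

`G(P, Q) = P^4 - 6 x P^2 Q^2 + 8 y P Q^3 - m Q^4` (for a point of `y^2 = x^3 + A x + B` one takes
`m = 3 x^2 + 4 A`), written in the basis `(p, q), (r, s)` with `p s - r q = 1`.
-/

namespace Pool.Agent.HLS72

def g0 (x y m p q : ℤ) : ℤ := p^4 - 6*x*p^2*q^2 + 8*y*p*q^3 - m*q^4
def g1 (x y m p q r s : ℤ) : ℤ :=
  4*p^3*r - 12*x*(p*r*q^2 + p^2*q*s) + 8*y*(r*q^3+3*p*q^2*s) - 4*m*q^3*s
def g2 (x y m p q r s : ℤ) : ℤ :=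
  6*p^2*r^2 - 6*x*(r^2*q^2+4*p*r*q*s+p^2*s^2) + 24*y*(r*q^2*s+p*q*s^2) - 6*m*q^2*s^2
def g3 (x y m p q r s : ℤ) : ℤ :=
  4*p*r^3 - 12*x*(p*r*s^2+r^2*q*s) + 8*y*(3*r*q*s^2+p*s^3) - 4*m*q*s^3
def g4 (x y m r s : ℤ) : ℤ := r^4 - 6*x*r^2*s^2 + 8*y*r*s^3 - m*s^4

lemma rep (x y m p q r s X Y : ℤ) :
    g0 x y m p q * X^4 + g1 x y m p q r s * X^3 * Y + g2 x y m p q r s * X^2 * Y^2
      + g3 x y m p q r s * X * Y^3 + g4 x y m r s * Y^4 =
    (X*p+Y*r)^4 - 6*x*(X*p+Y*r)^2*(X*q+Y*s)^2 + 8*y*(X*p+Y*r)*(X*q+Y*s)^3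
      - m*(X*q+Y*s)^4 := by
  unfold g0 g1 g2 g3 g4; ring

lemma value {x y m p q r s : ℤ} (h : p*s - r*q = 1) :
    g0 x y m p q * s^4 - g1 x y m p q r s * s^3 * q + g2 x y m p q r s * s^2 * q^2
      - g3 x y m p q r s * s * q^3 + g4 x y m r s * q^4 = 1 := by
  have h1 := rep x y m p q r s s (-q)
  have e1 : s*p + (-q)*r = 1 := by linarith
  have e2 : s*q + (-q)*s = 0 := by ring
  rw [e1, e2] at h1
  linarith

/-- the form determines the triple. -/
lemma form_inj {x y m x' y' m' p r p' r' q s : ℤ}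
    (h1 : p*s - r*q = 1) (h2 : p'*s - r'*q = 1)
    (e0 : g0 x y m p q = g0 x' y' m' p' q)
    (e1 : g1 x y m p q r s = g1 x' y' m' p' q r' s)
    (e2 : g2 x y m p q r s = g2 x' y' m' p' q r' s)
    (e3 : g3 x y m p q r s = g3 x' y' m' p' q r' s)
    (e4 : g4 x y m r s = g4 x' y' m' r' s) : x = x' ∧ y = y' ∧ m = m' := by
  set j : ℤ := p*r' - p'*r with hj
  have hp : p' = p + j*q := by rw [hj]; linear_combination (-p') * h1 + p * h2
  have hr : r' = r + j*s := by rw [hj]; linear_combination (-r') * h1 + r * h2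
  have key : ∀ P : ℤ, P^4 - 6*x*P^2 + 8*y*P - m
      = (P+j)^4 - 6*x'*(P+j)^2 + 8*y'*(P+j) - m' := by
    intro P
    have a1 := rep x y m p q r s (s*P - r) (-q*P + p)
    have a2 := rep x' y' m' p' q r' s (s*P - r) (-q*P + p)
    have b1 : (s*P - r)*p + (-q*P+p)*r = P := by linear_combination P * h1
    have b2 : (s*P - r)*q + (-q*P+p)*s = 1 := by linear_combination h1
    have b3 : (s*P - r)*p' + (-q*P+p)*r' = P + j := by
      rw [hp, hr]; linear_combination (P + j) * h1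
    rw [b1, b2] at a1
    rw [b3, b2] at a2
    rw [e0, e1, e2, e3, e4] at a1
    linarith
  have k0 := key 0
  have k1 := key 1
  have k2 := key 2
  have k3 := key (-1)
  have hj0 : j = 0 := by linarith
  rw [hj0] at k0 k1 k3
  refine ⟨?_, ?_, ?_⟩ <;> linarith

/-- the integral cubic form `(G - G') / (qX + sY)` is determined step by step. -/
lemma core {x y m x' y' m' p r p' r' q s : ℤ} (hq : 0 < q)
    (h1 : p*s - r*q = 1) (h2 : p'*s - r'*q = 1)
    (d0 : |g0 x y m p q - g0 x' y' m' p' q| < q)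
    (d1 : g0 x y m p q = g0 x' y' m' p' q →
      |g1 x y m p q r s - g1 x' y' m' p' q r' s| < q)
    (d2 : g0 x y m p q = g0 x' y' m' p' q → g1 x y m p q r s = g1 x' y' m' p' q r' s →
      |g2 x y m p q r s - g2 x' y' m' p' q r' s| < q)
    (d3 : g0 x y m p q = g0 x' y' m' p' q → g1 x y m p q r s = g1 x' y' m' p' q r' s →
      g2 x y m p q r s = g2 x' y' m' p' q r' s →
      |g3 x y m p q r s - g3 x' y' m' p' q r' s| < q) : x = x' ∧ y = y' ∧ m = m' := by
  have v1 := value (x := x) (y := y) (m := m) h1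
  have v2 := value (x := x') (y := y') (m := m') h2
  have hcop : IsCoprime q s := ⟨-r, p, by linarith⟩
  have hc4 : IsCoprime q (s^4) := hcop.pow_right
  have hc3 : IsCoprime q (s^3) := hcop.pow_right
  have hc2 : IsCoprime q (s^2) := hcop.pow_right
  -- Δ0
  have D0 : q ∣ g0 x y m p q - g0 x' y' m' p' q := by
    apply hc4.dvd_of_dvd_mul_right
    refine ⟨(g1 x y m p q r s - g1 x' y' m' p' q r' s) * s^3
      - (g2 x y m p q r s - g2 x' y' m' p' q r' s) * s^2 * q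
      + (g3 x y m p q r s - g3 x' y' m' p' q r' s) * s * q^2
      - (g4 x y m r s - g4 x' y' m' r' s) * q^3, ?_⟩
    linear_combination v1 - v2
  have E0 : g0 x y m p q = g0 x' y' m' p' q := by
    have := Int.eq_zero_of_abs_lt_dvd D0 d0
    linarith
  have d1' := d1 E0
  rw [E0] at v1
  have D1 : q ∣ g1 x y m p q r s - g1 x' y' m' p' q r' s := by
    apply hc3.dvd_of_dvd_mul_right
    refine ⟨(g2 x y m p q r s - g2 x' y' m' p' q r' s) * s^2
      - (g3 x y m p q r s - g3 x' y' m' p' q r' s) * s * q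
      + (g4 x y m r s - g4 x' y' m' r' s) * q^2, ?_⟩
    have hq' : (q:ℤ) ≠ 0 := hq.ne'
    apply mul_left_cancel₀ hq'
    linear_combination v2 - v1
  have E1 : g1 x y m p q r s = g1 x' y' m' p' q r' s := by
    have := Int.eq_zero_of_abs_lt_dvd D1 d1'
    linarith
  have d2' := d2 E0 E1
  rw [E1] at v1
  have D2 : q ∣ g2 x y m p q r s - g2 x' y' m' p' q r' s := by
    apply hc2.dvd_of_dvd_mul_right
    refine ⟨(g3 x y m p q r s - g3 x' y' m' p' q r' s) * s
      - (g4 x y m r s - g4 x' y' m' r' s) * q, ?_⟩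
    have hq' : (q^2:ℤ) ≠ 0 := by positivity
    apply mul_left_cancel₀ hq'
    linear_combination v1 - v2
  have E2 : g2 x y m p q r s = g2 x' y' m' p' q r' s := by
    have := Int.eq_zero_of_abs_lt_dvd D2 d2'
    linarith
  have d3' := d3 E0 E1 E2
  rw [E2] at v1
  have D3 : q ∣ g3 x y m p q r s - g3 x' y' m' p' q r' s := by
    apply hcop.dvd_of_dvd_mul_right
    refine ⟨(g4 x y m r s - g4 x' y' m' r' s), ?_⟩
    have hq' : (q^3:ℤ) ≠ 0 := by positivity
    apply mul_left_cancel₀ hq'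
    linear_combination v2 - v1
  have E3 : g3 x y m p q r s = g3 x' y' m' p' q r' s := by
    have := Int.eq_zero_of_abs_lt_dvd D3 d3'
    linarith
  rw [E3] at v1
  have E4 : g4 x y m r s = g4 x' y' m' r' s := by
    have hq' : (q^4:ℤ) ≠ 0 := by positivity
    apply mul_left_cancel₀ hq'
    linear_combination v1 - v2
  exact form_inj h1 h2 E0 E1 E2 E3 E4

/-- the divisibility satisfied by the leading coefficient -/
lemma dvd_g0 {x y m p q r s : ℤ} (h : p*s - r*q = 1) : q ∣ g0 x y m p q * s^4 - 1 := by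
  refine ⟨g1 x y m p q r s * s^3 - g2 x y m p q r s * s^2 * q
    + g3 x y m p q r s * s * q^2 - g4 x y m r s * q^3, ?_⟩
  linear_combination value (x := x) (y := y) (m := m) h

end Pool.Agent.HLS72
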