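import Mathlib
import Pool.Agent.LibHall72D
import Pool.Agent.LibHLS72.Form

namespace Pool.Agent.HLS72

open Pool.Agent.Hall72 (tt ee zz tt_sq zdet abs_sub_lt_one_of_floor_eq floor_mem card_box)

noncomputable section

/-- coefficients of the real cubic form attached to a point -/
def C0 (t e f z q i : ℝ) : ℝ := 4*t*z^3 + 8*e*z*q^2 + f*q^3 + i*z^4
def C1 (t e f z w q s i : ℝ) : ℝ :=
  12*t*z^2*w + 8*e*(w*q^2+2*z*q*s) + 3*f*q^2*s + i*z*(3*z^2*w - z^2*i)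
def C2 (t e f z w q s i : ℝ) : ℝ :=
  12*t*z*w^2 + 8*e*(z*s^2+2*w*q*s) + 3*f*q*s^2 + i*z*(3*z*w^2 - 2*z*w*i + z*i^2)
def C3 (t e f z w s i : ℝ) : ℝ :=
  4*t*w^3 + 8*e*w*s^2 + f*s^3 + i*z*(w^3 - w^2*i + w*i^2 - i^3)
/-- the part of the last coefficient which is not determined by the other ones -/
def CE (t z w i : ℝ) : ℝ := 4*t*w*i^2 + 2*z*i^3*(w - i)

lemma relC0 {x y m p q : ℤ} {t e f z i : ℝ} (hx : (x:ℝ) = t^2) (hy : (y:ℝ) = t^3 + e)
    (hm : (m:ℝ) = 3*t^4 + 8*e*t - f)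
    (hp : (p:ℝ) = z + t*q) (hi : i*q = 1) :
    (g0 x y m p q : ℝ) = q * C0 t e f z q i := by
  unfold g0 C0
  push_cast
  rw [hx, hy, hp, hm]
  linear_combination (- z^4) * hi

lemma relC1 {x y m p q r s : ℤ} {t e f z w i : ℝ} (hx : (x:ℝ) = t^2) (hy : (y:ℝ) = t^3 + e)
    (hm : (m:ℝ) = 3*t^4 + 8*e*t - f)
    (hp : (p:ℝ) = z + t*q) (hr : (r:ℝ) = w + t*s) (hi : i*q = 1) (hd : z*s - w*q = 1) :
    (g1 x y m p q r s : ℝ) = q * C1 t e f z w q s i + s * C0 t e f z q i := by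
  unfold g1 C0 C1
  push_cast
  rw [hx, hy, hp, hr, hm]
  linear_combination (-(3*z^3*w) + z^3*i - z^3*w) * hi - (i*z^3) * hd

lemma relC2 {x y m p q r s : ℤ} {t e f z w i : ℝ} (hx : (x:ℝ) = t^2) (hy : (y:ℝ) = t^3 + e)
    (hm : (m:ℝ) = 3*t^4 + 8*e*t - f)
    (hp : (p:ℝ) = z + t*q) (hr : (r:ℝ) = w + t*s) (hi : i*q = 1) (hd : z*s - w*q = 1) :
    (g2 x y m p q r s : ℝ) = q * C2 t e f z w q s i + s * C1 t e f z w q s i := by
  unfold g2 C1 C2
  push_cast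
  rw [hx, hy, hp, hr, hm]
  have h1 : i * z * s = i * (1 + w * q) := by
    have : z * s = 1 + w*q := by linarith
    calc i*z*s = i*(z*s) := by ring
      _ = _ := by rw [this]
  have : i*z*(3*z^2*w - z^2*i)*s = (3*z^2*w - z^2*i) * (i + w) := by
    calc i*z*(3*z^2*w - z^2*i)*s = (3*z^2*w - z^2*i) * (i*z*s) := by ring
      _ = (3*z^2*w - z^2*i) * (i*(1+w*q)) := by rw [h1]
      _ = (3*z^2*w - z^2*i) * (i + w*(i*q)) := by ring
      _ = _ := by rw [hi]; ring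
  linear_combination (-(z*(3*z*w^2 - 2*z*w*i + z*i^2))) * hi - this

lemma relC3 {x y m p q r s : ℤ} {t e f z w i : ℝ} (hx : (x:ℝ) = t^2) (hy : (y:ℝ) = t^3 + e)
    (hm : (m:ℝ) = 3*t^4 + 8*e*t - f)
    (hp : (p:ℝ) = z + t*q) (hr : (r:ℝ) = w + t*s) (hi : i*q = 1) (hd : z*s - w*q = 1) :
    (g3 x y m p q r s : ℝ) = q * C3 t e f z w s i + s * C2 t e f z w q s i := by
  unfold g3 C2 C3
  push_cast
  rw [hx, hy, hp, hr, hm]
  have h1 : i * z * s = i + w := by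
    have : z * s = 1 + w*q := by linarith
    calc i*z*s = i*(z*s) := by ring
      _ = i*(1+w*q) := by rw [this]
      _ = i + w*(i*q) := by ring
      _ = _ := by rw [hi]; ring
  have : i*z*(3*z*w^2 - 2*z*w*i + z*i^2)*s = (3*z*w^2 - 2*z*w*i + z*i^2) * (i + w) := by
    calc i*z*(3*z*w^2 - 2*z*w*i + z*i^2)*s = (3*z*w^2 - 2*z*w*i + z*i^2) * (i*z*s) := by ring
      _ = _ := by rw [h1]
  linear_combination (-(z*(w^3 - w^2*i + w*i^2 - i^3))) * hi - this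

lemma relCE {t e f z w q s i : ℝ} (hi : i*q = 1) (hd : z*s - w*q = 1) :
    3 * C3 t e f z w s i = 3 * CE t z w i + 2 * s * i * C2 t e f z w q s i
      - s^2 * i^2 * C1 t e f z w q s i := by
  have hw : i * z * s = i + w := by
    have : z * s = 1 + w*q := by linarith
    calc i*z*s = i*(z*s) := by ring
      _ = i*(1+w*q) := by rw [this]
      _ = i + w*(i*q) := by ring
      _ = _ := by rw [hi]; ring
  have hw' : w = i*z*s - i := by linarith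
  have hq : i^2 * q^2 = 1 := by
    calc i^2*q^2 = (i*q)^2 := by ring
      _ = 1 := by rw [hi]; norm_num
  unfold C1 C2 C3 CE
  rw [hw']
  linear_combination (-(2*s*(8*e*(2*(i*z*s-i)*s) + 3*f*s^2)) ) * hi
    + (s^2*(8*e*(i*z*s-i) + 3*f*s)) * hq + (s^2*(16*e*z*s)*i) * hi

end

end Pool.Agent.HLS72
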