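import Mathlib
import Pool.Agent.LibHLS72.Rel

namespace Pool.Agent.HLS72

noncomputable section

lemma absC0 {t e f z q i : ℝ} (ht : 0 ≤ t) (hq : 0 ≤ q) (hi : 0 ≤ i) :
    |C0 t e f z q i| ≤ 4*(t * |z|^3) + 8*(|e| * |z| * q^2) + |f| * q^3 + i * |z|^4 := by
  unfold C0
  refine (abs_add_le _ _).trans ?_
  refine add_le_add ((abs_add_le _ _).trans (add_le_add ((abs_add_le _ _).trans
    (add_le_add ?_ ?_)) ?_)) ?_
  · rw [abs_mul, abs_mul, abs_pow, abs_of_nonneg ht]; norm_num; linarith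
  · rw [abs_mul, abs_mul, abs_mul, abs_pow, abs_of_nonneg hq]; norm_num; linarith
  · rw [abs_mul, abs_pow, abs_of_nonneg hq]
  · rw [abs_mul, abs_pow, abs_of_nonneg hi]

lemma absC1 {t e f z w q s i : ℝ} (ht : 0 ≤ t) (hq : 0 ≤ q) (hi : 0 ≤ i) :
    |C1 t e f z w q s i| ≤ 12*(t * |z|^2 * |w|) + 8*(|e| * |w| * q^2) + 16 * (|e| * |z| * q * |s|)
      + 3*(|f| * q^2 * |s|) + (3 * (i * |z|^3 * |w|) + i^2 * |z|^3) := by
  have h : C1 t e f z w q s i = 12*(t*z^2*w) + 8*(e*w*q^2) + 16*(e*z*q*s) + 3*(f*q^2*s)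
      + (3*(i*z^3*w) - i^2*z^3) := by unfold C1; ring
  rw [h]
  refine (abs_add_le _ _).trans (add_le_add ((abs_add_le _ _).trans (add_le_add
    ((abs_add_le _ _).trans (add_le_add ((abs_add_le _ _).trans (add_le_add ?_ ?_)) ?_)) ?_)) ?_)
  · simp only [abs_mul, abs_pow, abs_of_nonneg ht]; norm_num
  · simp only [abs_mul, abs_pow, abs_of_nonneg hq]; norm_num
  · simp only [abs_mul, abs_of_nonneg hq]; norm_num
  · simp only [abs_mul, abs_pow, abs_of_nonneg hq]; norm_num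
  · refine (abs_sub _ _).trans (add_le_add ?_ ?_)
    · simp only [abs_mul, abs_pow, abs_of_nonneg hi]; norm_num
    · simp only [abs_mul, abs_pow, abs_of_nonneg hi]; norm_num

lemma absC2 {t e f z w q s i : ℝ} (ht : 0 ≤ t) (hq : 0 ≤ q) (hi : 0 ≤ i) :
    |C2 t e f z w q s i| ≤ 12*(t * |z| * |w|^2) + 8*(|e| * |z| * |s|^2) + 16 * (|e| * |w| * q * |s|)
      + 3*(|f| * q * |s|^2) + (3 * (i * |z|^2 * |w|^2) + 2*(i^2 * |z|^2 * |w|)
        + i^3 * |z|^2) := by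
  have h : C2 t e f z w q s i = 12*(t*z*w^2) + 8*(e*z*s^2) + 16*(e*w*q*s) + 3*(f*q*s^2)
      + (3*(i*z^2*w^2) - 2*(i^2*z^2*w) + i^3*z^2) := by unfold C2; ring
  rw [h]
  refine (abs_add_le _ _).trans (add_le_add ((abs_add_le _ _).trans (add_le_add
    ((abs_add_le _ _).trans (add_le_add ((abs_add_le _ _).trans (add_le_add ?_ ?_)) ?_)) ?_)) ?_)
  · simp only [abs_mul, abs_pow, abs_of_nonneg ht]; norm_num
  · simp only [abs_mul, abs_pow]; norm_num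
  · simp only [abs_mul, abs_of_nonneg hq]; norm_num
  · simp only [abs_mul, abs_pow, abs_of_nonneg hq]; norm_num
  · refine (abs_add_le _ _).trans (add_le_add ((abs_sub _ _).trans (add_le_add ?_ ?_)) ?_)
    · simp only [abs_mul, abs_pow, abs_of_nonneg hi]; norm_num
    · simp only [abs_mul, abs_pow, abs_of_nonneg hi]; norm_num
    · simp only [abs_mul, abs_pow, abs_of_nonneg hi]; norm_num

lemma absC3 {t e f z w s i : ℝ} (ht : 0 ≤ t) (hi : 0 ≤ i) :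
    |C3 t e f z w s i| ≤ 4*(t * |w|^3) + 8*(|e| * |w| * |s|^2) + |f| * |s|^3
      + (i * |z| * |w|^3 + i^2 * |z| * |w|^2 + i^3 * |z| * |w| + i^4 * |z|) := by
  have h : C3 t e f z w s i = 4*(t*w^3) + 8*(e*w*s^2) + f*s^3
      + (i*z*w^3 - i^2*z*w^2 + i^3*z*w - i^4*z) := by unfold C3; ring
  rw [h]
  refine (abs_add_le _ _).trans (add_le_add ((abs_add_le _ _).trans (add_le_add
    ((abs_add_le _ _).trans (add_le_add ?_ ?_)) ?_)) ?_)
  · simp only [abs_mul, abs_pow, abs_of_nonneg ht]; norm_num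
  · simp only [abs_mul, abs_pow]; norm_num
  · simp only [abs_mul, abs_pow]; exact le_rfl
  · refine (abs_sub _ _).trans (add_le_add ((abs_add_le _ _).trans (add_le_add
      ((abs_sub _ _).trans (add_le_add ?_ ?_)) ?_)) ?_)
    · simp only [abs_mul, abs_pow, abs_of_nonneg hi]; exact le_rfl
    · simp only [abs_mul, abs_pow, abs_of_nonneg hi]; exact le_rfl
    · simp only [abs_mul, abs_pow, abs_of_nonneg hi]; exact le_rfl
    · simp only [abs_mul, abs_pow, abs_of_nonneg hi]; exact le_rfl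

lemma absCE {t z w i : ℝ} (ht : 0 ≤ t) (hi : 0 ≤ i) :
    |CE t z w i| ≤ 4*(t * |w| * i^2) + (2 * (|z| * i^3 * |w|) + 2 * (|z| * i^4)) := by
  have h : CE t z w i = 4*(t*w*i^2) + (2*(z*i^3*w) - 2*(z*i^4)) := by unfold CE; ring
  rw [h]
  refine (abs_add_le _ _).trans (add_le_add ?_ ((abs_sub _ _).trans (add_le_add ?_ ?_)))
  · simp only [abs_mul, abs_pow, abs_of_nonneg ht, abs_of_nonneg hi]; norm_num
  · simp only [abs_mul, abs_pow, abs_of_nonneg hi]; norm_num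
  · simp only [abs_mul, abs_pow, abs_of_nonneg hi]; norm_num

/-- first case, `|z| n² ≤ q`; elementary facts -/
lemma facts1 {n a Z W E q i D : ℝ} (hn : 1 ≤ n) (hq1 : 1 ≤ q) (hqn : q ≤ n)
    (ha : 1 ≤ 4*a*n) (he : E * n ≤ D * a) (hZ0 : 0 ≤ Z) (hW0 : 0 ≤ W) (hE0 : 0 ≤ E)
    (hiq : i * q = 1) (hz : Z * n^2 ≤ q) (hw : W * q ≤ 2) :
    0 < i ∧ i ≤ 1 ∧ 0 < a ∧ 0 ≤ D * a ∧ Z * n ≤ 1 ∧ Z ≤ 4 * a ∧ Z ≤ 1 ∧ W ≤ 2 ∧ E ≤ D * a ∧
    q^3 ≤ n^3 ∧ q^4 ≤ n^4 ∧ 1 ≤ n^3 := by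
  have hn0 : 0 < n := by linarith
  have hq0 : 0 < q := by linarith
  have hi0 : 0 < i := by
    by_contra h
    push Not at h
    nlinarith
  have hi1 : i ≤ 1 := by nlinarith
  have ha0 : 0 < a := by
    by_contra h
    push Not at h
    nlinarith
  have hDa : 0 ≤ D * a := le_trans (by positivity) he
  have hZn : Z * n ≤ 1 := by
    have : Z * n * n ≤ 1 * n := by nlinarith
    exact le_of_mul_le_mul_right this hn0
  have hZa : Z ≤ 4 * a := by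
    have : Z * n ≤ (4 * a) * n := by linarith
    exact le_of_mul_le_mul_right this hn0
  have hZ1 : Z ≤ 1 := by nlinarith
  have hW2 : W ≤ 2 := by nlinarith
  have hq3 : q^3 ≤ n^3 := by gcongr
  have hq4 : q^4 ≤ n^4 := by gcongr
  have hn3 : 1 ≤ n^3 := one_le_pow₀ hn
  have hEn : E ≤ E * n := by nlinarith
  have hED : E ≤ D * a := by linarith
  exact ⟨hi0, hi1, ha0, hDa, hZn, hZa, hZ1, hW2, hED, hq3, hq4, hn3⟩

lemma bnd1_0 {n t a e f z w q i D : ℝ} (hn : 1 ≤ n) (ht : 0 ≤ t) (hq1 : 1 ≤ q) (hqn : q ≤ n)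
    (hta : t ≤ 2*a*n^3) (ha : 1 ≤ 4*a*n) (he : |e| * n ≤ D * a) (hf : |f| * n^3 ≤ D * a)
    (hiq : i * q = 1) (hz : |z| * n^2 ≤ q) (hw : |w| * q ≤ 2) :
    |C0 t e f z q i| * n^3 ≤ (1000 + 100 * D) * a * q^3 := by
  obtain ⟨hi0, hi1, ha0, hDa, hZn, hZa, hZ1, hW2, hED, hq3, hq4, hn3⟩ :=
    facts1 hn hq1 hqn ha he (abs_nonneg z) (abs_nonneg w) (abs_nonneg e)
      hiq hz hw
  have hq0 : 0 < q := by linarith
  have hz0 := abs_nonneg z
  have he0 := abs_nonneg e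
  have hf0 := abs_nonneg f
  have h0 := absC0 (e := e) (f := f) (z := z) ht hq0.le hi0.le
  have a1 : t * |z|^3 * n^3 ≤ 2 * a * q^3 := by
    calc t * |z|^3 * n^3 ≤ (2*a*n^3) * |z|^3 * n^3 := by gcongr
      _ = 2 * a * (|z| * n^2)^3 := by ring
      _ ≤ 2 * a * q^3 := by gcongr
  have a2 : |e| * |z| * q^2 * n^3 ≤ D * a * q^3 := by
    calc |e| * |z| * q^2 * n^3 = (|e| * n) * (|z| * n^2) * q^2 := by ring
      _ ≤ (D * a) * q * q^2 := by gcongr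
      _ = D * a * q^3 := by ring
  have a3 : |f| * q^3 * n^3 ≤ D * a * q^3 := by
    calc |f| * q^3 * n^3 = (|f| * n^3) * q^3 := by ring
      _ ≤ D * a * q^3 := by gcongr
  have a4 : i * |z|^4 * n^3 ≤ 4 * a * q^3 := by
    calc i * |z|^4 * n^3 ≤ 1 * |z|^4 * n^3 := by gcongr
      _ = |z| * (|z|^3 * n^3 * 1) := by ring
      _ ≤ (4 * a) * (|z|^3 * n^3 * n^3) := by gcongr
      _ = 4 * a * (|z| * n^2)^3 := by ring
      _ ≤ 4 * a * q^3 := by gcongr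
  have a5 : 0 ≤ a * q^3 := by positivity
  have a6 : 0 ≤ D * a * q^3 := by positivity
  have h00 : |C0 t e f z q i| * n^3
      ≤ (4*(t * |z|^3) + 8*(|e| * |z| * q^2) + |f| * q^3 + i * |z|^4) * n^3 := by gcongr
  linarith

lemma bnd1_1 {n t a e f z w q s i D : ℝ} (hn : 1 ≤ n) (ht : 0 ≤ t) (hq1 : 1 ≤ q) (hqn : q ≤ n)
    (hta : t ≤ 2*a*n^3) (ha : 1 ≤ 4*a*n) (he : |e| * n ≤ D * a) (hf : |f| * n^3 ≤ D * a)
    (hiq : i * q = 1) (hz : |z| * n^2 ≤ q) (hw : |w| * q ≤ 2) (hs : |s| ≤ q) :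
    |C1 t e f z w q s i| ≤ (1000 + 100 * D) * a := by
  obtain ⟨hi0, hi1, ha0, hDa, hZn, hZa, hZ1, hW2, hED, hq3, hq4, hn3⟩ :=
    facts1 hn hq1 hqn ha he (abs_nonneg z) (abs_nonneg w) (abs_nonneg e)
      hiq hz hw
  have hn0 : 0 < n := by linarith
  have hq0 : 0 < q := by linarith
  have hz0 := abs_nonneg z
  have hw0 := abs_nonneg w
  have hs0 := abs_nonneg s
  have he0 := abs_nonneg e
  have hf0 := abs_nonneg f
  have h1 := absC1 (e := e) (f := f) (z := z) (w := w) (s := s) ht hq0.le hi0.le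
  have a1 : t * |z|^2 * |w| ≤ 4 * a := by
    have b : n^3 * |z|^2 * |w| ≤ 2 := by
      have : n^3 * |z|^2 * |w| * n ≤ 2 * n := by
        calc n^3 * |z|^2 * |w| * n = (|z| * n^2)^2 * |w| := by ring
          _ ≤ q^2 * |w| := by gcongr
          _ = q * (|w| * q) := by ring
          _ ≤ n * 2 := by gcongr
          _ = 2 * n := by ring
      exact le_of_mul_le_mul_right this hn0
    calc t * |z|^2 * |w| ≤ (2*a*n^3) * |z|^2 * |w| := by gcongr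
      _ = 2 * a * (n^3 * |z|^2 * |w|) := by ring
      _ ≤ 2 * a * 2 := by gcongr
      _ = 4 * a := by ring
  have a2 : |e| * |w| * q^2 ≤ 2 * (D * a) := by
    calc |e| * |w| * q^2 = |e| * q * (|w| * q) := by ring
      _ ≤ |e| * n * 2 := by gcongr
      _ ≤ 2 * (D * a) := by linarith
  have a3 : |e| * |z| * q * |s| ≤ D * a := by
    calc |e| * |z| * q * |s| ≤ |e| * |z| * n * n := by gcongr; linarith
      _ = (|e| * n) * (|z| * n) := by ring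
      _ ≤ (D * a) * 1 := by gcongr
      _ = D * a := by ring
  have a4 : |f| * q^2 * |s| ≤ D * a := by
    calc |f| * q^2 * |s| ≤ |f| * q^2 * q := by gcongr
      _ = |f| * q^3 := by ring
      _ ≤ |f| * n^3 := by gcongr
      _ ≤ D * a := hf
  have a5 : i * |z|^3 * |w| ≤ 8 * a := by
    calc i * |z|^3 * |w| = i * |z|^2 * |z| * |w| := by ring
      _ ≤ 1 * 1^2 * (4 * a) * 2 := by gcongr
      _ = 8 * a := by ring
  have a6 : i^2 * |z|^3 ≤ 4 * a := by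
    calc i^2 * |z|^3 = i^2 * |z|^2 * |z| := by ring
      _ ≤ 1^2 * 1^2 * (4 * a) := by gcongr
      _ = 4 * a := by ring
  linarith

lemma bnd1_2 {n t a e f z w q s i D : ℝ} (hn : 1 ≤ n) (ht : 0 ≤ t) (hq1 : 1 ≤ q) (hqn : q ≤ n)
    (hta : t ≤ 2*a*n^3) (ha : 1 ≤ 4*a*n) (he : |e| * n ≤ D * a) (hf : |f| * n^3 ≤ D * a)
    (hiq : i * q = 1) (hz : |z| * n^2 ≤ q) (hw : |w| * q ≤ 2) (hs : |s| ≤ q) :
    |C2 t e f z w q s i| * q ≤ (1000 + 100 * D) * a * n := by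
  obtain ⟨hi0, hi1, ha0, hDa, hZn, hZa, hZ1, hW2, hED, hq3, hq4, hn3⟩ :=
    facts1 hn hq1 hqn ha he (abs_nonneg z) (abs_nonneg w) (abs_nonneg e)
      hiq hz hw
  have hn0 : 0 < n := by linarith
  have hq0 : 0 < q := by linarith
  have hz0 := abs_nonneg z
  have hw0 := abs_nonneg w
  have hs0 := abs_nonneg s
  have he0 := abs_nonneg e
  have hf0 := abs_nonneg f
  have h2 := absC2 (e := e) (f := f) (z := z) (w := w) (s := s) ht hq0.le hi0.le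
  have a1 : t * |z| * |w|^2 * q ≤ 8 * a * n := by
    calc t * |z| * |w|^2 * q ≤ (2*a*n^3) * |z| * |w|^2 * q := by gcongr
      _ = 2 * a * n * (|z| * n^2) * |w|^2 * q := by ring
      _ ≤ 2 * a * n * q * |w|^2 * q := by gcongr
      _ = 2 * a * n * (|w| * q)^2 := by ring
      _ ≤ 2 * a * n * 2^2 := by gcongr
      _ = 8 * a * n := by ring
  have a2 : |e| * |z| * |s|^2 * q ≤ D * a * n := by
    calc |e| * |z| * |s|^2 * q ≤ |e| * |z| * n^2 * n := by gcongr; linarith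
      _ = (|e| * n) * (|z| * n) * n := by ring
      _ ≤ (D * a) * 1 * n := by gcongr
      _ = D * a * n := by ring
  have a3 : |e| * |w| * q * |s| * q ≤ 2 * (D * a * n) := by
    calc |e| * |w| * q * |s| * q = |e| * (|w| * q) * |s| * q := by ring
      _ ≤ |e| * 2 * n * n := by gcongr; linarith
      _ = 2 * ((|e| * n) * n) := by ring
      _ ≤ 2 * ((D * a) * n) := by gcongr
  have a4 : |f| * q * |s|^2 * q ≤ D * a * n := by
    calc |f| * q * |s|^2 * q ≤ |f| * q * q^2 * q := by gcongr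
      _ = |f| * q^4 := by ring
      _ ≤ |f| * n^4 := by gcongr
      _ = (|f| * n^3) * n := by ring
      _ ≤ (D * a) * n := by gcongr
  have a5 : i * |z|^2 * |w|^2 * q ≤ 16 * a := by
    calc i * |z|^2 * |w|^2 * q = (i * q) * |z| * |z| * |w|^2 := by ring
      _ = |z| * |z| * |w|^2 := by rw [hiq]; ring
      _ ≤ 1 * (4 * a) * 2^2 := by gcongr
      _ = 16 * a := by ring
  have a6 : i^2 * |z|^2 * |w| * q ≤ 8 * a := by
    calc i^2 * |z|^2 * |w| * q = (i * q) * i * |z| * |z| * |w| := by ring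
      _ = i * |z| * |z| * |w| := by rw [hiq]; ring
      _ ≤ 1 * 1 * (4 * a) * 2 := by gcongr
      _ = 8 * a := by ring
  have a7 : i^3 * |z|^2 * q ≤ 4 * a := by
    calc i^3 * |z|^2 * q = (i * q) * i^2 * |z| * |z| := by ring
      _ = i^2 * |z| * |z| := by rw [hiq]; ring
      _ ≤ 1^2 * 1 * (4 * a) := by gcongr
      _ = 4 * a := by ring
  have a8 : a ≤ a * n := by nlinarith
  have a9 : 0 ≤ D * a * n := by positivity
  have h22 : |C2 t e f z w q s i| * q ≤ (12*(t * |z| * |w|^2) + 8*(|e| * |z| * |s|^2)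
      + 16 * (|e| * |w| * q * |s|) + 3*(|f| * q * |s|^2) + (3 * (i * |z|^2 * |w|^2)
      + 2*(i^2 * |z|^2 * |w|) + i^3 * |z|^2)) * q := by gcongr
  linarith

lemma bnd1_3 {n t a e f z w q s i D : ℝ} (hn : 1 ≤ n) (ht : 0 ≤ t) (hq1 : 1 ≤ q) (hqn : q ≤ n)
    (hta : t ≤ 2*a*n^3) (ha : 1 ≤ 4*a*n) (he : |e| * n ≤ D * a) (hf : |f| * n^3 ≤ D * a)
    (hiq : i * q = 1) (hz : |z| * n^2 ≤ q) (hw : |w| * q ≤ 2) (hs : |s| ≤ q) :
    |C3 t e f z w s i| * q^3 ≤ (1000 + 100 * D) * a * n^3 := by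
  obtain ⟨hi0, hi1, ha0, hDa, hZn, hZa, hZ1, hW2, hED, hq3, hq4, hn3⟩ :=
    facts1 hn hq1 hqn ha he (abs_nonneg z) (abs_nonneg w) (abs_nonneg e)
      hiq hz hw
  have hn0 : 0 < n := by linarith
  have hq0 : 0 < q := by linarith
  have hz0 := abs_nonneg z
  have hw0 := abs_nonneg w
  have hs0 := abs_nonneg s
  have he0 := abs_nonneg e
  have hf0 := abs_nonneg f
  have h3 := absC3 (e := e) (f := f) (z := z) (w := w) (s := s) ht hi0.le
  have a1 : t * |w|^3 * q^3 ≤ 16 * a * n^3 := by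
    calc t * |w|^3 * q^3 ≤ (2*a*n^3) * |w|^3 * q^3 := by gcongr
      _ = 2 * a * n^3 * (|w| * q)^3 := by ring
      _ ≤ 2 * a * n^3 * 2^3 := by gcongr
      _ = 16 * a * n^3 := by ring
  have a2 : |e| * |w| * |s|^2 * q^3 ≤ 2 * (D * a * n^3) := by
    calc |e| * |w| * |s|^2 * q^3 ≤ |e| * |w| * q^2 * q^3 := by gcongr
      _ = |e| * (|w| * q) * q^4 := by ring
      _ ≤ |e| * 2 * n^4 := by gcongr
      _ = 2 * ((|e| * n) * n^3) := by ring
      _ ≤ 2 * ((D * a) * n^3) := by gcongr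
  have a3 : |f| * |s|^3 * q^3 ≤ D * a * n^3 := by
    calc |f| * |s|^3 * q^3 ≤ |f| * q^3 * q^3 := by gcongr
      _ ≤ |f| * n^3 * n^3 := by gcongr
      _ ≤ (D * a) * n^3 := by gcongr
  have a4 : i * |z| * |w|^3 * q^3 ≤ 32 * a := by
    calc i * |z| * |w|^3 * q^3 = i * |z| * (|w| * q)^3 := by ring
      _ ≤ 1 * (4 * a) * 2^3 := by gcongr
      _ = 32 * a := by ring
  have a5 : i^2 * |z| * |w|^2 * q^3 ≤ 16 * a := by
    calc i^2 * |z| * |w|^2 * q^3 = (i * q)^2 * |z| * (|w| * q) * |w| := by ring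
      _ = |z| * (|w| * q) * |w| := by rw [hiq]; ring
      _ ≤ (4 * a) * 2 * 2 := by gcongr
      _ = 16 * a := by ring
  have a6 : i^3 * |z| * |w| * q^3 ≤ 8 * a := by
    calc i^3 * |z| * |w| * q^3 = (i * q)^3 * |z| * |w| := by ring
      _ = |z| * |w| := by rw [hiq]; ring
      _ ≤ (4 * a) * 2 := by gcongr
      _ = 8 * a := by ring
  have a7 : i^4 * |z| * q^3 ≤ 4 * a := by
    calc i^4 * |z| * q^3 = (i * q)^3 * i * |z| := by ring
      _ = i * |z| := by rw [hiq]; ring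
      _ ≤ 1 * (4 * a) := by gcongr
      _ = 4 * a := by ring
  have a8 : a ≤ a * n^3 := by nlinarith
  have a9 : 0 ≤ D * a * n^3 := by positivity
  have h33 : |C3 t e f z w s i| * q^3 ≤ (4*(t * |w|^3) + 8*(|e| * |w| * |s|^2) + |f| * |s|^3
      + (i * |z| * |w|^3 + i^2 * |z| * |w|^2 + i^3 * |z| * |w| + i^4 * |z|)) * q^3 := by gcongr
  linarith

/-- second case, `q ≤ |z| n²`; elementary facts -/
lemma facts2 {n a Z W S E q i D : ℝ} (hn : 1 ≤ n) (hq1 : 1 ≤ q)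
    (ha : 1 ≤ 4*a*n) (he : E * n ≤ D * a) (hZ0 : 0 ≤ Z) (hE0 : 0 ≤ E)
    (hiq : i * q = 1) (hz : Z * n ≤ 1) (hw : W ≤ Z / 2) (hs2 : n ≤ 2 * S) :
    0 < i ∧ i ≤ 1 ∧ 0 < a ∧ 0 ≤ D * a ∧ Z ≤ 4 * a ∧ Z ≤ 1 ∧ W ≤ 1/2 ∧ 1 ≤ 2 * S ∧
    n^3 ≤ 8 * S^3 := by
  have hn0 : 0 < n := by linarith
  have hq0 : 0 < q := by linarith
  have hi0 : 0 < i := by
    by_contra h
    push Not at h
    nlinarith
  have hi1 : i ≤ 1 := by nlinarith
  have ha0 : 0 < a := by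
    by_contra h
    push Not at h
    nlinarith
  have hDa : 0 ≤ D * a := le_trans (by positivity) he
  have hZa : Z ≤ 4 * a := by
    have : Z * n ≤ (4 * a) * n := by linarith
    exact le_of_mul_le_mul_right this hn0
  have hZ1 : Z ≤ 1 := by nlinarith
  have hn3 : n^3 ≤ 8 * S^3 := by
    calc n^3 ≤ (2*S)^3 := by gcongr
      _ = 8 * S^3 := by ring
  exact ⟨hi0, hi1, ha0, hDa, hZa, hZ1, by linarith, by linarith, hn3⟩

lemma bnd2_0 {n t a e f z w q s i D : ℝ} (hn : 1 ≤ n) (ht : 0 ≤ t) (hq1 : 1 ≤ q)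
    (hta : t ≤ 2*a*n^3) (ha : 1 ≤ 4*a*n) (he : |e| * n ≤ D * a) (hf : |f| * n^3 ≤ D * a)
    (hiq : i * q = 1) (hz : |z| * n ≤ 1) (hz2 : q ≤ |z| * n^2) (hw : |w| ≤ |z| / 2)
    (hs : |s| * |z| ≤ 3/2) (hs2 : n ≤ 2 * |s|) :
    |C0 t e f z q i| * |s|^3 ≤ (1000 + 100 * D) * a * n^3 := by
  obtain ⟨hi0, hi1, ha0, hDa, hZa, hZ1, hW1, hS1, hn3⟩ :=
    facts2 hn hq1 ha he (abs_nonneg z) (abs_nonneg e) hiq hz hw hs2
  have hn0 : 0 < n := by linarith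
  have hq0 : 0 < q := by linarith
  have hz0 := abs_nonneg z
  have hs0 := abs_nonneg s
  have he0 := abs_nonneg e
  have hf0 := abs_nonneg f
  have h0 := absC0 (e := e) (f := f) (z := z) ht hq0.le hi0.le
  have a1 : t * |z|^3 * |s|^3 ≤ 7 * a * n^3 := by
    calc t * |z|^3 * |s|^3 ≤ (2*a*n^3) * |z|^3 * |s|^3 := by gcongr
      _ = 2 * a * n^3 * (|s| * |z|)^3 := by ring
      _ ≤ 2 * a * n^3 * (3/2)^3 := by gcongr
      _ = 27/4 * (a * n^3) := by ring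
      _ ≤ 7 * (a * n^3) := by gcongr; norm_num
      _ = 7 * a * n^3 := by ring
  have a2 : |e| * |z| * q^2 * |s|^3 ≤ 4 * (D * a * n^3) := by
    calc |e| * |z| * q^2 * |s|^3 ≤ |e| * |z| * (|z| * n^2)^2 * |s|^3 := by gcongr
      _ = (|e| * n) * n^3 * (|s| * |z|)^3 := by ring
      _ ≤ (D * a) * n^3 * (3/2)^3 := by gcongr
      _ = 27/8 * (D * a * n^3) := by ring
      _ ≤ 4 * (D * a * n^3) := by gcongr; norm_num
  have a3 : |f| * q^3 * |s|^3 ≤ 4 * (D * a * n^3) := by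
    calc |f| * q^3 * |s|^3 ≤ |f| * (|z| * n^2)^3 * |s|^3 := by gcongr
      _ = (|f| * n^3) * n^3 * (|s| * |z|)^3 := by ring
      _ ≤ (D * a) * n^3 * (3/2)^3 := by gcongr
      _ = 27/8 * (D * a * n^3) := by ring
      _ ≤ 4 * (D * a * n^3) := by gcongr; norm_num
  have a4 : i * |z|^4 * |s|^3 ≤ 16 * a * n^3 := by
    calc i * |z|^4 * |s|^3 = i * |z| * (|s| * |z|)^3 := by ring
      _ ≤ 1 * (4 * a) * (3/2)^3 := by gcongr
      _ = 27/2 * a := by ring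
      _ ≤ 16 * a * 1 := by linarith
      _ ≤ 16 * a * n^3 := by gcongr; exact one_le_pow₀ hn
  have a5 : 0 ≤ a * n^3 := by positivity
  have a6 : 0 ≤ D * a * n^3 := by positivity
  have h00 : |C0 t e f z q i| * |s|^3
      ≤ (4*(t * |z|^3) + 8*(|e| * |z| * q^2) + |f| * q^3 + i * |z|^4) * |s|^3 := by gcongr
  linarith

lemma bnd2_1 {n t a e f z w q s i D : ℝ} (hn : 1 ≤ n) (ht : 0 ≤ t) (hq1 : 1 ≤ q) (hqn : q ≤ n)
    (hta : t ≤ 2*a*n^3) (ha : 1 ≤ 4*a*n) (he : |e| * n ≤ D * a) (hf : |f| * n^3 ≤ D * a)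
    (hiq : i * q = 1) (hz : |z| * n ≤ 1) (hz2 : q ≤ |z| * n^2) (hw : |w| ≤ |z| / 2)
    (hs : |s| * |z| ≤ 3/2) (hs2 : n ≤ 2 * |s|) :
    |C1 t e f z w q s i| ≤ (1000 + 100 * D) * a := by
  obtain ⟨hi0, hi1, ha0, hDa, hZa, hZ1, hW1, hS1, hn3⟩ :=
    facts2 hn hq1 ha he (abs_nonneg z) (abs_nonneg e) hiq hz hw hs2
  have hn0 : 0 < n := by linarith
  have hq0 : 0 < q := by linarith
  have hz0 := abs_nonneg z
  have hw0 := abs_nonneg w
  have hs0 := abs_nonneg s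
  have he0 := abs_nonneg e
  have hf0 := abs_nonneg f
  have h1 := absC1 (e := e) (f := f) (z := z) (w := w) (s := s) ht hq0.le hi0.le
  have a1 : t * |z|^2 * |w| ≤ a := by
    calc t * |z|^2 * |w| ≤ (2*a*n^3) * |z|^2 * (|z|/2) := by gcongr
      _ = a * (|z| * n)^3 := by ring
      _ ≤ a * 1^3 := by gcongr
      _ = a := by ring
  have a2 : |e| * |w| * q^2 ≤ D * a := by
    calc |e| * |w| * q^2 ≤ |e| * (|z|/2) * n^2 := by gcongr
      _ = 1/2 * ((|e| * n) * (|z| * n)) := by ring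
      _ ≤ 1/2 * ((D * a) * 1) := by gcongr
      _ ≤ D * a := by linarith
  have a3 : |e| * |z| * q * |s| ≤ 3/2 * (D * a) := by
    calc |e| * |z| * q * |s| ≤ |e| * |z| * n * |s| := by gcongr
      _ = (|e| * n) * (|s| * |z|) := by ring
      _ ≤ (D * a) * (3/2) := by gcongr
      _ = 3/2 * (D * a) := by ring
  have a4 : |f| * q^2 * |s| ≤ 3/2 * (D * a) := by
    calc |f| * q^2 * |s| = |f| * q * q * |s| := by ring
      _ ≤ |f| * n * (|z| * n^2) * |s| := by gcongr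
      _ = (|f| * n^3) * (|s| * |z|) := by ring
      _ ≤ (D * a) * (3/2) := by gcongr
      _ = 3/2 * (D * a) := by ring
  have a5 : i * |z|^3 * |w| ≤ 2 * a := by
    calc i * |z|^3 * |w| = i * |z|^2 * |z| * |w| := by ring
      _ ≤ 1 * 1^2 * (4 * a) * (1/2) := by gcongr
      _ = 2 * a := by ring
  have a6 : i^2 * |z|^3 ≤ 4 * a := by
    calc i^2 * |z|^3 = i^2 * |z|^2 * |z| := by ring
      _ ≤ 1^2 * 1^2 * (4 * a) := by gcongr
      _ = 4 * a := by ring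
  linarith

lemma bnd2_2 {n t a e f z w q s i D : ℝ} (hn : 1 ≤ n) (ht : 0 ≤ t) (hq1 : 1 ≤ q) (hqn : q ≤ n)
    (hta : t ≤ 2*a*n^3) (ha : 1 ≤ 4*a*n) (he : |e| * n ≤ D * a) (hf : |f| * n^3 ≤ D * a)
    (hiq : i * q = 1) (hz : |z| * n ≤ 1) (hz2 : q ≤ |z| * n^2) (hw : |w| ≤ |z| / 2)
    (hs : |s| * |z| ≤ 3/2) (hs2 : n ≤ 2 * |s|) :
    |C2 t e f z w q s i| * n ≤ (1000 + 100 * D) * a * |s| := by
  obtain ⟨hi0, hi1, ha0, hDa, hZa, hZ1, hW1, hS1, hn3⟩ :=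
    facts2 hn hq1 ha he (abs_nonneg z) (abs_nonneg e) hiq hz hw hs2
  have hn0 : 0 < n := by linarith
  have hq0 : 0 < q := by linarith
  have hz0 := abs_nonneg z
  have hw0 := abs_nonneg w
  have hs0 := abs_nonneg s
  have he0 := abs_nonneg e
  have hf0 := abs_nonneg f
  have h2 := absC2 (e := e) (f := f) (z := z) (w := w) (s := s) ht hq0.le hi0.le
  have a1 : t * |z| * |w|^2 * n ≤ a * |s| := by
    calc t * |z| * |w|^2 * n ≤ (2*a*n^3) * |z| * (|z|/2)^2 * n := by gcongr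
      _ = 1/2 * a * (|z| * n)^3 * n := by ring
      _ ≤ 1/2 * a * 1^3 * (2 * |s|) := by gcongr
      _ = a * |s| := by ring
  have a2 : |e| * |z| * |s|^2 * n ≤ 3/2 * (D * a * |s|) := by
    calc |e| * |z| * |s|^2 * n = (|e| * n) * (|s| * |z|) * |s| := by ring
      _ ≤ (D * a) * (3/2) * |s| := by gcongr
      _ = 3/2 * (D * a * |s|) := by ring
  have a3 : |e| * |w| * q * |s| * n ≤ D * a * |s| := by
    calc |e| * |w| * q * |s| * n ≤ |e| * (|z|/2) * n * |s| * n := by gcongr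
      _ = 1/2 * ((|e| * n) * (|z| * n) * |s|) := by ring
      _ ≤ 1/2 * ((D * a) * 1 * |s|) := by gcongr
      _ ≤ D * a * |s| := by nlinarith [mul_nonneg hDa hs0]
  have a4 : |f| * q * |s|^2 * n ≤ 3/2 * (D * a * |s|) := by
    calc |f| * q * |s|^2 * n ≤ |f| * (|z| * n^2) * |s|^2 * n := by gcongr
      _ = (|f| * n^3) * (|s| * |z|) * |s| := by ring
      _ ≤ (D * a) * (3/2) * |s| := by gcongr
      _ = 3/2 * (D * a * |s|) := by ring
  have a5 : i * |z|^2 * |w|^2 * n ≤ a := by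
    calc i * |z|^2 * |w|^2 * n = i * |z| * |w|^2 * (|z| * n) := by ring
      _ ≤ 1 * (4 * a) * (1/2)^2 * 1 := by gcongr
      _ = a := by ring
  have a6 : i^2 * |z|^2 * |w| * n ≤ 2 * a := by
    calc i^2 * |z|^2 * |w| * n = i^2 * |z| * |w| * (|z| * n) := by ring
      _ ≤ 1^2 * (4 * a) * (1/2) * 1 := by gcongr
      _ = 2 * a := by ring
  have a7 : i^3 * |z|^2 * n ≤ 4 * a := by
    calc i^3 * |z|^2 * n = i^3 * |z| * (|z| * n) := by ring
      _ ≤ 1^3 * (4 * a) * 1 := by gcongr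
      _ = 4 * a := by ring
  have a8 : a ≤ 2 * (a * |s|) := by nlinarith
  have a9 : 0 ≤ D * a * |s| := by positivity
  have h22 : |C2 t e f z w q s i| * n ≤ (12*(t * |z| * |w|^2) + 8*(|e| * |z| * |s|^2)
      + 16 * (|e| * |w| * q * |s|) + 3*(|f| * q * |s|^2) + (3 * (i * |z|^2 * |w|^2)
      + 2*(i^2 * |z|^2 * |w|) + i^3 * |z|^2)) * n := by gcongr
  linarith

lemma bnd2_3 {n t a e f z w q s i D : ℝ} (hn : 1 ≤ n) (ht : 0 ≤ t) (hq1 : 1 ≤ q)
    (hta : t ≤ 2*a*n^3) (ha : 1 ≤ 4*a*n) (he : |e| * n ≤ D * a) (hf : |f| * n^3 ≤ D * a)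
    (hiq : i * q = 1) (hz : |z| * n ≤ 1) (hw : |w| ≤ |z| / 2)
    (hs : |s| * |z| ≤ 3/2) (hs2 : n ≤ 2 * |s|) :
    |C3 t e f z w s i| * n^3 ≤ (1000 + 100 * D) * a * |s|^3 := by
  obtain ⟨hi0, hi1, ha0, hDa, hZa, hZ1, hW1, hS1, hn3⟩ :=
    facts2 hn hq1 ha he (abs_nonneg z) (abs_nonneg e) hiq hz hw hs2
  have hn0 : 0 < n := by linarith
  have hq0 : 0 < q := by linarith
  have hz0 := abs_nonneg z
  have hw0 := abs_nonneg w
  have hs0 := abs_nonneg s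
  have he0 := abs_nonneg e
  have hf0 := abs_nonneg f
  have h3 := absC3 (e := e) (f := f) (z := z) (w := w) (s := s) ht hi0.le
  have a1 : t * |w|^3 * n^3 ≤ 2 * (a * |s|^3) := by
    calc t * |w|^3 * n^3 ≤ (2*a*n^3) * (|z|/2)^3 * n^3 := by gcongr
      _ = 1/4 * a * (|z| * n)^3 * n^3 := by ring
      _ ≤ 1/4 * a * 1^3 * (8 * |s|^3) := by gcongr
      _ = 2 * (a * |s|^3) := by ring
  have a2 : |e| * |w| * |s|^2 * n^3 ≤ 3 * (D * a * |s|^3) := by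
    calc |e| * |w| * |s|^2 * n^3 ≤ |e| * (|z|/2) * |s|^2 * n^3 := by gcongr
      _ = 1/2 * ((|e| * n) * (|s| * |z|) * |s| * n^2) := by ring
      _ ≤ 1/2 * ((D * a) * (3/2) * |s| * (2 * |s|)^2) := by gcongr
      _ = 3 * (D * a * |s|^3) := by ring
  have a3 : |f| * |s|^3 * n^3 ≤ D * a * |s|^3 := by
    calc |f| * |s|^3 * n^3 = (|f| * n^3) * |s|^3 := by ring
      _ ≤ (D * a) * |s|^3 := by gcongr
  have a4 : i * |z| * |w|^3 * n^3 ≤ 4 * (a * |s|^3) := by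
    calc i * |z| * |w|^3 * n^3 ≤ 1 * (4 * a) * (1/2)^3 * (8 * |s|^3) := by gcongr
      _ = 4 * (a * |s|^3) := by ring
  have a5 : i^2 * |z| * |w|^2 * n^3 ≤ 8 * (a * |s|^3) := by
    calc i^2 * |z| * |w|^2 * n^3 ≤ 1^2 * (4 * a) * (1/2)^2 * (8 * |s|^3) := by gcongr
      _ = 8 * (a * |s|^3) := by ring
  have a6 : i^3 * |z| * |w| * n^3 ≤ 16 * (a * |s|^3) := by
    calc i^3 * |z| * |w| * n^3 ≤ 1^3 * (4 * a) * (1/2) * (8 * |s|^3) := by gcongr
      _ = 16 * (a * |s|^3) := by ring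
  have a7 : i^4 * |z| * n^3 ≤ 32 * (a * |s|^3) := by
    calc i^4 * |z| * n^3 ≤ 1^4 * (4 * a) * (8 * |s|^3) := by gcongr
      _ = 32 * (a * |s|^3) := by ring
  have a8 : 0 ≤ a * |s|^3 := by positivity
  have a9 : 0 ≤ D * a * |s|^3 := by positivity
  have h33 : |C3 t e f z w s i| * n^3 ≤ (4*(t * |w|^3) + 8*(|e| * |w| * |s|^2) + |f| * |s|^3
      + (i * |z| * |w|^3 + i^2 * |z| * |w|^2 + i^3 * |z| * |w| + i^4 * |z|)) * n^3 := by gcongr
  linarith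

lemma bnd2_E {n t a e z w q s i D : ℝ} (hn : 1 ≤ n) (ht : 0 ≤ t) (hq1 : 1 ≤ q)
    (hta : t ≤ 2*a*n^3) (ha : 1 ≤ 4*a*n) (he : |e| * n ≤ D * a)
    (hiq : i * q = 1) (hz : |z| * n ≤ 1) (hw : |w| ≤ |z| / 2)
    (hs : |s| * |z| ≤ 3/2) (hs2 : n ≤ 2 * |s|) :
    |CE t z w i| * (|s| * q^2) ≤ (1000 + 100 * D) * a * n^3 := by
  obtain ⟨hi0, hi1, ha0, hDa, hZa, hZ1, hW1, hS1, hn3⟩ :=
    facts2 hn hq1 ha he (abs_nonneg z) (abs_nonneg e) hiq hz hw hs2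
  have hn0 : 0 < n := by linarith
  have hq0 : 0 < q := by linarith
  have hz0 := abs_nonneg z
  have hw0 := abs_nonneg w
  have hs0 := abs_nonneg s
  have he0 := abs_nonneg e
  have h3 := absCE (z := z) (w := w) ht hi0.le
  have a1 : t * |w| * i^2 * (|s| * q^2) ≤ 2 * (a * n^3) := by
    calc t * |w| * i^2 * (|s| * q^2) = t * |w| * |s| * (i * q)^2 := by ring
      _ = t * |w| * |s| := by rw [hiq]; ring
      _ ≤ (2*a*n^3) * (|z|/2) * |s| := by gcongr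
      _ = (a * n^3) * (|s| * |z|) := by ring
      _ ≤ (a * n^3) * (3/2) := by gcongr
      _ ≤ 2 * (a * n^3) := by nlinarith [mul_pos ha0 (pow_pos hn0 3)]
  have hn31 : (1:ℝ) ≤ n^3 := one_le_pow₀ hn
  have hnn3 : n ≤ n^3 := by nlinarith [one_le_pow₀ (n := 2) hn]
  have a2 : |z| * i^3 * |w| * (|s| * q^2) ≤ 3 * (a * n^3) := by
    calc |z| * i^3 * |w| * (|s| * q^2) = (|s| * |z|) * i * |w| * (i * q)^2 := by ring
      _ = (|s| * |z|) * i * |w| := by rw [hiq]; ring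
      _ ≤ (3/2) * 1 * (|z|/2) := by gcongr
      _ ≤ (3/2) * 1 * ((4*a)/2) := by gcongr
      _ = 3 * (a * 1) := by ring
      _ ≤ 3 * (a * n^3) := by gcongr
  have a3 : |z| * i^4 * (|s| * q^2) ≤ 6 * (a * n^3) := by
    calc |z| * i^4 * (|s| * q^2) = (|s| * |z|) * i^2 * (i * q)^2 := by ring
      _ = (|s| * |z|) * i^2 := by rw [hiq]; ring
      _ ≤ (3/2) * 1^2 := by gcongr
      _ ≤ 3/2 * (4*a*n) := by linarith
      _ = 6 * (a * n) := by ring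
      _ ≤ 6 * (a * n^3) := by gcongr
  have a8 : 0 ≤ a * n^3 := by positivity
  have a9 : 0 ≤ D * a * n^3 := by positivity
  have h33 : |CE t z w i| * (|s| * q^2) ≤ (4*(t * |w| * i^2) + (2 * (|z| * i^3 * |w|)
      + 2 * (|z| * i^4))) * (|s| * q^2) := by gcongr
  linarith

end

end Pool.Agent.HLS72
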