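import Mathlib
import Pool.Agent.LibHLS72.Rel

namespace Pool.Agent.HLS72

open Pool.Agent.Hall72 (tt ee zz tt_sq zdet abs_sub_lt_one_of_floor_eq floor_mem card_box)

noncomputable section

def ff (x y A : ℤ) : ℝ := 8 * ee x y * tt x - 4 * A
def mm (x A : ℤ) : ℤ := 3 * x^2 + 4 * A

lemma mm_eq {x A : ℤ} (y : ℤ) (hx : 0 < x) :
    ((mm x A : ℤ) : ℝ) = 3 * (tt x)^4 + 8 * ee x y * tt x - ff x y A := by
  unfold mm ff
  push_cast
  rw [tt_sq hx]; ring

def D0 (x y A p q : ℤ) : ℝ := C0 (tt x) (ee x y) (ff x y A) (zz x p q) q (1/(q:ℝ))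
def D1 (x y A p q r s : ℤ) : ℝ :=
  C1 (tt x) (ee x y) (ff x y A) (zz x p q) (zz x r s) q s (1/(q:ℝ))
def D2 (x y A p q r s : ℤ) : ℝ :=
  C2 (tt x) (ee x y) (ff x y A) (zz x p q) (zz x r s) q s (1/(q:ℝ))
def D3 (x y A p q r s : ℤ) : ℝ :=
  C3 (tt x) (ee x y) (ff x y A) (zz x p q) (zz x r s) s (1/(q:ℝ))
def DE (x p q r s : ℤ) : ℝ := CE (tt x) (zz x p q) (zz x r s) (1/(q:ℝ))

section
variable {x y A p q r s : ℤ}

lemma g0_eq (hx : 0 < x) (hq : 0 < q) :
    (g0 x y (mm x A) p q : ℝ) = q * D0 x y A p q := by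
  have hqR : (0:ℝ) < q := by exact_mod_cast hq
  have hi : (1/(q:ℝ)) * q = 1 := by field_simp
  exact relC0 (x := x) (y := y) (p := p) (q := q) (t := tt x) (e := ee x y)
    (z := zz x p q) (i := 1/(q:ℝ)) (tt_sq hx) (by unfold ee; ring) (mm_eq y hx)
    (by unfold zz; ring) hi

lemma g1_eq (hx : 0 < x) (hq : 0 < q) (h1 : p*s - r*q = 1) :
    (g1 x y (mm x A) p q r s : ℝ) = q * D1 x y A p q r s + s * D0 x y A p q := by
  have hqR : (0:ℝ) < q := by exact_mod_cast hq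
  have hi : (1/(q:ℝ)) * q = 1 := by field_simp
  exact relC1 (x := x) (y := y) (p := p) (q := q) (r := r) (s := s) (t := tt x) (e := ee x y)
    (z := zz x p q) (w := zz x r s) (i := 1/(q:ℝ)) (tt_sq hx) (by unfold ee; ring) (mm_eq y hx)
    (by unfold zz; ring) (by unfold zz; ring) hi (zdet h1)

lemma g2_eq (hx : 0 < x) (hq : 0 < q) (h1 : p*s - r*q = 1) :
    (g2 x y (mm x A) p q r s : ℝ) = q * D2 x y A p q r s + s * D1 x y A p q r s := by
  have hqR : (0:ℝ) < q := by exact_mod_cast hq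
  have hi : (1/(q:ℝ)) * q = 1 := by field_simp
  exact relC2 (x := x) (y := y) (p := p) (q := q) (r := r) (s := s) (t := tt x) (e := ee x y)
    (z := zz x p q) (w := zz x r s) (i := 1/(q:ℝ)) (tt_sq hx) (by unfold ee; ring) (mm_eq y hx)
    (by unfold zz; ring) (by unfold zz; ring) hi (zdet h1)

lemma g3_eq (hx : 0 < x) (hq : 0 < q) (h1 : p*s - r*q = 1) :
    (g3 x y (mm x A) p q r s : ℝ) = q * D3 x y A p q r s + s * D2 x y A p q r s := by
  have hqR : (0:ℝ) < q := by exact_mod_cast hq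
  have hi : (1/(q:ℝ)) * q = 1 := by field_simp
  exact relC3 (x := x) (y := y) (p := p) (q := q) (r := r) (s := s) (t := tt x) (e := ee x y)
    (z := zz x p q) (w := zz x r s) (i := 1/(q:ℝ)) (tt_sq hx) (by unfold ee; ring) (mm_eq y hx)
    (by unfold zz; ring) (by unfold zz; ring) hi (zdet h1)

lemma DE_eq (hq : 0 < q) (h1 : p*s - r*q = 1) :
    3 * D3 x y A p q r s = 3 * DE x p q r s + 2 * s * (1/(q:ℝ)) * D2 x y A p q r s
      - s^2 * (1/(q:ℝ))^2 * D1 x y A p q r s := by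
  have hqR : (0:ℝ) < q := by exact_mod_cast hq
  have hi : (1/(q:ℝ)) * q = 1 := by field_simp
  exact relCE hi (zdet h1)

end

lemma inj_floor {x y A x' y' A' p r p' r' q s : ℤ} (hx : 0 < x) (hx' : 0 < x') (hq : 0 < q)
    (h1 : p*s - r*q = 1) (h2 : p'*s - r'*q = 1)
    (f0 : ⌊D0 x y A p q⌋ = ⌊D0 x' y' A' p' q⌋)
    (f1 : ⌊D1 x y A p q r s⌋ = ⌊D1 x' y' A' p' q r' s⌋)
    (f2 : ⌊D2 x y A p q r s⌋ = ⌊D2 x' y' A' p' q r' s⌋)
    (f3 : ⌊D3 x y A p q r s⌋ = ⌊D3 x' y' A' p' q r' s⌋ ∨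
      ⌊DE x p q r s⌋ = ⌊DE x' p' q r' s⌋) : x = x' ∧ y = y' ∧ A = A' := by
  have hqR : (0:ℝ) < q := by exact_mod_cast hq
  have hi : (1/(q:ℝ)) * q = 1 := by field_simp
  have a0 := g0_eq (y := y) (A := A) (p := p) hx hq
  have a1 := g1_eq (y := y) (A := A) hx hq h1
  have a2 := g2_eq (y := y) (A := A) hx hq h1
  have a3 := g3_eq (y := y) (A := A) hx hq h1
  have b0 := g0_eq (y := y') (A := A') (p := p') hx' hq
  have b1 := g1_eq (y := y') (A := A') hx' hq h2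
  have b2 := g2_eq (y := y') (A := A') hx' hq h2
  have b3 := g3_eq (y := y') (A := A') hx' hq h2
  have aE := DE_eq (x := x) (y := y) (A := A) hq h1
  have bE := DE_eq (x := x') (y := y') (A := A') hq h2
  have g0' := abs_sub_lt_one_of_floor_eq f0
  have g1' := abs_sub_lt_one_of_floor_eq f1
  have g2' := abs_sub_lt_one_of_floor_eq f2
  have key : ∀ {a b : ℝ}, |a - b| < 1 → |(q:ℝ) * a - q * b| < q := by
    intro a b hab
    have : (q:ℝ) * a - q * b = q * (a - b) := by ring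
    rw [this, abs_mul, abs_of_pos hqR]
    nlinarith
  have e0' : g0 x y (mm x A) p q = g0 x' y' (mm x' A') p' q → D0 x y A p q = D0 x' y' A' p' q := by
    intro E0
    have E0R : (g0 x y (mm x A) p q : ℝ) = g0 x' y' (mm x' A') p' q := by exact_mod_cast E0
    have : (q:ℝ) * D0 x y A p q = q * D0 x' y' A' p' q := by rw [← a0, ← b0, E0R]
    exact mul_left_cancel₀ hqR.ne' this
  have e1' : g0 x y (mm x A) p q = g0 x' y' (mm x' A') p' q →
      g1 x y (mm x A) p q r s = g1 x' y' (mm x' A') p' q r' s →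
      D1 x y A p q r s = D1 x' y' A' p' q r' s := by
    intro E0 E1
    have E1R : (g1 x y (mm x A) p q r s : ℝ) = g1 x' y' (mm x' A') p' q r' s := by exact_mod_cast E1
    have : (q:ℝ) * D1 x y A p q r s = q * D1 x' y' A' p' q r' s := by
      rw [a1, b1, e0' E0] at E1R; linarith
    exact mul_left_cancel₀ hqR.ne' this
  have e2' : g0 x y (mm x A) p q = g0 x' y' (mm x' A') p' q →
      g1 x y (mm x A) p q r s = g1 x' y' (mm x' A') p' q r' s →
      g2 x y (mm x A) p q r s = g2 x' y' (mm x' A') p' q r' s →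
      D2 x y A p q r s = D2 x' y' A' p' q r' s := by
    intro E0 E1 E2
    have E2R : (g2 x y (mm x A) p q r s : ℝ) = g2 x' y' (mm x' A') p' q r' s := by exact_mod_cast E2
    have : (q:ℝ) * D2 x y A p q r s = q * D2 x' y' A' p' q r' s := by
      rw [a2, b2, e1' E0 E1] at E2R; linarith
    exact mul_left_cancel₀ hqR.ne' this
  have hfin : x = x' ∧ y = y' ∧ mm x A = mm x' A' := by
    refine core hq h1 h2 ?_ ?_ ?_ ?_
    · have := key g0'
      rw [← a0, ← b0] at this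
      exact_mod_cast this
    · intro E0
      have e0 := e0' E0
      have := key g1'
      have h3 : (g1 x y (mm x A) p q r s : ℝ) - g1 x' y' (mm x' A') p' q r' s
          = q * D1 x y A p q r s - q * D1 x' y' A' p' q r' s := by
        rw [a1, b1, e0]; ring
      rw [← h3] at this
      exact_mod_cast this
    · intro E0 E1
      have e1 := e1' E0 E1
      have := key g2'
      have h3 : (g2 x y (mm x A) p q r s : ℝ) - g2 x' y' (mm x' A') p' q r' s
          = q * D2 x y A p q r s - q * D2 x' y' A' p' q r' s := by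
        rw [a2, b2, e1]; ring
      rw [← h3] at this
      exact_mod_cast this
    · intro E0 E1 E2
      have e1 := e1' E0 E1
      have e2 := e2' E0 E1 E2
      have g3' : |D3 x y A p q r s - D3 x' y' A' p' q r' s| < 1 := by
        rcases f3 with f3 | f3
        · exact abs_sub_lt_one_of_floor_eq f3
        · have h4 := abs_sub_lt_one_of_floor_eq f3
          have h5 : D3 x y A p q r s - D3 x' y' A' p' q r' s = DE x p q r s - DE x' p' q r' s := by
            rw [e1, e2] at aE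
            linarith
          rw [h5]; exact h4
      have := key g3'
      have h3 : (g3 x y (mm x A) p q r s : ℝ) - g3 x' y' (mm x' A') p' q r' s
          = q * D3 x y A p q r s - q * D3 x' y' A' p' q r' s := by
        rw [a3, b3, e2]; ring
      rw [← h3] at this
      exact_mod_cast this
  obtain ⟨e1, e2, e3⟩ := hfin
  refine ⟨e1, e2, ?_⟩
  unfold mm at e3
  rw [e1] at e3
  linarith

lemma card_le {S : Finset (ℤ × ℤ × ℤ)} {q s : ℤ} (b : Bool) (hq : 0 < q) {B B2 B3 : ℝ}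
    (hB : 0 ≤ B) (hB2 : 0 ≤ B2) (hB3 : 0 ≤ B3)
    (h : ∀ P ∈ S, 0 < P.1 ∧ ∃ p r : ℤ, p*s - r*q = 1 ∧
      |D0 P.1 P.2.1 P.2.2 p q| ≤ B ∧ |D1 P.1 P.2.1 P.2.2 p q r s| ≤ B ∧
      |D2 P.1 P.2.1 P.2.2 p q r s| ≤ B2 ∧
      |(if b then D3 P.1 P.2.1 P.2.2 p q r s else DE P.1 p q r s)| ≤ B3) :
    (S.card : ℝ) ≤ (2*B+2)^2*(2*B2+2)*(2*B3+2) := by
  classical
  choose! h0 p r hdet b0 b1 b2 b3 using h
  let f : ℤ × ℤ × ℤ → ℤ × ℤ × ℤ × ℤ := fun P =>
    (⌊D0 P.1 P.2.1 P.2.2 (p P) q⌋, ⌊D1 P.1 P.2.1 P.2.2 (p P) q (r P) s⌋,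
      ⌊D2 P.1 P.2.1 P.2.2 (p P) q (r P) s⌋,
      ⌊(if b then D3 P.1 P.2.1 P.2.2 (p P) q (r P) s else DE P.1 (p P) q (r P) s)⌋)
  have hf : ∀ P ∈ S, f P ∈ (Finset.Icc ⌊-B⌋ ⌊B⌋) ×ˢ ((Finset.Icc ⌊-B⌋ ⌊B⌋) ×ˢ
      ((Finset.Icc ⌊-B2⌋ ⌊B2⌋) ×ˢ (Finset.Icc ⌊-B3⌋ ⌊B3⌋))) := by
    intro P hP
    simp only [Finset.mem_product]
    exact ⟨floor_mem (b0 P hP), floor_mem (b1 P hP), floor_mem (b2 P hP), floor_mem (b3 P hP)⟩
  have hinj : Set.InjOn f (S : Set (ℤ × ℤ × ℤ)) := by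
    intro P hP P' hP' hab
    have ha' : P ∈ S := hP
    have hb' : P' ∈ S := hP'
    simp only [f, Prod.mk.injEq] at hab
    obtain ⟨e1, e2, e3⟩ := inj_floor (h0 P ha') (h0 P' hb') hq (hdet P ha') (hdet P' hb')
      hab.1 hab.2.1 hab.2.2.1 (by
        cases b with
        | true => left; simpa using hab.2.2.2
        | false => right; simpa using hab.2.2.2)
    exact Prod.ext e1 (Prod.ext e2 e3)
  have hc := Finset.card_le_card_of_injOn f hf hinj
  rw [Finset.card_product, Finset.card_product, Finset.card_product] at hc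
  have hc' : (S.card : ℝ) ≤ ((Finset.Icc ⌊-B⌋ ⌊B⌋).card : ℝ) *
      (((Finset.Icc ⌊-B⌋ ⌊B⌋).card : ℝ) * (((Finset.Icc ⌊-B2⌋ ⌊B2⌋).card : ℝ) *
        ((Finset.Icc ⌊-B3⌋ ⌊B3⌋).card : ℝ))) := by
    exact_mod_cast hc
  have k1 := card_box hB
  have k2 := card_box hB2
  have k3 := card_box hB3
  calc (S.card : ℝ) ≤ _ := hc'
    _ ≤ (2*B+2) * ((2*B+2) * ((2*B2+2) * (2*B3+2))) := by
        apply mul_le_mul k1 _ (by positivity) (by positivity)
        apply mul_le_mul k1 _ (by positivity) (by positivity)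
        apply mul_le_mul k2 k3 (by positivity) (by positivity)
    _ = _ := by ring

end

end Pool.Agent.HLS72
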