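import Mathlib
import Pool.Agent.LibHLS72.Inj
import Pool.Agent.LibHLS72.Bnd

namespace Pool.Agent.HLS72

open Pool.Agent.Hall72 (tt ee zz tt_sq zdet exists_vec basis1 basis2)

noncomputable section

/-- the data of a point in the first case -/
def Case1 (K a : ℝ) (n : ℕ) (P : ℤ × ℤ × ℤ) (p q r s : ℤ) : Prop :=
  0 ≤ s ∧ s < q ∧
  |D0 P.1 P.2.1 P.2.2 p q| * (n:ℝ)^3 ≤ K * a * (q:ℝ)^3 ∧
  |D1 P.1 P.2.1 P.2.2 p q r s| ≤ K * a ∧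
  |D2 P.1 P.2.1 P.2.2 p q r s| * q ≤ K * a * n ∧
  |D3 P.1 P.2.1 P.2.2 p q r s| * (q:ℝ)^3 ≤ K * a * (n:ℝ)^3

/-- the data of a point in the second case -/
def Case2 (K a : ℝ) (n : ℕ) (P : ℤ × ℤ × ℤ) (p q r s : ℤ) : Prop :=
  (n:ℝ) ≤ 2 * |(s:ℝ)| ∧ 2 * ((q:ℝ) * |(s:ℝ)|) ≤ 3 * (n:ℝ)^2 ∧
  |D0 P.1 P.2.1 P.2.2 p q| * |(s:ℝ)|^3 ≤ K * a * (n:ℝ)^3 ∧
  |D1 P.1 P.2.1 P.2.2 p q r s| ≤ K * a ∧
  |D2 P.1 P.2.1 P.2.2 p q r s| * n ≤ K * a * |(s:ℝ)| ∧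
  |D3 P.1 P.2.1 P.2.2 p q r s| * (n:ℝ)^3 ≤ K * a * |(s:ℝ)|^3 ∧
  |DE P.1 p q r s| * (|(s:ℝ)| * (q:ℝ)^2) ≤ K * a * (n:ℝ)^3

/-- a good point of a block -/
structure Good (D a : ℝ) (n : ℕ) (P : ℤ × ℤ × ℤ) : Prop where
  pos : 0 < P.1
  ht : tt P.1 ≤ 2 * a * (n:ℝ)^3
  he : |ee P.1 P.2.1| * n ≤ D * a
  hf : |ff P.1 P.2.1 P.2.2| * (n:ℝ)^3 ≤ D * a
  hg : ∀ p : ℤ, |zz P.1 p 1| ≤ 1 → g0 P.1 P.2.1 (mm P.1 P.2.2) p 1 ≠ 0

lemma split {D a : ℝ} {n : ℕ} {P : ℤ × ℤ × ℤ} (hn : 1 ≤ n) (ha : 1 ≤ 4 * a * n)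
    (hP : Good D a n P) :
    ∃ p q r s : ℤ, 1 ≤ q ∧ q ≤ n ∧ p*s - r*q = 1 ∧ g0 P.1 P.2.1 (mm P.1 P.2.2) p q ≠ 0 ∧
      (Case1 (1000 + 100 * D) a n P p q r s ∨ Case2 (1000 + 100 * D) a n P p q r s) := by
  obtain ⟨p, q, hq1, hqn, hcop, hz⟩ := exists_vec P.1 (n := n) (by omega)
  have hnR : (1:ℝ) ≤ n := by exact_mod_cast hn
  have hn0 : (0:ℝ) < n := by linarith
  have hq0 : 0 < q := by linarith
  have hq1R : (1:ℝ) ≤ q := by exact_mod_cast hq1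
  have hq0R : (0:ℝ) < q := by linarith
  have hqnR : (q:ℝ) ≤ n := by exact_mod_cast hqn
  have hi : (1/(q:ℝ)) * q = 1 := by field_simp
  have htt : 0 ≤ tt P.1 := Real.sqrt_nonneg _
  have hz1 : |zz P.1 p q| ≤ 1 := by
    have h0 := abs_nonneg (zz P.1 p q)
    nlinarith
  -- nonvanishing of the leading coefficient
  have hg : ∀ r s : ℤ, p*s - r*q = 1 → g0 P.1 P.2.1 (mm P.1 P.2.2) p q ≠ 0 := by
    intro r s hd h0
    have h1 := dvd_g0 (x := P.1) (y := P.2.1) (m := mm P.1 P.2.2) hd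
    rw [h0] at h1
    have h2 : q ∣ 1 := by
      have : q ∣ (0 * s^4 - 1) := h1
      have h3 : (0 * s^4 - 1 : ℤ) = -1 := by ring
      rw [h3] at this
      exact (dvd_neg.mp this)
    have h3 : q = 1 := by
      rcases Int.isUnit_iff.mp (isUnit_of_dvd_one h2) with h | h
      · exact h
      · omega
    subst h3
    exact hP.hg p hz1 h0
  rcases le_total (|zz P.1 p q| * (n:ℝ)^2) q with hc | hc
  · obtain ⟨r, s, hs0, hs1, hd, hw⟩ := basis1 hq1 hqn hcop hz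
    have hsR : |(s:ℝ)| ≤ q := by
      rw [abs_of_nonneg (by exact_mod_cast hs0)]
      exact_mod_cast hs1.le
    refine ⟨p, q, r, s, hq1, hqn, hd, hg r s hd, Or.inl ⟨hs0, hs1, ?_, ?_, ?_, ?_⟩⟩
    · exact bnd1_0 hnR htt hq1R hqnR hP.ht ha hP.he hP.hf hi hc hw
    · exact bnd1_1 hnR htt hq1R hqnR hP.ht ha hP.he hP.hf hi hc hw hsR
    · exact bnd1_2 hnR htt hq1R hqnR hP.ht ha hP.he hP.hf hi hc hw hsR
    · exact bnd1_3 hnR htt hq1R hqnR hP.ht ha hP.he hP.hf hi hc hw hsR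
  · have hz0 : zz P.1 p q ≠ 0 := by
      intro h0
      rw [h0] at hc
      norm_num at hc
      linarith
    have hzpos : 0 < |zz P.1 p q| := abs_pos.mpr hz0
    obtain ⟨r, s, hd, hw, hs⟩ := basis2 hq1 hqn hcop hz hz0
    have hdet := zdet (x := P.1) hd
    have hs2' : 1/2 ≤ |zz P.1 p q| * |(s:ℝ)| := by
      have e1 : zz P.1 p q * s = 1 + zz P.1 r s * q := by linarith
      have e2 : |zz P.1 p q| * |(s:ℝ)| = |1 + zz P.1 r s * q| := by rw [← abs_mul, e1]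
      rw [e2]
      have e3 : |zz P.1 r s * q| ≤ 1/2 := by
        rw [abs_mul, abs_of_pos hq0R]
        calc |zz P.1 r s| * q ≤ (|zz P.1 p q| / 2) * n := by gcongr
          _ = (|zz P.1 p q| * n) / 2 := by ring
          _ ≤ 1/2 := by linarith
      have e4 := abs_le.mp e3
      rw [abs_of_nonneg (by linarith)]
      linarith
    have hs2 : (n:ℝ) ≤ 2 * |(s:ℝ)| := by
      have : |zz P.1 p q| * n ≤ |zz P.1 p q| * (2 * |(s:ℝ)|) := by linarith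
      exact le_of_mul_le_mul_left this hzpos
    have hs3 : 2 * ((q:ℝ) * |(s:ℝ)|) ≤ 3 * (n:ℝ)^2 := by
      have : (q:ℝ) * |(s:ℝ)| ≤ (|zz P.1 p q| * (n:ℝ)^2) * |(s:ℝ)| := by gcongr
      have h2 : (|zz P.1 p q| * (n:ℝ)^2) * |(s:ℝ)| = (|(s:ℝ)| * |zz P.1 p q|) * (n:ℝ)^2 := by ring
      have h3 : (|(s:ℝ)| * |zz P.1 p q|) * (n:ℝ)^2 ≤ (3/2) * (n:ℝ)^2 := by gcongr
      linarith
    refine ⟨p, q, r, s, hq1, hqn, hd, hg r s hd, Or.inr ⟨hs2, hs3, ?_, ?_, ?_, ?_, ?_⟩⟩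
    · exact bnd2_0 hnR htt hq1R hP.ht ha hP.he hP.hf hi hz hc hw hs hs2
    · exact bnd2_1 hnR htt hq1R hqnR hP.ht ha hP.he hP.hf hi hz hc hw hs hs2
    · exact bnd2_2 hnR htt hq1R hqnR hP.ht ha hP.he hP.hf hi hz hc hw hs hs2
    · exact bnd2_3 hnR htt hq1R hP.ht ha hP.he hP.hf hi hz hw hs hs2
    · exact bnd2_E hnR htt hq1R hP.ht ha hP.he hi hz hw hs hs2

end

end Pool.Agent.HLS72
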