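import Mathlib
import Pool.Agent.LibHLS72.Split
import Pool.Agent.Hall79X.X2

namespace Pool.Agent.HLS72

open Pool.Agent.Hall72 (tt ee zz)
open Pool.Agent.LibHall79 (class_count)

noncomputable section

lemma card_by_class {F : Finset (ℤ × ℤ × ℤ)} (b : Bool) {B B2 B3 N : ℝ}
    (hB : 0 ≤ B) (hB2 : 0 ≤ B2) (hB3 : 0 ≤ B3) (cls : ℤ × ℤ × ℤ → ℤ × ℤ)
    (h : ∀ P ∈ F, 0 < P.1 ∧ 0 < (cls P).1 ∧ ∃ p r : ℤ, p*(cls P).2 - r*(cls P).1 = 1 ∧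
      |D0 P.1 P.2.1 P.2.2 p (cls P).1| ≤ B ∧
      |D1 P.1 P.2.1 P.2.2 p (cls P).1 r (cls P).2| ≤ B ∧
      |D2 P.1 P.2.1 P.2.2 p (cls P).1 r (cls P).2| ≤ B2 ∧
      |(if b then D3 P.1 P.2.1 P.2.2 p (cls P).1 r (cls P).2
        else DE P.1 p (cls P).1 r (cls P).2)| ≤ B3)
    (hN : ((F.image cls).card : ℝ) ≤ N) :
    (F.card : ℝ) ≤ N * ((2*B+2)^2*(2*B2+2)*(2*B3+2)) := by
  classical
  have h1 := Finset.card_eq_sum_card_image cls F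
  have h2 : (F.card : ℝ) = ∑ c ∈ F.image cls, ((F.filter (fun P => cls P = c)).card : ℝ) := by
    exact_mod_cast h1
  rw [h2]
  have hw : 0 ≤ (2*B+2)^2*(2*B2+2)*(2*B3+2) := by positivity
  calc ∑ c ∈ F.image cls, ((F.filter (fun P => cls P = c)).card : ℝ)
      ≤ ∑ c ∈ F.image cls, (2*B+2)^2*(2*B2+2)*(2*B3+2) := by
        apply Finset.sum_le_sum
        intro c hc
        rw [Finset.mem_image] at hc
        obtain ⟨P0, hP0, rfl⟩ := hc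
        refine card_le (q := (cls P0).1) (s := (cls P0).2) b (h P0 hP0).2.1 hB hB2 hB3 ?_
        intro P hP
        rw [Finset.mem_filter] at hP
        obtain ⟨hPF, hPc⟩ := hP
        obtain ⟨g1, _, p, r, g2⟩ := h P hPF
        rw [hPc] at g2
        exact ⟨g1, p, r, g2⟩
    _ = ((F.image cls).card : ℝ) * ((2*B+2)^2*(2*B2+2)*(2*B3+2)) := by
        rw [Finset.sum_const, nsmul_eq_mul]
    _ ≤ N * ((2*B+2)^2*(2*B2+2)*(2*B3+2)) := by gcongr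

lemma rpow_aux {A n η : ℝ} (hA : 0 ≤ A) (hn : 0 ≤ n) : (A * n^5)^(η/5) = A^(η/5) * n^η := by
  rw [Real.mul_rpow hA (by positivity)]
  congr 1
  rw [← Real.rpow_natCast n 5, ← Real.rpow_mul hn]
  congr 1
  push_cast; ring

lemma block1 {K κ η : ℝ} (hK : 1 ≤ K) (hκ : 0 ≤ κ) (hη : 0 < η) :
    ∃ C : ℝ, 0 < C ∧ ∀ (n R : ℕ) (a : ℝ), 1 ≤ R → R ≤ n → 0 < a → a ≤ κ →
      ∀ F : Finset (ℤ × ℤ × ℤ), (∀ P ∈ F, 0 < P.1 ∧ ∃ p q r s : ℤ, (R:ℤ) ≤ q ∧ q < 2 * R ∧ q ≤ n ∧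
        p*s - r*q = 1 ∧ g0 P.1 P.2.1 (mm P.1 P.2.2) p q ≠ 0 ∧ Case1 K a n P p q r s) →
        (F.card : ℝ) ≤ C * a * (n:ℝ)^(2+η) := by
  classical
  obtain ⟨C1, hC1, hcc⟩ := class_count (η/5) (by positivity)
  refine ⟨64 * C1 * K * (256*K*κ+1)^(η/5) * (2*K*κ+2)^4, by positivity, ?_⟩
  intro n R a hR hRn ha haκ F hF
  rcases F.eq_empty_or_nonempty with hE | hNE
  · subst hE; simp; positivity
  have hn : 1 ≤ n := hR.trans hRn
  have hnR : (1:ℝ) ≤ n := by exact_mod_cast hn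
  have hn0 : (0:ℝ) < n := by linarith
  have hR1 : (1:ℝ) ≤ R := by exact_mod_cast hR
  have hR0 : (0:ℝ) < R := by linarith
  have hRnR : (R:ℝ) ≤ n := by exact_mod_cast hRn
  choose! hpos p q r s hq1 hq2 hqn hdet hg hcase using hF
  set Gr : ℝ := 16 * K * a * (R:ℝ)^4 / (n:ℝ)^3 with hGr
  have hGr0 : 0 ≤ Gr := by positivity
  set G : ℕ := ⌊Gr⌋₊ with hG
  have hqpos : ∀ P ∈ F, (0:ℤ) < q P := fun P hP => by
    have := hq1 P hP; omega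
  have hqle : ∀ P ∈ F, (q P : ℝ) ≤ 2 * R := fun P hP => by
    have := hq2 P hP; exact_mod_cast this.le
  have hqge : ∀ P ∈ F, (R : ℝ) ≤ q P := fun P hP => by
    exact_mod_cast hq1 P hP
  have hgabs : ∀ P ∈ F, |((g0 P.1 P.2.1 (mm P.1 P.2.2) (p P) (q P) : ℤ) : ℝ)| ≤ Gr := by
    intro P hP
    have hqR : (0:ℝ) < q P := by exact_mod_cast hqpos P hP
    rw [g0_eq (hpos P hP) (hqpos P hP), abs_mul, abs_of_pos hqR, hGr, le_div_iff₀ (by positivity)]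
    obtain ⟨_, _, h0, _⟩ := hcase P hP
    calc (q P : ℝ) * |D0 P.1 P.2.1 P.2.2 (p P) (q P)| * (n:ℝ)^3
        = q P * (|D0 P.1 P.2.1 P.2.2 (p P) (q P)| * (n:ℝ)^3) := by ring
      _ ≤ q P * (K * a * (q P:ℝ)^3) := by gcongr
      _ = K * a * (q P:ℝ)^4 := by ring
      _ ≤ K * a * (2 * R)^4 := by
          have := hqle P hP
          gcongr
      _ = 16 * K * a * (R:ℝ)^4 := by ring
  have hgG : ∀ P ∈ F, |g0 P.1 P.2.1 (mm P.1 P.2.2) (p P) (q P)| ≤ (G:ℤ) := by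
    intro P hP
    have h1 := hgabs P hP
    have h2 : (((g0 P.1 P.2.1 (mm P.1 P.2.2) (p P) (q P)).natAbs : ℕ) : ℝ) ≤ Gr := by
      rw [Nat.cast_natAbs]
      push_cast
      exact h1
    have h3 : (g0 P.1 P.2.1 (mm P.1 P.2.2) (p P) (q P)).natAbs ≤ G := Nat.le_floor h2
    have h4 : (((g0 P.1 P.2.1 (mm P.1 P.2.2) (p P) (q P)).natAbs : ℕ) : ℤ) ≤ (G:ℤ) := by
      exact_mod_cast h3
    rwa [Int.natCast_natAbs] at h4
  have hG1 : 1 ≤ G := by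
    obtain ⟨P, hP⟩ := hNE
    have h1 := hgG P hP
    have h2 : 0 < |g0 P.1 P.2.1 (mm P.1 P.2.2) (p P) (q P)| := abs_pos.mpr (hg P hP)
    have h3 : (0:ℤ) < (G:ℤ) := lt_of_lt_of_le h2 h1
    exact_mod_cast h3
  have hG1R : (1:ℝ) ≤ G := by exact_mod_cast hG1
  have hGGr : (G:ℝ) ≤ Gr := Nat.floor_le hGr0
  have hcls := hcc (2*R) (2*R) G (by omega) (by omega) hG1 (F.image (fun P => (q P, s P))) (by
    intro c hc
    rw [Finset.mem_image] at hc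
    obtain ⟨P, hP, rfl⟩ := hc
    obtain ⟨h1, h2, _⟩ := hcase P hP
    refine ⟨by have := hqpos P hP; simp only; omega, ?_, ?_,
      g0 P.1 P.2.1 (mm P.1 P.2.2) (p P) (q P), hg P hP, hgG P hP, dvd_g0 (hdet P hP)⟩
    · push_cast; exact (hq2 P hP).le
    · have h3 := hq2 P hP
      simp only
      rw [abs_of_nonneg h1]
      push_cast
      linarith)
  push_cast at hcls
  set Nc : ℝ := 4 * R * Gr * ((256*K*κ+1)^(η/5) * (n:ℝ)^η) * C1 with hNc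
  have hN : (((F.image (fun P => (q P, s P))).card : ℕ) : ℝ) ≤ Nc := by
    refine hcls.trans ?_
    have e1 : (2*(R:ℝ) + 2*R*G) ≤ 4 * R * Gr := by
      have : 2*(R:ℝ) ≤ 2*R*G := by nlinarith
      calc (2*(R:ℝ) + 2*R*G) ≤ 4 * R * G := by linarith
        _ ≤ 4 * R * Gr := by gcongr
    have e2 : ((G:ℝ) * (2*R)^4 + 1)^(η/5) ≤ (256*K*κ+1)^(η/5) * (n:ℝ)^η := by
      rw [← rpow_aux (by positivity) hn0.le]
      apply Real.rpow_le_rpow (by positivity) _ (by positivity)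
      have e3 : (G:ℝ) * (2*R)^4 ≤ 256 * K * κ * (n:ℝ)^5 := by
        calc (G:ℝ) * (2*R)^4 ≤ Gr * (2*R)^4 := by gcongr
          _ = 256 * K * a * ((R:ℝ)^8 / (n:ℝ)^3) := by rw [hGr]; ring
          _ ≤ 256 * K * κ * ((n:ℝ)^8 / (n:ℝ)^3) := by gcongr
          _ = 256 * K * κ * (n:ℝ)^5 := by
              congr 1
              field_simp
      have e4 : (1:ℝ) ≤ (n:ℝ)^5 := one_le_pow₀ hnR
      linarith
    calc C1 * (2*(R:ℝ) + 2*R*G) * ((G:ℝ) * (2*R)^4 + 1)^(η/5)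
        ≤ C1 * (4 * R * Gr) * ((256*K*κ+1)^(η/5) * (n:ℝ)^η) := by gcongr
      _ = Nc := by rw [hNc]; ring
  have hcard := card_by_class (F := F) true (B := K*a) (B2 := K*a*n/R) (B3 := K*a*(n:ℝ)^3/(R:ℝ)^3)
    (N := Nc) (by positivity) (by positivity) (by positivity) (fun P => (q P, s P)) (by
      intro P hP
      refine ⟨hpos P hP, hqpos P hP, p P, r P, hdet P hP, ?_, ?_, ?_, ?_⟩
      · obtain ⟨_, _, h0, _⟩ := hcase P hP
        have h1 : (q P:ℝ) ≤ n := by exact_mod_cast hqn P hP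
        have hqR : (0:ℝ) < q P := by exact_mod_cast hqpos P hP
        have h2 : |D0 P.1 P.2.1 P.2.2 (p P) (q P)| * (n:ℝ)^3 ≤ (K * a) * (n:ℝ)^3 :=
          h0.trans (by gcongr)
        exact le_of_mul_le_mul_right h2 (by positivity)
      · obtain ⟨_, _, _, h1, _⟩ := hcase P hP
        exact h1
      · obtain ⟨_, _, _, _, h2, _⟩ := hcase P hP
        have := hqge P hP
        simp only
        rw [le_div_iff₀ hR0]
        calc |D2 P.1 P.2.1 P.2.2 (p P) (q P) (r P) (s P)| * R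
            ≤ |D2 P.1 P.2.1 P.2.2 (p P) (q P) (r P) (s P)| * q P := by gcongr
          _ ≤ K * a * n := h2
      · obtain ⟨_, _, _, _, _, h3⟩ := hcase P hP
        have := hqge P hP
        simp only [if_true]
        rw [le_div_iff₀ (by positivity)]
        calc |D3 P.1 P.2.1 P.2.2 (p P) (q P) (r P) (s P)| * (R:ℝ)^3
            ≤ |D3 P.1 P.2.1 P.2.2 (p P) (q P) (r P) (s P)| * (q P:ℝ)^3 := by gcongr
          _ ≤ K * a * (n:ℝ)^3 := h3) hN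
  have w1 : 2*(K*a)+2 ≤ 2*K*κ+2 := by nlinarith
  have hnR' : 1 ≤ (n:ℝ)/R := by rw [le_div_iff₀ hR0]; linarith
  have hnR3 : 1 ≤ ((n:ℝ)/R)^3 := one_le_pow₀ hnR'
  have hKa : K * a ≤ K * κ := by gcongr
  have w2 : 2*(K*a*n/R)+2 ≤ (2*K*κ+2) * ((n:ℝ)/R) := by
    calc 2*(K*a*n/R)+2 = 2*(K*a)*((n:ℝ)/R) + 2*1 := by ring
      _ ≤ 2*(K*κ)*((n:ℝ)/R) + 2*((n:ℝ)/R) := by gcongr
      _ = _ := by ring
  have w3 : 2*(K*a*(n:ℝ)^3/(R:ℝ)^3)+2 ≤ (2*K*κ+2) * ((n:ℝ)/R)^3 := by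
    calc 2*(K*a*(n:ℝ)^3/(R:ℝ)^3)+2 = 2*(K*a)*((n:ℝ)/R)^3 + 2*1 := by rw [div_pow]; ring
      _ ≤ 2*(K*κ)*((n:ℝ)/R)^3 + 2*((n:ℝ)/R)^3 := by gcongr
      _ = _ := by ring
  have hn2 : (n:ℝ)^(2+η) = (n:ℝ)^2 * (n:ℝ)^η := by
    rw [Real.rpow_add hn0]; norm_num
  calc (F.card : ℝ) ≤ Nc * ((2*(K*a)+2)^2*(2*(K*a*n/R)+2)*(2*(K*a*(n:ℝ)^3/(R:ℝ)^3)+2)) := hcard
    _ ≤ Nc * ((2*K*κ+2)^2*((2*K*κ+2) * ((n:ℝ)/R))*((2*K*κ+2) * ((n:ℝ)/R)^3)) := by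
        have : 0 ≤ Nc := by positivity
        gcongr
    _ = 64 * C1 * K * (256*K*κ+1)^(η/5) * (2*K*κ+2)^4 * a * ((n:ℝ) * R * (n:ℝ)^η) := by
        rw [hNc, hGr]
        field_simp
        ring
    _ ≤ 64 * C1 * K * (256*K*κ+1)^(η/5) * (2*K*κ+2)^4 * a * ((n:ℝ) * n * (n:ℝ)^η) := by
        gcongr
    _ = _ := by rw [hn2]; ring

lemma block2 {K κ η : ℝ} (hK : 1 ≤ K) (hκ : 0 ≤ κ) (hη : 0 < η) :
    ∃ C : ℝ, 0 < C ∧ ∀ (n R S : ℕ) (a : ℝ), 1 ≤ R → R ≤ n → 1 ≤ S → 0 < a → a ≤ κ →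
      ∀ F : Finset (ℤ × ℤ × ℤ), (∀ P ∈ F, 0 < P.1 ∧ ∃ p q r s : ℤ, (R:ℤ) ≤ q ∧ q < 2 * R ∧
        (S:ℤ) ≤ |s| ∧ |s| < 2 * S ∧
        p*s - r*q = 1 ∧ g0 P.1 P.2.1 (mm P.1 P.2.2) p q ≠ 0 ∧ Case2 K a n P p q r s) →
        (F.card : ℝ) ≤ C * a * (n:ℝ)^(2+η) := by
  classical
  obtain ⟨C1, hC1, hcc⟩ := class_count (η/5) (by positivity)
  refine ⟨20 * C1 * K * (48*K*κ+1)^(η/5) * ((128*K*κ+2)^2*(4*K*κ+8)*(16*K*κ+8)),
    by positivity, ?_⟩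
  intro n R S a hR hRn hS ha haκ F hF
  rcases F.eq_empty_or_nonempty with hE | hNE
  · subst hE; simp; positivity
  have hn : 1 ≤ n := hR.trans hRn
  have hnR : (1:ℝ) ≤ n := by exact_mod_cast hn
  have hn0 : (0:ℝ) < n := by linarith
  have hR1 : (1:ℝ) ≤ R := by exact_mod_cast hR
  have hR0 : (0:ℝ) < R := by linarith
  have hS1 : (1:ℝ) ≤ S := by exact_mod_cast hS
  have hS0 : (0:ℝ) < S := by linarith
  have hRnR : (R:ℝ) ≤ n := by exact_mod_cast hRn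
  choose! hpos p q r s hq1 hq2 hs1 hs2 hdet hg hcase using hF
  have hqpos : ∀ P ∈ F, (0:ℤ) < q P := fun P hP => by
    have := hq1 P hP; omega
  have hqle : ∀ P ∈ F, (q P : ℝ) ≤ 2 * R := fun P hP => by
    have := hq2 P hP; exact_mod_cast this.le
  have hqge : ∀ P ∈ F, (R : ℝ) ≤ q P := fun P hP => by
    exact_mod_cast hq1 P hP
  have hsge : ∀ P ∈ F, (S : ℝ) ≤ |(s P:ℝ)| := fun P hP => by
    exact_mod_cast hs1 P hP
  have hsle : ∀ P ∈ F, |(s P:ℝ)| ≤ 2 * S := fun P hP => by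
    exact_mod_cast (hs2 P hP).le
  have hn4S : (n:ℝ) ≤ 4 * S := by
    obtain ⟨P, hP⟩ := hNE
    obtain ⟨h1, _⟩ := hcase P hP
    have := hsle P hP
    linarith
  have hRS : (R:ℝ) * S ≤ 3/2 * (n:ℝ)^2 := by
    obtain ⟨P, hP⟩ := hNE
    obtain ⟨_, h1, _⟩ := hcase P hP
    have h2 := hsge P hP
    have h3 := hqge P hP
    have hq0 : (0:ℝ) ≤ q P := by linarith
    have : (R:ℝ) * S ≤ (q P:ℝ) * |(s P:ℝ)| := by gcongr
    linarith
  set Gr : ℝ := 2 * K * a * R * (n:ℝ)^3 / (S:ℝ)^3 with hGr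
  have hGr0 : 0 ≤ Gr := by positivity
  set G : ℕ := ⌊Gr⌋₊ with hG
  have hgabs : ∀ P ∈ F, |((g0 P.1 P.2.1 (mm P.1 P.2.2) (p P) (q P) : ℤ) : ℝ)| ≤ Gr := by
    intro P hP
    have hqR : (0:ℝ) < q P := by exact_mod_cast hqpos P hP
    have h5 := hsge P hP
    rw [g0_eq (hpos P hP) (hqpos P hP), abs_mul, abs_of_pos hqR, hGr, le_div_iff₀ (by positivity)]
    obtain ⟨_, _, h0, _⟩ := hcase P hP
    calc (q P : ℝ) * |D0 P.1 P.2.1 P.2.2 (p P) (q P)| * (S:ℝ)^3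
        ≤ (q P : ℝ) * |D0 P.1 P.2.1 P.2.2 (p P) (q P)| * |(s P:ℝ)|^3 := by gcongr
      _ = q P * (|D0 P.1 P.2.1 P.2.2 (p P) (q P)| * |(s P:ℝ)|^3) := by ring
      _ ≤ q P * (K * a * (n:ℝ)^3) := by gcongr
      _ ≤ (2 * R) * (K * a * (n:ℝ)^3) := by
          have := hqle P hP
          gcongr
      _ = 2 * K * a * R * (n:ℝ)^3 := by ring
  have hgG : ∀ P ∈ F, |g0 P.1 P.2.1 (mm P.1 P.2.2) (p P) (q P)| ≤ (G:ℤ) := by
    intro P hP
    have h1 := hgabs P hP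
    have h2 : (((g0 P.1 P.2.1 (mm P.1 P.2.2) (p P) (q P)).natAbs : ℕ) : ℝ) ≤ Gr := by
      rw [Nat.cast_natAbs]
      push_cast
      exact h1
    have h3 : (g0 P.1 P.2.1 (mm P.1 P.2.2) (p P) (q P)).natAbs ≤ G := Nat.le_floor h2
    have h4 : (((g0 P.1 P.2.1 (mm P.1 P.2.2) (p P) (q P)).natAbs : ℕ) : ℤ) ≤ (G:ℤ) := by
      exact_mod_cast h3
    rwa [Int.natCast_natAbs] at h4
  have hG1 : 1 ≤ G := by
    obtain ⟨P, hP⟩ := hNE
    have h1 := hgG P hP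
    have h2 : 0 < |g0 P.1 P.2.1 (mm P.1 P.2.2) (p P) (q P)| := abs_pos.mpr (hg P hP)
    have h3 : (0:ℤ) < (G:ℤ) := lt_of_lt_of_le h2 h1
    exact_mod_cast h3
  have hG1R : (1:ℝ) ≤ G := by exact_mod_cast hG1
  have hGGr : (G:ℝ) ≤ Gr := Nat.floor_le hGr0
  have hcls := hcc (2*R) (2*S) G (by omega) (by omega) hG1 (F.image (fun P => (q P, s P))) (by
    intro c hc
    rw [Finset.mem_image] at hc
    obtain ⟨P, hP, rfl⟩ := hc
    refine ⟨by have := hqpos P hP; simp only; omega, ?_, ?_,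
      g0 P.1 P.2.1 (mm P.1 P.2.2) (p P) (q P), hg P hP, hgG P hP, dvd_g0 (hdet P hP)⟩
    · push_cast; exact (hq2 P hP).le
    · push_cast; exact (hs2 P hP).le)
  push_cast at hcls
  set Nc : ℝ := 10 * S * Gr * ((48*K*κ+1)^(η/5) * (n:ℝ)^η) * C1 with hNc
  have hN : (((F.image (fun P => (q P, s P))).card : ℕ) : ℝ) ≤ Nc := by
    refine hcls.trans ?_
    have e1 : (2*(R:ℝ) + 2*S*G) ≤ 10 * S * Gr := by
      have : 2*(R:ℝ) ≤ 8*S*G := by nlinarith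
      calc (2*(R:ℝ) + 2*S*G) ≤ 10 * S * G := by linarith
        _ ≤ 10 * S * Gr := by gcongr
    have e2 : ((G:ℝ) * (2*S)^4 + 1)^(η/5) ≤ (48*K*κ+1)^(η/5) * (n:ℝ)^η := by
      rw [← rpow_aux (by positivity) hn0.le]
      apply Real.rpow_le_rpow (by positivity) _ (by positivity)
      have e3 : (G:ℝ) * (2*S)^4 ≤ 48 * K * κ * (n:ℝ)^5 := by
        calc (G:ℝ) * (2*S)^4 ≤ Gr * (2*S)^4 := by gcongr
          _ = 32 * K * a * (n:ℝ)^3 * (R * S) := by rw [hGr]; field_simp; ring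
          _ ≤ 32 * K * κ * (n:ℝ)^3 * (3/2 * (n:ℝ)^2) := by gcongr
          _ = 48 * K * κ * (n:ℝ)^5 := by ring
      have e4 : (1:ℝ) ≤ (n:ℝ)^5 := one_le_pow₀ hnR
      linarith
    calc C1 * (2*(R:ℝ) + 2*S*G) * ((G:ℝ) * (2*S)^4 + 1)^(η/5)
        ≤ C1 * (10 * S * Gr) * ((48*K*κ+1)^(η/5) * (n:ℝ)^η) := by gcongr
      _ = Nc := by rw [hNc]; ring
  have hcard := card_by_class (F := F) (decide ((S:ℝ)^2 * R ≤ (n:ℝ)^3)) (B := 64*(K*a))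
    (B2 := 2*(K*a)*S/n) (B3 := 8*(K*a)*S/R)
    (N := Nc) (by positivity) (by positivity) (by positivity) (fun P => (q P, s P)) (by
      intro P hP
      have hs3 := hsge P hP
      have hs4 := hsle P hP
      have hq3 := hqge P hP
      have hspos : 0 < |(s P:ℝ)| := by linarith
      refine ⟨hpos P hP, hqpos P hP, p P, r P, hdet P hP, ?_, ?_, ?_, ?_⟩
      · obtain ⟨_, _, h0, _⟩ := hcase P hP
        have h2 : |D0 P.1 P.2.1 P.2.2 (p P) (q P)| * (S:ℝ)^3 ≤ (64*(K * a)) * (S:ℝ)^3 := by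
          calc |D0 P.1 P.2.1 P.2.2 (p P) (q P)| * (S:ℝ)^3
              ≤ |D0 P.1 P.2.1 P.2.2 (p P) (q P)| * |(s P:ℝ)|^3 := by gcongr
            _ ≤ K * a * (n:ℝ)^3 := h0
            _ ≤ K * a * (4*S)^3 := by gcongr
            _ = (64*(K * a)) * (S:ℝ)^3 := by ring
        exact le_of_mul_le_mul_right h2 (by positivity)
      · obtain ⟨_, _, _, h1, _⟩ := hcase P hP
        have : 0 ≤ K * a := by positivity
        simp only
        linarith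
      · obtain ⟨_, _, _, _, h2, _⟩ := hcase P hP
        simp only
        rw [le_div_iff₀ hn0]
        calc |D2 P.1 P.2.1 P.2.2 (p P) (q P) (r P) (s P)| * n ≤ K * a * |(s P:ℝ)| := h2
          _ ≤ K * a * (2 * S) := by gcongr
          _ = _ := by ring
      · obtain ⟨_, _, _, _, _, h3, h4⟩ := hcase P hP
        by_cases hb : (S:ℝ)^2 * R ≤ (n:ℝ)^3
        · simp only [hb, decide_true, if_true]
          rw [le_div_iff₀ hR0]
          have h5 : |D3 P.1 P.2.1 P.2.2 (p P) (q P) (r P) (s P)| * R * (n:ℝ)^3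
              ≤ 8*(K*a)*S * (n:ℝ)^3 := by
            calc |D3 P.1 P.2.1 P.2.2 (p P) (q P) (r P) (s P)| * R * (n:ℝ)^3
                = (|D3 P.1 P.2.1 P.2.2 (p P) (q P) (r P) (s P)| * (n:ℝ)^3) * R := by ring
              _ ≤ (K * a * |(s P:ℝ)|^3) * R := by gcongr
              _ ≤ (K * a * (2*S)^3) * R := by gcongr
              _ = 8*(K*a)*S * ((S:ℝ)^2 * R) := by ring
              _ ≤ 8*(K*a)*S * (n:ℝ)^3 := by gcongr
          exact le_of_mul_le_mul_right h5 (by positivity)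
        · simp only [hb, decide_false, Bool.false_eq_true, if_false]
          push Not at hb
          rw [le_div_iff₀ hR0]
          have h5 : |DE P.1 (p P) (q P) (r P) (s P)| * R * (S * R) ≤ 8*(K*a)*S * (S * R) := by
            calc |DE P.1 (p P) (q P) (r P) (s P)| * R * (S * R)
                = |DE P.1 (p P) (q P) (r P) (s P)| * (S * (R:ℝ)^2) := by ring
              _ ≤ |DE P.1 (p P) (q P) (r P) (s P)| * (|(s P:ℝ)| * (q P:ℝ)^2) := by gcongr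
              _ ≤ K * a * (n:ℝ)^3 := h4
              _ ≤ K * a * ((S:ℝ)^2 * R) := by gcongr
              _ = 1 * (K*a)*S * (S * R) := by ring
              _ ≤ 8 * (K*a)*S * (S * R) := by gcongr; norm_num
          exact le_of_mul_le_mul_right h5 (by positivity)) hN
  have hSn : 1 ≤ 4*((S:ℝ)/n) := by
    rw [← mul_div_assoc, le_div_iff₀ hn0]; linarith
  have hSR : 1 ≤ 4*((S:ℝ)/R) := by
    rw [← mul_div_assoc, le_div_iff₀ hR0]; linarith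
  have hKa : K * a ≤ K * κ := by gcongr
  have w1 : 2*(64*(K*a))+2 ≤ 128*K*κ+2 := by nlinarith
  have w2 : 2*(2*(K*a)*S/n)+2 ≤ (4*K*κ+8) * ((S:ℝ)/n) := by
    calc 2*(2*(K*a)*S/n)+2 = 4*(K*a)*((S:ℝ)/n) + 2*1 := by ring
      _ ≤ 4*(K*κ)*((S:ℝ)/n) + 2*(4*((S:ℝ)/n)) := by gcongr
      _ = _ := by ring
  have w3 : 2*(8*(K*a)*S/R)+2 ≤ (16*K*κ+8) * ((S:ℝ)/R) := by
    calc 2*(8*(K*a)*S/R)+2 = 16*(K*a)*((S:ℝ)/R) + 2*1 := by ring
      _ ≤ 16*(K*κ)*((S:ℝ)/R) + 2*(4*((S:ℝ)/R)) := by gcongr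
      _ = _ := by ring
  have hn2 : (n:ℝ)^(2+η) = (n:ℝ)^2 * (n:ℝ)^η := by
    rw [Real.rpow_add hn0]; norm_num
  calc (F.card : ℝ) ≤ Nc * ((2*(64*(K*a))+2)^2*(2*(2*(K*a)*S/n)+2)*(2*(8*(K*a)*S/R)+2)) := hcard
    _ ≤ Nc * ((128*K*κ+2)^2*((4*K*κ+8) * ((S:ℝ)/n))*((16*K*κ+8) * ((S:ℝ)/R))) := by
        have : 0 ≤ Nc := by positivity
        gcongr
    _ = 20 * C1 * K * (48*K*κ+1)^(η/5) * ((128*K*κ+2)^2*(4*K*κ+8)*(16*K*κ+8)) * a
          * ((n:ℝ)^2 * (n:ℝ)^η) := by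
        rw [hNc, hGr]
        field_simp
        ring
    _ = _ := by rw [hn2]

end

end Pool.Agent.HLS72
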