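import Mathlib
import Pool.Agent.LibHLS72.Blk

namespace Pool.Agent.HLS72

open Pool.Agent.Hall72 (tt ee zz)

noncomputable section

lemma log_le {δ : ℝ} (hδ : 0 < δ) : ∃ c : ℝ, 0 < c ∧ ∀ m : ℕ, 1 ≤ m →
    ((Nat.log 2 m : ℕ) : ℝ) + 1 ≤ c * (m:ℝ)^δ := by
  refine ⟨1 / (δ * Real.log 2) + 1, by have := Real.log_pos one_lt_two; positivity, ?_⟩
  intro m hm
  have hmR : (1:ℝ) ≤ m := by exact_mod_cast hm
  have hl2 := Real.log_pos one_lt_two
  have h1 := Real.natLog_le_logb m 2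
  have h2 : Real.logb 2 m ≤ (1 / (δ * Real.log 2)) * (m:ℝ)^δ := by
    unfold Real.logb
    rw [div_le_iff₀ hl2]
    have h3 := Real.log_le_rpow_div (x := (m:ℝ)) (by linarith) hδ
    calc Real.log m ≤ (m:ℝ)^δ / δ := h3
      _ = (1 / (δ * Real.log 2)) * (m:ℝ)^δ * Real.log 2 := by field_simp
  have h4 : (1:ℝ) ≤ (m:ℝ)^δ := Real.one_le_rpow hmR hδ.le
  push_cast at h1
  linarith

theorem block_bound (D κ η : ℝ) (hD : 0 ≤ D) (hκ : 0 ≤ κ) (hη : 0 < η) :
    ∃ C : ℝ, 0 < C ∧ ∀ (n : ℕ) (a : ℝ), 1 ≤ n → a ≤ κ → 1 ≤ 4 * a * n →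
      ∀ F : Finset (ℤ × ℤ × ℤ), (∀ P ∈ F, Good D a n P) →
        (F.card : ℝ) ≤ C * a * (n:ℝ)^(2+η) := by
  classical
  set K : ℝ := 1000 + 100 * D with hK
  have hK1 : 1 ≤ K := by rw [hK]; linarith
  obtain ⟨C1, hC1, h1⟩ := block1 hK1 hκ (η := η/2) (by positivity)
  obtain ⟨C2, hC2, h2⟩ := block2 hK1 hκ (η := η/2) (by positivity)
  obtain ⟨c, hc, hlog⟩ := log_le (δ := η/8) (by positivity)
  refine ⟨(C1 + C2) * (c * (1 + c * 2^(η/8))), by positivity, ?_⟩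
  intro n a hn haκ ha F hF
  have hnR : (1:ℝ) ≤ n := by exact_mod_cast hn
  have hn0 : (0:ℝ) < n := by linarith
  have ha0 : 0 < a := by
    by_contra h
    push Not at h
    have : a * n ≤ 0 := mul_nonpos_of_nonpos_of_nonneg h hn0.le
    linarith
  set L := Nat.log 2 n + 1 with hL
  set L' := Nat.log 2 (2*n^2) + 1 with hL'
  set F1 : ℕ → Finset (ℤ × ℤ × ℤ) := fun j => F.filter (fun P => ∃ p q r s : ℤ,
    ((2^j:ℕ):ℤ) ≤ q ∧ q < 2 * ((2^j:ℕ):ℤ) ∧ q ≤ n ∧ p*s - r*q = 1 ∧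
    g0 P.1 P.2.1 (mm P.1 P.2.2) p q ≠ 0 ∧ Case1 K a n P p q r s) with hF1
  set F2 : ℕ → ℕ → Finset (ℤ × ℤ × ℤ) := fun j k => F.filter (fun P => ∃ p q r s : ℤ,
    ((2^j:ℕ):ℤ) ≤ q ∧ q < 2 * ((2^j:ℕ):ℤ) ∧ ((2^k:ℕ):ℤ) ≤ |s| ∧ |s| < 2 * ((2^k:ℕ):ℤ) ∧
    p*s - r*q = 1 ∧ g0 P.1 P.2.1 (mm P.1 P.2.2) p q ≠ 0 ∧ Case2 K a n P p q r s) with hF2
  have hcov : F ⊆ ((Finset.range L).biUnion F1) ∪
      ((Finset.range L).biUnion (fun j => (Finset.range L').biUnion (F2 j))) := by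
    intro P hP
    obtain ⟨p, q, r, s, hq1, hqn, hdet, hg, hcase⟩ := split hn ha (hF P hP)
    -- position of q
    have hq0 : 0 < q := by omega
    set j := Nat.log 2 q.toNat with hj
    have hqt : (q.toNat : ℤ) = q := Int.toNat_of_nonneg hq0.le
    have hqt0 : q.toNat ≠ 0 := by omega
    have hj1 : 2^j ≤ q.toNat := Nat.pow_log_le_self 2 hqt0
    have hj2 : q.toNat < 2^(j+1) := Nat.lt_pow_succ_log_self (by norm_num) _
    have hqnn : q.toNat ≤ n := by omega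
    have hjL : j < L := by
      rw [hL, Nat.lt_succ_iff]
      exact Nat.log_mono_right hqnn
    have hj1' : ((2^j:ℕ):ℤ) ≤ q := by
      rw [← hqt]; exact_mod_cast hj1
    have hj2' : q < 2 * ((2^j:ℕ):ℤ) := by
      rw [← hqt]
      have : q.toNat < 2 * 2^j := by rw [pow_succ] at hj2; omega
      exact_mod_cast this
    rw [Finset.mem_union]
    rcases hcase with hcase | hcase
    · left
      rw [Finset.mem_biUnion]
      refine ⟨j, Finset.mem_range.mpr hjL, ?_⟩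
      rw [hF1, Finset.mem_filter]
      exact ⟨hP, p, q, r, s, hj1', hj2', hqn, hdet, hg, hcase⟩
    · right
      rw [Finset.mem_biUnion]
      refine ⟨j, Finset.mem_range.mpr hjL, ?_⟩
      rw [Finset.mem_biUnion]
      set k := Nat.log 2 s.natAbs with hk
      have hs0 : s.natAbs ≠ 0 := by
        intro h0
        obtain ⟨h3, _⟩ := hcase
        have : s = 0 := Int.natAbs_eq_zero.mp h0
        rw [this] at h3
        norm_num at h3
        linarith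
      have hk1 : 2^k ≤ s.natAbs := Nat.pow_log_le_self 2 hs0
      have hk2 : s.natAbs < 2^(k+1) := Nat.lt_pow_succ_log_self (by norm_num) _
      have habs : (s.natAbs : ℤ) = |s| := Int.natCast_natAbs s
      have hsn : s.natAbs ≤ 2 * n^2 := by
        obtain ⟨_, h3, _⟩ := hcase
        have h4 : ((s.natAbs : ℕ) : ℝ) = |(s:ℝ)| := by
          rw [Nat.cast_natAbs]; push_cast; rfl
        have h5 : (1:ℝ) ≤ q := by exact_mod_cast hq1
        have h6 : |(s:ℝ)| ≤ (q:ℝ) * |(s:ℝ)| := by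
          nlinarith [abs_nonneg (s:ℝ)]
        have h7 : ((s.natAbs : ℕ) : ℝ) ≤ ((2 * n^2 : ℕ) : ℝ) := by
          rw [h4]; push_cast; nlinarith
        exact_mod_cast h7
      have hkL : k < L' := by
        rw [hL', Nat.lt_succ_iff]
        exact Nat.log_mono_right hsn
      refine ⟨k, Finset.mem_range.mpr hkL, ?_⟩
      rw [hF2, Finset.mem_filter]
      refine ⟨hP, p, q, r, s, hj1', hj2', ?_, ?_, hdet, hg, hcase⟩
      · rw [← habs]; exact_mod_cast hk1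
      · rw [← habs]
        have : s.natAbs < 2 * 2^k := by rw [pow_succ] at hk2; omega
        exact_mod_cast this
  have hpowle : ∀ j ∈ Finset.range L, 2^j ≤ n := by
    intro j hj
    rw [Finset.mem_range, hL, Nat.lt_succ_iff] at hj
    exact (Nat.pow_le_pow_right (by norm_num) hj).trans (Nat.pow_log_le_self 2 (by omega))
  have hE0 : 0 ≤ a * (n:ℝ)^(2+η/2) := by positivity
  have b1 : ∀ j ∈ Finset.range L, ((F1 j).card : ℝ) ≤ C1 * a * (n:ℝ)^(2+η/2) := by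
    intro j hj
    refine h1 n (2^j) a (Nat.one_le_two_pow) (hpowle j hj) ha0 haκ (F1 j) ?_
    intro P hP
    rw [hF1, Finset.mem_filter] at hP
    exact ⟨(hF P hP.1).pos, hP.2⟩
  have b2 : ∀ j ∈ Finset.range L, ∀ k ∈ Finset.range L',
      ((F2 j k).card : ℝ) ≤ C2 * a * (n:ℝ)^(2+η/2) := by
    intro j hj k hk
    refine h2 n (2^j) (2^k) a (Nat.one_le_two_pow) (hpowle j hj) (Nat.one_le_two_pow) ha0 haκ
      (F2 j k) ?_
    intro P hP
    rw [hF2, Finset.mem_filter] at hP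
    exact ⟨(hF P hP.1).pos, hP.2⟩
  have hcard : (F.card : ℝ) ≤ (∑ j ∈ Finset.range L, ((F1 j).card : ℝ)) +
      ∑ j ∈ Finset.range L, ∑ k ∈ Finset.range L', ((F2 j k).card : ℝ) := by
    have e1 := Finset.card_le_card hcov
    have e2 := Finset.card_union_le ((Finset.range L).biUnion F1)
      ((Finset.range L).biUnion (fun j => (Finset.range L').biUnion (F2 j)))
    have e3 : ((Finset.range L).biUnion F1).card ≤ ∑ j ∈ Finset.range L, (F1 j).card :=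
      Finset.card_biUnion_le
    have e4 : ((Finset.range L).biUnion (fun j => (Finset.range L').biUnion (F2 j))).card ≤
        ∑ j ∈ Finset.range L, ∑ k ∈ Finset.range L', (F2 j k).card := by
      refine Finset.card_biUnion_le.trans (Finset.sum_le_sum fun j _ => Finset.card_biUnion_le)
    have e5 : F.card ≤ (∑ j ∈ Finset.range L, (F1 j).card) +
        ∑ j ∈ Finset.range L, ∑ k ∈ Finset.range L', (F2 j k).card := by omega
    exact_mod_cast e5
  have hLc : (L:ℝ) ≤ c * (n:ℝ)^(η/8) := by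
    have := hlog n hn
    rw [hL]; push_cast; exact this
  have hLc' : (L':ℝ) ≤ c * 2^(η/8) * (n:ℝ)^(η/4) := by
    have h3 := hlog (2*n^2) (by nlinarith [Nat.one_le_pow 2 n hn])
    have h4 : (((2*n^2:ℕ):ℝ))^(η/8) = 2^(η/8) * (n:ℝ)^(η/4) := by
      push_cast
      rw [Real.mul_rpow (by norm_num) (by positivity), ← Real.rpow_natCast (n:ℝ) 2,
        ← Real.rpow_mul hn0.le]
      congr 2
      push_cast; ring
    rw [h4] at h3
    rw [hL']; push_cast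
    push_cast at h3
    linarith
  have hs1 : (∑ j ∈ Finset.range L, ((F1 j).card : ℝ)) ≤ L * (C1 * (a * (n:ℝ)^(2+η/2))) := by
    calc (∑ j ∈ Finset.range L, ((F1 j).card : ℝ))
        ≤ ∑ j ∈ Finset.range L, C1 * (a * (n:ℝ)^(2+η/2)) :=
          Finset.sum_le_sum (fun j hj => by rw [← mul_assoc]; exact b1 j hj)
      _ = L * (C1 * (a * (n:ℝ)^(2+η/2))) := by
          rw [Finset.sum_const, Finset.card_range, nsmul_eq_mul]
  have hs2 : (∑ j ∈ Finset.range L, ∑ k ∈ Finset.range L', ((F2 j k).card : ℝ))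
      ≤ L * (L' * (C2 * (a * (n:ℝ)^(2+η/2)))) := by
    calc (∑ j ∈ Finset.range L, ∑ k ∈ Finset.range L', ((F2 j k).card : ℝ))
        ≤ ∑ j ∈ Finset.range L, ∑ k ∈ Finset.range L', C2 * (a * (n:ℝ)^(2+η/2)) :=
          Finset.sum_le_sum (fun j hj => Finset.sum_le_sum (fun k hk => by
            rw [← mul_assoc]; exact b2 j hj k hk))
      _ = L * (L' * (C2 * (a * (n:ℝ)^(2+η/2)))) := by
          rw [Finset.sum_const, Finset.sum_const, Finset.card_range, Finset.card_range,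
            nsmul_eq_mul, nsmul_eq_mul]
  have hLL : (L:ℝ) * (1 + L') ≤ (c * (1 + c * 2^(η/8))) * (n:ℝ)^(η/2) := by
    have h5 : (1:ℝ) ≤ (n:ℝ)^(η/4) := Real.one_le_rpow hnR (by positivity)
    have h6 : 1 + (L':ℝ) ≤ (1 + c * 2^(η/8)) * (n:ℝ)^(η/4) := by
      calc 1 + (L':ℝ) ≤ (n:ℝ)^(η/4) + c * 2^(η/8) * (n:ℝ)^(η/4) := by gcongr
        _ = _ := by ring
    calc (L:ℝ) * (1 + L') ≤ (c * (n:ℝ)^(η/8)) * ((1 + c * 2^(η/8)) * (n:ℝ)^(η/4)) := by gcongr
      _ = (c * (1 + c * 2^(η/8))) * ((n:ℝ)^(η/8) * (n:ℝ)^(η/4)) := by ring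
      _ = (c * (1 + c * 2^(η/8))) * (n:ℝ)^(η/8 + η/4) := by rw [Real.rpow_add hn0]
      _ ≤ (c * (1 + c * 2^(η/8))) * (n:ℝ)^(η/2) := by
          have : η/8 + η/4 ≤ η/2 := by linarith
          gcongr
  have hnn : (n:ℝ)^(η/2) * (n:ℝ)^(2+η/2) = (n:ℝ)^(2+η) := by
    rw [← Real.rpow_add hn0]; congr 1; ring
  have hL0 : (0:ℝ) ≤ L := by positivity
  have hL'0 : (0:ℝ) ≤ L' := by positivity
  calc (F.card : ℝ) ≤ L * (C1 * (a * (n:ℝ)^(2+η/2))) + L * (L' * (C2 * (a * (n:ℝ)^(2+η/2)))) := by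
        linarith
    _ ≤ L * ((C1 + C2) * (a * (n:ℝ)^(2+η/2))) + L * (L' * ((C1 + C2) * (a * (n:ℝ)^(2+η/2)))) := by
        gcongr <;> linarith
    _ = (L * (1 + L')) * ((C1 + C2) * (a * (n:ℝ)^(2+η/2))) := by ring
    _ ≤ ((c * (1 + c * 2^(η/8))) * (n:ℝ)^(η/2)) * ((C1 + C2) * (a * (n:ℝ)^(2+η/2))) := by gcongr
    _ = (C1 + C2) * (c * (1 + c * 2^(η/8))) * a * ((n:ℝ)^(η/2) * (n:ℝ)^(2+η/2)) := by ring
    _ = _ := by rw [hnn]

end

end Pool.Agent.HLS72
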