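import Pool.Agent.LibHLS72.Split
import Pool.Agent.Hall79X.X3

/-!
# Points of a block are good points
-/

namespace Pool.Agent.HLS72

open Pool.Agent.Hall72 (tt ee zz)

noncomputable section

/-- elementary facts on `n = ⌈√(T/h)⌉₊` -/
private lemma Y1_facts {c T h : ℝ} (hT4 : 4 ≤ T) (hTc : |c| ≤ T) (hh : 1 ≤ h)
    (hc : h^3 ≤ c * T) :
    1 ≤ ⌈√(T/h)⌉₊ ∧ T ≤ h * (⌈√(T/h)⌉₊:ℝ)^2 ∧ h * (⌈√(T/h)⌉₊:ℝ)^2 ≤ 4 * T ∧ h ≤ T := by
  have hT0 : 0 < T := by linarith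
  have hh0 : 0 < h := by linarith
  have hcT : h^3 ≤ T^2 := by nlinarith [le_abs_self c]
  have hhT : h ≤ T := by
    by_contra hcon
    push Not at hcon
    have h1 : T^3 < h^3 := by
      apply pow_lt_pow_left₀ hcon hT0.le (by norm_num)
    nlinarith [sq_nonneg T]
  have hTh : 1 ≤ T / h := by rw [le_div_iff₀ hh0]; linarith
  have hs1 : 1 ≤ √(T/h) := Real.one_le_sqrt.mpr hTh
  have hsq : √(T/h)^2 = T/h := Real.sq_sqrt (by positivity)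
  have hn1 : √(T/h) ≤ (⌈√(T/h)⌉₊:ℝ) := Nat.le_ceil _
  have hn2 : (⌈√(T/h)⌉₊:ℝ) < √(T/h) + 1 := Nat.ceil_lt_add_one (by linarith)
  have hn3 : (⌈√(T/h)⌉₊:ℝ) ≤ 2 * √(T/h) := by linarith
  refine ⟨?_, ?_, ?_, hhT⟩
  · rw [Nat.one_le_ceil_iff]; linarith
  · have h1 : T / h ≤ (⌈√(T/h)⌉₊:ℝ)^2 := by
      calc T / h = √(T/h)^2 := hsq.symm
        _ ≤ (⌈√(T/h)⌉₊:ℝ)^2 := pow_le_pow_left₀ (by linarith) hn1 2
    have h2 : h * (T / h) ≤ h * (⌈√(T/h)⌉₊:ℝ)^2 := mul_le_mul_of_nonneg_left h1 hh0.le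
    have h3 : h * (T / h) = T := by field_simp
    linarith
  · have h1 : (⌈√(T/h)⌉₊:ℝ)^2 ≤ 4 * (T/h) := by
      calc (⌈√(T/h)⌉₊:ℝ)^2 ≤ (2 * √(T/h))^2 := pow_le_pow_left₀ (by positivity) hn3 2
        _ = 4 * (T/h) := by rw [mul_pow, hsq]; norm_num
    have h2 : h * (⌈√(T/h)⌉₊:ℝ)^2 ≤ h * (4 * (T/h)) := mul_le_mul_of_nonneg_left h1 hh0.le
    have h3 : h * (4 * (T / h)) = 4 * T := by field_simp
    linarith

theorem params (c : ℝ) : ∃ κ T0 : ℝ, 0 ≤ κ ∧ ∀ T h : ℝ, T0 ≤ T → 1 ≤ h → h^3 ≤ c * T →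
    1 ≤ ⌈√(T/h)⌉₊ ∧ T / (⌈√(T/h)⌉₊:ℝ)^3 ≤ κ ∧ 1 ≤ 4 * (T / (⌈√(T/h)⌉₊:ℝ)^3) * ⌈√(T/h)⌉₊ ∧
    (T / (⌈√(T/h)⌉₊:ℝ)^3) * (⌈√(T/h)⌉₊:ℝ)^2 ≤ √(T*h) ∧ (⌈√(T/h)⌉₊:ℝ) ≤ T := by
  refine ⟨√|c|, max 4 |c|, Real.sqrt_nonneg _, ?_⟩
  intro T h hT hh hc
  have hT4 : 4 ≤ T := (le_max_left _ _).trans hT
  have hTc : |c| ≤ T := (le_max_right _ _).trans hT
  have hT0 : 0 < T := by linarith
  have hh0 : 0 < h := by linarith
  obtain ⟨h1, h2, h3, h4⟩ := Y1_facts hT4 hTc hh hc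
  set n : ℝ := (⌈√(T/h)⌉₊:ℝ) with hn
  have hn1 : (1:ℝ) ≤ n := by rw [hn]; exact_mod_cast h1
  have hn0 : 0 < n := by linarith
  refine ⟨h1, ?_, ?_, ?_, ?_⟩
  · apply Real.le_sqrt_of_sq_le
    rw [div_pow, div_le_iff₀ (by positivity)]
    -- T^2 ≤ |c| n^6
    have e1 : T^3 ≤ (h * n^2)^3 := pow_le_pow_left₀ hT0.le h2 3
    have e2 : h^3 ≤ |c| * T := hc.trans (mul_le_mul_of_nonneg_right (le_abs_self c) hT0.le)
    have e3 : T * T^2 ≤ T * (|c| * (n^3)^2) := by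
      calc T * T^2 = T^3 := by ring
        _ ≤ (h * n^2)^3 := e1
        _ = h^3 * (n^3)^2 := by ring
        _ ≤ (|c| * T) * (n^3)^2 := by gcongr
        _ = T * (|c| * (n^3)^2) := by ring
    exact le_of_mul_le_mul_left e3 hT0
  · have e1 : 4 * (T / n^3) * n = 4 * T / n^2 := by field_simp
    rw [e1, le_div_iff₀ (by positivity)]
    nlinarith [sq_nonneg n]
  · apply Real.le_sqrt_of_sq_le
    have e1 : (T / n^3) * n^2 = T / n := by field_simp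
    rw [e1, div_pow, div_le_iff₀ (by positivity)]
    nlinarith
  · have e1 : n^2 ≤ T^2 := by nlinarith [sq_nonneg n]
    exact le_of_sq_le_sq e1 hT0.le

theorem good_of (c : ℝ) : ∃ D κ T0 : ℝ, 0 ≤ D ∧ 0 ≤ κ ∧ ∀ T h : ℝ, T0 ≤ T → 1 ≤ h → h^3 ≤ c * T →
    ∀ x y A B : ℤ, T^2 ≤ x → (x:ℝ) < 4 * T^2 → 0 ≤ y → y^2 = x^3 + A*x + B →
      4*A^3 + 27*B^2 ≠ 0 → |(A:ℝ)| ≤ h^2 → |(B:ℝ)| ≤ h^3 →
      Good D (T / (⌈√(T/h)⌉₊:ℝ)^3) ⌈√(T/h)⌉₊ (x, y, A) := by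
  obtain ⟨T1, hroot⟩ := Pool.Agent.LibHall79.root_ne (c^2)
  refine ⟨1024, 0, max T1 (max 4 |c|), by norm_num, le_refl 0, ?_⟩
  intro T h hT hh hc x y A B hx1 hx2 hy hxy hdisc hA hB
  have hT1 : T1 ≤ T := (le_max_left _ _).trans hT
  have hT4 : 4 ≤ T := ((le_max_left _ _).trans (le_max_right _ _)).trans hT
  have hTc : |c| ≤ T := ((le_max_right _ _).trans (le_max_right _ _)).trans hT
  have hT0 : 0 < T := by linarith
  have hh0 : 0 < h := by linarith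
  obtain ⟨h1, h2, h3, h4⟩ := Y1_facts hT4 hTc hh hc
  set N : ℕ := ⌈√(T/h)⌉₊ with hN
  set n : ℝ := (N:ℝ) with hn
  have hn1 : (1:ℝ) ≤ n := by rw [hn]; exact_mod_cast h1
  have hn0 : 0 < n := by linarith
  have hxpos : (0:ℝ) < x := lt_of_lt_of_le (by positivity) hx1
  have hxposZ : 0 < x := by exact_mod_cast hxpos
  set t : ℝ := √(x:ℝ) with ht
  have ht2 : t^2 = x := Real.sq_sqrt hxpos.le
  have htT : T ≤ t := Real.le_sqrt_of_sq_le hx1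
  have ht2T : t ≤ 2 * T := by
    rw [ht]; apply Real.sqrt_le_iff.mpr ⟨by linarith, by nlinarith⟩
  have ht0 : 0 < t := by linarith
  have hyR : (0:ℝ) ≤ y := by exact_mod_cast hy
  have hxyR : (y:ℝ)^2 = (x:ℝ)^3 + A*x + B := by exact_mod_cast hxy
  set e : ℝ := (y:ℝ) - t^3 with he
  have hee : e * (y + t^3) = A * t^2 + B := by
    rw [he]
    have : ((y:ℝ) - t^3) * (y + t^3) = (y:ℝ)^2 - (t^2)^3 := by ring
    rw [this, hxyR, ht2]; ring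
  have hst : t^3 ≤ (y:ℝ) + t^3 := by linarith
  have ht3 : 0 < t^3 := by positivity
  have hT3 : T^3 ≤ t^3 := pow_le_pow_left₀ hT0.le htT 3
  -- bound for e
  have hE : |e| * T ≤ 2 * h^2 := by
    have e1 : |e| * t^3 ≤ |e| * (y + t^3) := mul_le_mul_of_nonneg_left hst (abs_nonneg _)
    have e2 : |e| * (y + t^3) = |A * t^2 + B| := by
      rw [← hee, abs_mul, abs_of_pos (by linarith : (0:ℝ) < y + t^3)]
    have e3 : |(A:ℝ) * t^2 + B| ≤ h^2 * t^2 + h^3 := by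
      calc |(A:ℝ) * t^2 + B| ≤ |(A:ℝ) * t^2| + |(B:ℝ)| := abs_add_le _ _
        _ = |(A:ℝ)| * t^2 + |(B:ℝ)| := by rw [abs_mul, abs_of_pos (by positivity : (0:ℝ) < t^2)]
        _ ≤ h^2 * t^2 + h^3 := by gcongr
    have e4 : h^3 ≤ h^2 * t^2 := by
      have : h ≤ t^2 := by nlinarith
      calc h^3 = h^2 * h := by ring
        _ ≤ h^2 * t^2 := by gcongr
    have e5 : t^2 * (|e| * t) ≤ t^2 * (2 * h^2) := by
      calc t^2 * (|e| * t) = |e| * t^3 := by ring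
        _ ≤ h^2 * t^2 + h^3 := by linarith
        _ ≤ t^2 * (2 * h^2) := by linarith
    have e6 : |e| * t ≤ 2 * h^2 := le_of_mul_le_mul_left e5 (by positivity)
    calc |e| * T ≤ |e| * t := by gcongr
      _ ≤ 2 * h^2 := e6
  -- bound for f
  set f : ℝ := 8 * e * t - 4 * A with hf
  have hff : f * (y + t^3) = 8 * t * B - 4 * A * e := by
    have : f * (y + t^3) = 8 * t * (e * (y + t^3)) - 4 * A * (y + t^3) := by rw [hf]; ring
    rw [this, hee]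
    have : (y:ℝ) + t^3 = 2 * t^3 + e := by rw [he]; ring
    rw [this]; ring
  have hF : |f| * T^2 ≤ 16 * h^3 := by
    have e1 : |f| * t^3 ≤ |f| * (y + t^3) := mul_le_mul_of_nonneg_left hst (abs_nonneg _)
    have e2 : |f| * (y + t^3) = |8 * t * B - 4 * A * e| := by
      rw [← hff, abs_mul, abs_of_pos (by linarith : (0:ℝ) < y + t^3)]
    have e3 : |8 * t * (B:ℝ) - 4 * A * e| ≤ 8 * t * h^3 + 4 * h^2 * |e| := by
      calc |8 * t * (B:ℝ) - 4 * A * e| ≤ |8 * t * (B:ℝ)| + |4 * (A:ℝ) * e| := abs_sub _ _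
        _ = 8 * t * |(B:ℝ)| + 4 * |(A:ℝ)| * |e| := by
            rw [abs_mul, abs_mul (4 * (A:ℝ)), abs_mul 4 (A:ℝ),
              abs_of_pos (by positivity : (0:ℝ) < 8 * t), abs_of_pos (by norm_num : (0:ℝ) < 4)]
        _ ≤ 8 * t * h^3 + 4 * h^2 * |e| := by gcongr
    -- 4 h^2 |e| ≤ 8 h^4 / T ≤ 8 t h^3
    have e4 : 4 * h^2 * |e| ≤ 8 * t * h^3 := by
      have k1 : T * (4 * h^2 * |e|) ≤ T * (8 * t * h^3) := by
        calc T * (4 * h^2 * |e|) = 4 * h^2 * (|e| * T) := by ring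
          _ ≤ 4 * h^2 * (2 * h^2) := by gcongr
          _ = 8 * h^3 * h := by ring
          _ ≤ 8 * h^3 * (T * t) := by
              have : h ≤ T * t := by nlinarith
              gcongr
          _ = T * (8 * t * h^3) := by ring
      exact le_of_mul_le_mul_left k1 hT0
    have e5 : t * (|f| * t^2) ≤ t * (16 * h^3) := by
      calc t * (|f| * t^2) = |f| * t^3 := by ring
        _ ≤ 8 * t * h^3 + 4 * h^2 * |e| := by linarith
        _ ≤ t * (16 * h^3) := by linarith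
    have e6 : |f| * t^2 ≤ 16 * h^3 := le_of_mul_le_mul_left e5 ht0
    calc |f| * T^2 ≤ |f| * t^2 := by gcongr
      _ ≤ 16 * h^3 := e6
  have hn3 : 0 < n^3 := by positivity
  refine ⟨hxposZ, ?_, ?_, ?_, ?_⟩
  · show t ≤ 2 * (T / n^3) * n^3
    have : 2 * (T / n^3) * n^3 = 2 * T := by field_simp
    rw [this]; exact ht2T
  · show |e| * n ≤ 1024 * (T / n^3)
    have : 1024 * (T / n^3) = (1024 * T) / n^3 := by ring
    rw [this, le_div_iff₀ hn3]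
    -- |e| n^4 ≤ 1024 T
    have k1 : (h * n^2)^2 ≤ (4 * T)^2 := pow_le_pow_left₀ (by positivity) h3 2
    have k2 : T * (|e| * n * n^3) ≤ T * (1024 * T) := by
      calc T * (|e| * n * n^3) = (|e| * T) * n^4 := by ring
        _ ≤ (2 * h^2) * n^4 := by gcongr
        _ = 2 * (h * n^2)^2 := by ring
        _ ≤ 2 * (4 * T)^2 := by gcongr
        _ ≤ T * (1024 * T) := by nlinarith [sq_nonneg T]
    exact le_of_mul_le_mul_left k2 hT0
  · show |f| * n^3 ≤ 1024 * (T / n^3)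
    have : 1024 * (T / n^3) = (1024 * T) / n^3 := by ring
    rw [this, le_div_iff₀ hn3]
    have k1 : (h * n^2)^3 ≤ (4 * T)^3 := pow_le_pow_left₀ (by positivity) h3 3
    have k2 : T^2 * (|f| * n^3 * n^3) ≤ T^2 * (1024 * T) := by
      calc T^2 * (|f| * n^3 * n^3) = (|f| * T^2) * n^6 := by ring
        _ ≤ (16 * h^3) * n^6 := by gcongr
        _ = 16 * (h * n^2)^3 := by ring
        _ ≤ 16 * (4 * T)^3 := by gcongr
        _ = T^2 * (1024 * T) := by ring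
    exact le_of_mul_le_mul_left k2 (by positivity)
  · intro p hp
    have hp' : |(p:ℝ) - √(x:ℝ)| ≤ 1 := by
      have : zz x p 1 = (p:ℝ) - √(x:ℝ) := by
        unfold zz tt; push_cast; ring
      rw [← this]; exact hp
    have hh6 : (h^3)^2 ≤ c^2 * x := by
      calc (h^3)^2 ≤ (c * T)^2 := pow_le_pow_left₀ (by positivity) hc 2
        _ = c^2 * T^2 := by ring
        _ ≤ c^2 * x := by gcongr
    have hA3 : |(A:ℝ)|^3 ≤ c^2 * x := by
      calc |(A:ℝ)|^3 ≤ (h^2)^3 := pow_le_pow_left₀ (abs_nonneg _) hA 3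
        _ = (h^3)^2 := by ring
        _ ≤ c^2 * x := hh6
    have hB2 : (B:ℝ)^2 ≤ c^2 * x := by
      calc (B:ℝ)^2 = |(B:ℝ)|^2 := (sq_abs _).symm
        _ ≤ (h^3)^2 := pow_le_pow_left₀ (abs_nonneg _) hB 2
        _ ≤ c^2 * x := hh6
    have key := hroot x y A B p hxposZ hy hxy hdisc hA3 hB2 hp' (hT1.trans htT)
    intro h0
    apply key
    have : g0 x y (mm x A) p 1 = p^4 - 6*x*p^2 + 8*y*p - 3*x^2 - 4*A := by
      unfold g0 mm; ring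
    rw [← this]; exact h0

end

end Pool.Agent.HLS72
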