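import Mathlib
import Pool.Agent.LibHLS72.Block
import Pool.Agent.LibHLS72.Y1

namespace Pool.Agent.HLS72

open Pool.Agent.Hall72 (tt ee zz)

noncomputable section

theorem block_count (c θ η : ℝ) (hθ0 : 0 ≤ θ) (hθ1 : θ ≤ 1) (hη : 0 < η) :
    ∃ C T0 : ℝ, 0 < C ∧ 1 ≤ T0 ∧ ∀ T : ℝ, T0 ≤ T → ∀ F : Finset (ℤ × ℤ × ℤ × ℤ),
      (∀ P ∈ F, 4 * P.1^3 + 27 * P.2.1^2 ≠ 0 ∧
        P.2.2.2^2 = P.2.2.1^3 + P.1 * P.2.2.1 + P.2.1 ∧ T^2 ≤ (P.2.2.1:ℝ) ∧
        (P.2.2.1:ℝ) < 4 * T^2 ∧ |(P.1:ℝ)|^3 ≤ c * T^(2*θ) ∧ (P.2.1:ℝ)^2 ≤ c * T^(2*θ)) →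
      (F.card : ℝ) ≤ C * T^(1/2 + θ/6 + η) := by
  classical
  set c' : ℝ := max c 1 with hc'
  have hc1 : 1 ≤ c' := le_max_right _ _
  have hcc : c ≤ c' := le_max_left _ _
  obtain ⟨D, κ1, T1, hD, _, hgood⟩ := good_of (√c')
  obtain ⟨κ, T2, hκ, hpar⟩ := params (√c')
  obtain ⟨C, hC, hblk⟩ := block_bound D κ η hD hκ hη
  refine ⟨2 * (C * c'^((1:ℝ)/12)), max 1 (max T1 T2), by positivity, le_max_left _ _, ?_⟩
  intro T hT F hF
  have hT1 : 1 ≤ T := (le_max_left _ _).trans hT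
  have hTT1 : T1 ≤ T := ((le_max_left _ _).trans (le_max_right _ _)).trans hT
  have hTT2 : T2 ≤ T := ((le_max_right _ _).trans (le_max_right _ _)).trans hT
  have hT0 : 0 < T := by linarith
  set h : ℝ := (c' * T^(2*θ))^((1:ℝ)/6) with hh
  have hTθ : 1 ≤ T^(2*θ) := Real.one_le_rpow hT1 (by positivity)
  have hbase : 1 ≤ c' * T^(2*θ) := by nlinarith
  have hbase0 : 0 ≤ c' * T^(2*θ) := by linarith
  have hh1 : 1 ≤ h := Real.one_le_rpow hbase (by norm_num)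
  have hh0 : 0 < h := by linarith
  have hh6 : h^6 = c' * T^(2*θ) := by
    rw [hh, ← Real.rpow_natCast, ← Real.rpow_mul hbase0]; norm_num
  have hh3 : h^3 ≤ √c' * T := by
    have e1 : (h^3)^2 ≤ (√c' * T)^2 := by
      calc (h^3)^2 = h^6 := by ring
        _ = c' * T^(2*θ) := hh6
        _ ≤ c' * T^(2:ℝ) := by
            gcongr
            linarith
        _ = (√c' * T)^2 := by
            rw [mul_pow, Real.sq_sqrt (by linarith)]; norm_num
    exact le_of_sq_le_sq e1 (by positivity)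
  obtain ⟨p1, p2, p3, p4, p5⟩ := hpar T h hTT2 hh1 hh3
  set n : ℕ := ⌈√(T/h)⌉₊ with hn
  set a : ℝ := T / (n:ℝ)^3 with ha
  set φ : ℤ × ℤ × ℤ × ℤ → ℤ × ℤ × ℤ := fun P => (P.2.2.1, |P.2.2.2|, P.1) with hφ
  have hF' : ∀ Q ∈ F.image φ, Good D a n Q := by
    intro Q hQ
    rw [Finset.mem_image] at hQ
    obtain ⟨P, hP, rfl⟩ := hQ
    obtain ⟨g1, g2, g3, g4, g5, g6⟩ := hF P hP
    refine hgood T h hTT1 hh1 hh3 P.2.2.1 |P.2.2.2| P.1 P.2.1 g3 g4 (abs_nonneg _) ?_ g1 ?_ ?_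
    · rw [sq_abs]; exact g2
    · have e1 : |(P.1:ℝ)|^3 ≤ (h^2)^3 := by
        calc |(P.1:ℝ)|^3 ≤ c * T^(2*θ) := g5
          _ ≤ c' * T^(2*θ) := by gcongr
          _ = (h^2)^3 := by rw [← hh6]; ring
      exact le_of_pow_le_pow_left₀ (by norm_num) (by positivity) e1
    · have e1 : |(P.2.1:ℝ)|^2 ≤ (h^3)^2 := by
        calc |(P.2.1:ℝ)|^2 = (P.2.1:ℝ)^2 := sq_abs _
          _ ≤ c * T^(2*θ) := g6
          _ ≤ c' * T^(2*θ) := by gcongr
          _ = (h^3)^2 := by rw [← hh6]; ring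
      exact le_of_pow_le_pow_left₀ (by norm_num) (by positivity) e1
  have hcard1 := hblk n a p1 p2 p3 (F.image φ) hF'
  have hcard2 : F.card ≤ (F.image φ).card * 2 := by
    have hmaps : ∀ P ∈ F, (φ P, decide (0 ≤ P.2.2.2)) ∈ (F.image φ) ×ˢ (Finset.univ : Finset Bool) := by
      intro P hP
      rw [Finset.mem_product]
      exact ⟨Finset.mem_image_of_mem _ hP, Finset.mem_univ _⟩
    have hinj : Set.InjOn (fun P : ℤ × ℤ × ℤ × ℤ => (φ P, decide (0 ≤ P.2.2.2)))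
        (F : Set (ℤ × ℤ × ℤ × ℤ)) := by
      intro P hP P' hP' hPP
      simp only [hφ, Prod.mk.injEq, decide_eq_decide] at hPP
      obtain ⟨⟨e1, e2, e3⟩, e4⟩ := hPP
      have e5 : P.2.2.2 = P'.2.2.2 := by
        rcases le_or_gt 0 P.2.2.2 with hp | hp
        · have hp' := e4.mp hp
          rwa [abs_of_nonneg hp, abs_of_nonneg hp'] at e2
        · have hp' : P'.2.2.2 < 0 := by
            by_contra hcon
            push Not at hcon
            exact absurd (e4.mpr hcon) (not_le.mpr hp)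
          rw [abs_of_neg hp, abs_of_neg hp'] at e2
          linarith
      have g2 := (hF P hP).2.1
      have g2' := (hF P' hP').2.1
      have e6 : P.2.1 = P'.2.1 := by
        rw [e1, e5, e3] at g2
        linarith
      exact Prod.ext e3 (Prod.ext e6 (Prod.ext e1 e5))
    have := Finset.card_le_card_of_injOn _ hmaps hinj
    rwa [Finset.card_product, Finset.card_univ, Fintype.card_bool] at this
  have hcard2R : (F.card : ℝ) ≤ ((F.image φ).card : ℝ) * 2 := by exact_mod_cast hcard2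
  have hn1 : (1:ℝ) ≤ n := by exact_mod_cast p1
  have hn0 : (0:ℝ) < n := by linarith
  have ha0 : 0 ≤ a := by positivity
  have hsq : √(T*h) = c'^((1:ℝ)/12) * T^(1/2 + θ/6) := by
    rw [hh, Real.mul_rpow (by linarith) (by linarith), Real.sqrt_eq_rpow, ← Real.rpow_mul hT0.le]
    rw [Real.mul_rpow hT0.le (by positivity), Real.mul_rpow (by positivity) (by positivity),
      ← Real.rpow_mul (by linarith), ← Real.rpow_mul hT0.le]
    have : (T:ℝ)^((1:ℝ)/2) * ((c':ℝ)^((1:ℝ)/6 * (1/2)) * T^(2*θ*(1/6)*(1/2)))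
        = c'^((1:ℝ)/6 * (1/2)) * (T^((1:ℝ)/2) * T^(2*θ*(1/6)*(1/2))) := by ring
    rw [this, ← Real.rpow_add hT0]
    congr 2
    · norm_num
    · ring
  calc (F.card : ℝ) ≤ ((F.image φ).card : ℝ) * 2 := hcard2R
    _ ≤ (C * a * (n:ℝ)^(2+η)) * 2 := by gcongr
    _ = 2 * (C * ((a * (n:ℝ)^2) * (n:ℝ)^η)) := by
        rw [Real.rpow_add hn0]; norm_num; ring
    _ ≤ 2 * (C * (√(T*h) * T^η)) := by
        gcongr
    _ = 2 * (C * c'^((1:ℝ)/12)) * (T^(1/2 + θ/6) * T^η) := by rw [hsq]; ring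
    _ = _ := by rw [← Real.rpow_add hT0]

end

end Pool.Agent.HLS72
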