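import Mathlib
import Pool.Agent.LibHLS72.Y2

namespace Pool.Agent.HLS72

open Pool.Agent.Hall72 (tt ee zz)

noncomputable section

lemma fin_of_card {α : Type*} {S : Set α} {N : ℝ}
    (h : ∀ F : Finset α, (F : Set α) ⊆ S → (F.card : ℝ) ≤ N) :
    S.Finite ∧ (S.ncard : ℝ) ≤ N := by
  have hfin : S.Finite := by
    by_contra hinf
    obtain ⟨k, hk⟩ := exists_nat_gt N
    obtain ⟨F, hF, hFc⟩ := Set.Infinite.exists_subset_card_eq hinf k
    have := h F hF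
    rw [hFc] at this
    linarith
  refine ⟨hfin, ?_⟩
  have := h hfin.toFinset (by simp)
  rwa [← Set.ncard_eq_toFinset_card S hfin] at this

/-- the elementary inequality behind the size of the curve -/
lemma size_ineq {M K U Z m : ℝ} (hM : 9/2 ≤ M) (hK : 0 < K) (hU : 1 ≤ U) (hZ : 1 ≤ Z)
    (hm : K * Z^(2*M) < m) (hm2 : m^2 ≤ 2*U^3 + Z^2*U + Z^3) :
    Z^(4*M) ≤ (6/K^2 + (max 1 (4/K^2))^(4*M)) * U^3 := by
  have hZ0 : 0 < Z := by linarith
  have hU3 : 1 ≤ U^3 := one_le_pow₀ hU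
  have hK2 : 0 < K^2 := by positivity
  have e1 : K^2 * Z^(4*M) ≤ m^2 := by
    have h1 : 0 ≤ K * Z^(2*M) := by positivity
    have h2 : (K * Z^(2*M))^2 ≤ m^2 := pow_le_pow_left₀ h1 hm.le 2
    have h3 : (K * Z^(2*M))^2 = K^2 * Z^(4*M) := by
      rw [mul_pow, ← Real.rpow_natCast (Z^(2*M)) 2, ← Real.rpow_mul hZ0.le]
      congr 2
      push_cast; ring
    linarith
  have e2 : Z^2*U ≤ Z^3 + U^3 := by
    rcases le_total Z U with h | h
    · have : Z^2 * U ≤ U^2 * U := by gcongr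
      nlinarith [pow_pos hZ0 3]
    · have : Z^2 * U ≤ Z^2 * Z := by gcongr
      nlinarith [pow_pos (by linarith : 0 < U) 3]
  have e3 : K^2 * Z^(4*M) ≤ 3*U^3 + 2*Z^3 := by linarith
  have hmax1 : 1 ≤ max 1 (4/K^2) := le_max_left _ _
  by_cases hc : 2*Z^3 ≤ K^2/2 * Z^(4*M)
  · have e4 : K^2/2 * Z^(4*M) ≤ 3*U^3 := by linarith
    have e5 : Z^(4*M) ≤ 6/K^2 * U^3 := by
      rw [div_mul_eq_mul_div, le_div_iff₀ hK2]
      linarith
    have e6 : 0 ≤ (max 1 (4/K^2))^(4*M) * U^3 := by positivity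
    linarith
  · push Not at hc
    have e4 : Z^(18:ℝ) ≤ Z^(4*M) := Real.rpow_le_rpow_of_exponent_le hZ (by linarith)
    have e5 : Z^(18:ℝ) = Z^15 * Z^3 := by
      rw [← pow_add]; norm_num
    have hZ3 : 0 < Z^3 := by positivity
    have e6 : K^2/2 * Z^15 < 2 := by
      have : K^2/2 * Z^15 * Z^3 < 2 * Z^3 := by
        calc K^2/2 * Z^15 * Z^3 = K^2/2 * Z^(18:ℝ) := by rw [e5]; ring
          _ ≤ K^2/2 * Z^(4*M) := by gcongr
          _ < 2 * Z^3 := hc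
      exact lt_of_mul_lt_mul_right this hZ3.le
    have e7 : Z ≤ Z^15 := le_self_pow₀ hZ (by norm_num)
    have e8 : Z ≤ 4/K^2 := by
      rw [le_div_iff₀ hK2]
      nlinarith
    have e9 : Z^(4*M) ≤ (max 1 (4/K^2))^(4*M) := by
      apply Real.rpow_le_rpow hZ0.le (e8.trans (le_max_right _ _)) (by linarith)
    have e10 : 0 ≤ 6/K^2 * U^3 := by positivity
    have e11 : (max 1 (4/K^2))^(4*M) * 1 ≤ (max 1 (4/K^2))^(4*M) * U^3 := by gcongr
    linarith

/-- negative `x` -/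
lemma size_neg {M K u Z m : ℝ} (hM : 9/2 ≤ M) (hK : 0 < K) (hu : 1 ≤ u) (hZ : 1 ≤ Z)
    (hneg : u^3 ≤ Z^2 * u + Z^3)
    (hm : K * Z^(2*M) < m) (hm2 : m^2 ≤ 2*u^3 + Z^2*u + Z^3) :
    Z ≤ max 1 (19/K^2) ∧ u ≤ 2 * Z := by
  have hZ0 : 0 < Z := by linarith
  have hu2 : u ≤ 2 * Z := by
    by_contra hcon
    push Not at hcon
    have h1 : Z^2 * u * 4 ≤ u^3 := by
      have : (2*Z)^2 ≤ u^2 := by gcongr
      nlinarith
    have h2 : Z^3 * 2 ≤ Z^2 * u := by nlinarith [pow_pos hZ0 2]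
    nlinarith [pow_pos hZ0 3, pow_pos hZ0 2]
  refine ⟨?_, hu2⟩
  have hK2 : 0 < K^2 := by positivity
  have e1 : K^2 * Z^(4*M) ≤ m^2 := by
    have h1 : 0 ≤ K * Z^(2*M) := by positivity
    have h2 : (K * Z^(2*M))^2 ≤ m^2 := pow_le_pow_left₀ h1 hm.le 2
    have h3 : (K * Z^(2*M))^2 = K^2 * Z^(4*M) := by
      rw [mul_pow, ← Real.rpow_natCast (Z^(2*M)) 2, ← Real.rpow_mul hZ0.le]
      congr 2
      push_cast; ring
    linarith
  have e4 : Z^(18:ℝ) ≤ Z^(4*M) := Real.rpow_le_rpow_of_exponent_le hZ (by linarith)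
  have e5 : Z^(18:ℝ) = Z^15 * Z^3 := by
    rw [← pow_add]; norm_num
  have hZ3 : 0 < Z^3 := by positivity
  have e6 : m^2 ≤ 19 * Z^3 := by
    have h1 : u^3 ≤ 8 * Z^3 := by
      calc u^3 ≤ (2*Z)^3 := by gcongr
        _ = 8 * Z^3 := by ring
    have h2 : Z^2 * u ≤ 2 * Z^3 := by nlinarith [pow_pos hZ0 2]
    linarith
  have e7 : K^2 * Z^15 ≤ 19 := by
    have : K^2 * Z^15 * Z^3 ≤ 19 * Z^3 := by
      calc K^2 * Z^15 * Z^3 = K^2 * Z^(18:ℝ) := by rw [e5]; ring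
        _ ≤ K^2 * Z^(4*M) := by gcongr
        _ ≤ 19 * Z^3 := by linarith
    exact le_of_mul_le_mul_right this hZ3
  have e8 : Z ≤ Z^15 := le_self_pow₀ hZ (by norm_num)
  refine le_trans ?_ (le_max_right _ _)
  rw [le_div_iff₀ hK2]
  nlinarith

lemma viol_cases {M K : ℝ} (hM : 9/2 ≤ M) (hK : 0 < K) :
    ∃ c : ℝ, 0 < c ∧ ∀ x0 : ℝ, 1 ≤ x0 → ∃ b : ℕ, ∀ A B x y : ℤ,
      4*A^3 + 27*B^2 ≠ 0 → y^2 = x^3 + A*x + B →
      K * (max (|(A:ℝ)|^3) ((B:ℝ)^2))^(M/3) < max |(x:ℝ)| |(y:ℝ)| →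
      (x0 < x ∧ |(A:ℝ)|^3 ≤ c * (x:ℝ)^(9/(2*M)) ∧ (B:ℝ)^2 ≤ c * (x:ℝ)^(9/(2*M))) ∨
      (|A| ≤ b ∧ |B| ≤ b ∧ |x| ≤ b ∧ |y| ≤ b) := by
  have hM0 : 0 < M := by linarith
  set c' : ℝ := 6/K^2 + (max 1 (4/K^2))^(4*M) with hc'
  have hc'1 : 1 ≤ c' := by
    have h1 : 1 ≤ (max 1 (4/K^2))^(4*M) :=
      Real.one_le_rpow (le_max_left _ _) (by linarith)
    have h2 : 0 ≤ 6/K^2 := by positivity
    rw [hc']; linarith
  refine ⟨c'^(3/(2*M)), by positivity, ?_⟩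
  intro x0 hx0
  set z4 : ℝ := max (c'*x0^3) (max 1 (19/K^2)) with hz4
  set u4 : ℝ := max x0 (2*z4) with hu4
  have hz41 : 1 ≤ z4 := (le_max_left _ _).trans (le_max_right _ _)
  have hu41 : 1 ≤ u4 := hx0.trans (le_max_left _ _)
  refine ⟨⌈u4^3+z4^2*u4+z4^3+u4+z4^2⌉₊, ?_⟩
  intro A B x y hns hcur hviol
  set H : ℝ := max (|(A:ℝ)|^3) ((B:ℝ)^2) with hH
  have hH1 : 1 ≤ H := by
    by_cases hA : A = 0
    · have hB : B ≠ 0 := by
        rintro rfl
        rw [hA] at hns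
        norm_num at hns
      have h1 : (1:ℤ) ≤ B^2 := by
        have : 0 < B^2 := by positivity
        omega
      have h2 : (1:ℝ) ≤ (B:ℝ)^2 := by exact_mod_cast h1
      exact h2.trans (le_max_right _ _)
    · have h1 : (1:ℤ) ≤ |A| := Int.one_le_abs hA
      have h2 : (1:ℝ) ≤ |(A:ℝ)| := by exact_mod_cast h1
      exact (one_le_pow₀ h2).trans (le_max_left _ _)
  have hH0 : 0 < H := by linarith
  set Z : ℝ := H^((1:ℝ)/6) with hZ
  have hZ1 : 1 ≤ Z := Real.one_le_rpow hH1 (by norm_num)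
  have hZ0 : 0 < Z := by linarith
  have hZ6 : Z^6 = H := by
    rw [hZ, ← Real.rpow_natCast, ← Real.rpow_mul hH0.le]; norm_num
  have hZM : H^(M/3) = Z^(2*M) := by
    rw [hZ, ← Real.rpow_mul hH0.le]; congr 1; ring
  have hA2 : |(A:ℝ)| ≤ Z^2 := by
    have e1 : |(A:ℝ)|^3 ≤ (Z^2)^3 := by
      calc |(A:ℝ)|^3 ≤ H := le_max_left _ _
        _ = (Z^2)^3 := by rw [← hZ6]; ring
    exact le_of_pow_le_pow_left₀ (by norm_num) (by positivity) e1
  have hB3 : |(B:ℝ)| ≤ Z^3 := by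
    have e1 : |(B:ℝ)|^2 ≤ (Z^3)^2 := by
      calc |(B:ℝ)|^2 = (B:ℝ)^2 := sq_abs _
        _ ≤ H := le_max_right _ _
        _ = (Z^3)^2 := by rw [← hZ6]; ring
    exact le_of_pow_le_pow_left₀ (by norm_num) (by positivity) e1
  rw [hZM] at hviol
  have hcurR : (y:ℝ)^2 = (x:ℝ)^3 + A*x + B := by exact_mod_cast hcur
  set u : ℝ := |(x:ℝ)| with hu
  set v : ℝ := |(y:ℝ)| with hv
  have hu0 : 0 ≤ u := abs_nonneg _
  have hv0 : 0 ≤ v := abs_nonneg _
  have hv2 : v^2 ≤ u^3 + Z^2*u + Z^3 := by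
    have e1 : v^2 = (x:ℝ)^3 + A*x + B := by rw [hv, sq_abs]; exact hcurR
    have e2 : (x:ℝ)^3 ≤ u^3 := by
      have := le_abs_self ((x:ℝ)^3)
      rwa [abs_pow] at this
    have e3 : (A:ℝ)*x ≤ Z^2*u := by
      calc (A:ℝ)*x ≤ |(A:ℝ)*x| := le_abs_self _
        _ = |(A:ℝ)| * u := abs_mul _ _
        _ ≤ Z^2 * u := by gcongr
    have e4 : (B:ℝ) ≤ Z^3 := (le_abs_self _).trans hB3
    linarith
  set U : ℝ := max u 1 with hU
  have hU1 : 1 ≤ U := le_max_right _ _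
  have huU : u ≤ U := le_max_left _ _
  have hm2 : (max u v)^2 ≤ 2*U^3 + Z^2*U + Z^3 := by
    have hU3 : U^2 ≤ U^3 := by nlinarith [one_le_pow₀ (n := 2) hU1]
    have p0 : 0 ≤ Z^2*U := by positivity
    have p1 : 0 ≤ Z^3 := by positivity
    have p2 : 0 ≤ U^3 := by positivity
    rcases max_cases u v with h | h
    · rw [h.1]
      have : u^2 ≤ U^2 := by gcongr
      linarith
    · rw [h.1]
      have q1 : u^3 ≤ U^3 := by gcongr
      have q2 : Z^2*u ≤ Z^2*U := by gcongr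
      linarith
  have hsize := size_ineq hM hK hU1 hZ1 hviol hm2
  rw [← hc'] at hsize
  by_cases hx : x0 < x
  · left
    have hxpos : (0:ℝ) < x := by linarith
    have hux : u = x := abs_of_pos hxpos
    have hUx : U = x := by rw [hU, hux]; exact max_eq_left (by linarith)
    have hHb : H ≤ c'^(3/(2*M)) * (x:ℝ)^(9/(2*M)) := by
      have e1 : (Z^(4*M))^(3/(2*M)) = H := by
        rw [← Real.rpow_mul hZ0.le, ← hZ6, ← Real.rpow_natCast Z 6]
        congr 1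
        push_cast
        field_simp
        norm_num
      have e2 : (c' * U^3)^(3/(2*M)) = c'^(3/(2*M)) * (x:ℝ)^(9/(2*M)) := by
        rw [Real.mul_rpow (by linarith) (by positivity), hUx, ← Real.rpow_natCast (x:ℝ) 3,
          ← Real.rpow_mul hxpos.le]
        congr 2
        push_cast
        field_simp
        norm_num
      rw [← e1, ← e2]
      exact Real.rpow_le_rpow (by positivity) hsize (by positivity)
    exact ⟨hx, (le_max_left _ _).trans hHb, (le_max_right _ _).trans hHb⟩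
  · right
    push Not at hx
    have hZu : Z ≤ z4 ∧ u ≤ u4 := by
      rcases le_or_gt 0 x with hx' | hx'
      · have hxR : (0:ℝ) ≤ x := by exact_mod_cast hx'
        have hux : u = x := abs_of_nonneg hxR
        have hU' : U ≤ x0 := by rw [hU, hux]; exact max_le hx hx0
        have e1 : Z ≤ Z^(4*M) := by
          calc Z = Z^(1:ℝ) := (Real.rpow_one Z).symm
            _ ≤ Z^(4*M) := Real.rpow_le_rpow_of_exponent_le hZ1 (by linarith)
        have e2 : c' * U^3 ≤ c' * x0^3 := by gcongr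
        exact ⟨(e1.trans (hsize.trans e2)).trans (le_max_left _ _),
          (hux ▸ hx).trans (le_max_left _ _)⟩
      · have hxR : (x:ℝ) ≤ -1 := by
          have : x ≤ -1 := by omega
          exact_mod_cast this
        have hux : u = -x := abs_of_neg (by linarith)
        have hu1 : 1 ≤ u := by linarith
        have hneg : u^3 ≤ Z^2 * u + Z^3 := by
          have e0 : 0 ≤ (x:ℝ)^3 + A*x + B := by rw [← hcurR]; positivity
          have e1 : (x:ℝ)^3 = -u^3 := by rw [hux]; ring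
          have e3 : (A:ℝ)*x ≤ Z^2*u := by
            calc (A:ℝ)*x ≤ |(A:ℝ)*x| := le_abs_self _
              _ = |(A:ℝ)| * u := abs_mul _ _
              _ ≤ Z^2 * u := by gcongr
          have e4 : (B:ℝ) ≤ Z^3 := (le_abs_self _).trans hB3
          linarith
        have hUu : U = u := max_eq_left hu1
        rw [hUu] at hm2
        obtain ⟨f1, f2⟩ := size_neg hM hK hu1 hZ1 hneg hviol hm2
        have f3 : Z ≤ z4 := f1.trans (le_max_right _ _)
        exact ⟨f3, (f2.trans (by linarith)).trans (le_max_right _ _)⟩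
    obtain ⟨hZz, huu⟩ := hZu
    have hceil := Nat.le_ceil (u4^3+z4^2*u4+z4^3+u4+z4^2)
    set b : ℕ := ⌈u4^3+z4^2*u4+z4^3+u4+z4^2⌉₊ with hb
    have p1 : 0 ≤ u4^3 := by positivity
    have p2 : 0 ≤ z4^2*u4 := by positivity
    have p3 : 0 ≤ z4^3 := by positivity
    have p4 : 0 ≤ z4^2 := by positivity
    have hZ2 : Z^2 ≤ z4^2 := by gcongr
    have hZ3 : Z^3 ≤ z4^3 := by gcongr
    refine ⟨?_, ?_, ?_, ?_⟩
    · have : |(A:ℝ)| ≤ (b:ℝ) := by linarith
      exact_mod_cast this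
    · have : |(B:ℝ)| ≤ (b:ℝ) := by linarith
      exact_mod_cast this
    · have : |(x:ℝ)| ≤ (b:ℝ) := by rw [← hu]; linarith
      exact_mod_cast this
    · have e1 : v ≤ v^2 := by
        by_cases hy : y = 0
        · rw [hv, hy]; norm_num
        · have h1 : (1:ℤ) ≤ |y| := Int.one_le_abs hy
          have h2 : (1:ℝ) ≤ v := by rw [hv]; exact_mod_cast h1
          nlinarith
      have e2 : u^3 ≤ u4^3 := by gcongr
      have e3 : Z^2*u ≤ z4^2*u4 := by gcongr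
      have : |(y:ℝ)| ≤ (b:ℝ) := by rw [← hv]; linarith
      exact_mod_cast this

end

end Pool.Agent.HLS72
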