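import Mathlib
import Pool.Agent.LibHLS72.Y3

namespace Pool.Agent.HLS72

noncomputable section

/-- the set of violations of the inequality of Hall and Lang, in its form with the height
`max(|A|³, B²)` -/
def Viol (M K X : ℝ) : Set (ℤ × ℤ × ℤ × ℤ) :=
  {P | 4 * P.1^3 + 27 * P.2.1^2 ≠ 0 ∧ P.2.2.2^2 = P.2.2.1^3 + P.1 * P.2.2.1 + P.2.1 ∧
    |(P.2.2.1:ℝ)| ≤ X ∧
    K * (max (|(P.1:ℝ)|^3) ((P.2.1:ℝ)^2))^(M/3) < max |(P.2.2.1:ℝ)| |(P.2.2.2:ℝ)|}

lemma geo {r : ℝ} (hr : 4/3 ≤ r) (m : ℕ) : ∑ i ∈ Finset.range (m+1), r^i ≤ 4 * r^m := by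
  induction m with
  | zero => simp
  | succ m ih =>
    rw [Finset.sum_range_succ]
    have : 0 < r^m := by positivity
    calc _ ≤ 4 * r^m + r^(m+1) := by linarith
      _ ≤ 4 * r^(m+1) := by rw [pow_succ]; nlinarith

lemma card_box4 (b : ℕ) (F : Finset (ℤ × ℤ × ℤ × ℤ))
    (h : ∀ P ∈ F, |P.1| ≤ b ∧ |P.2.1| ≤ b ∧ |P.2.2.1| ≤ b ∧ |P.2.2.2| ≤ b) :
    F.card ≤ (2*b+1)^4 := by
  set I : Finset ℤ := Finset.Icc (-(b:ℤ)) b with hI
  have hIc : I.card = 2*b+1 := by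
    rw [hI, Int.card_Icc]; omega
  have hsub : F ⊆ I ×ˢ (I ×ˢ (I ×ˢ I)) := by
    intro P hP
    obtain ⟨h1, h2, h3, h4⟩ := h P hP
    simp only [Finset.mem_product, hI, Finset.mem_Icc]
    exact ⟨abs_le.mp h1, abs_le.mp h2, abs_le.mp h3, abs_le.mp h4⟩
  refine (Finset.card_le_card hsub).trans (le_of_eq ?_)
  rw [Finset.card_product, Finset.card_product, Finset.card_product, hIc]; ring

theorem sparse (M K η : ℝ) (hM : 9/2 ≤ M) (hK : 0 < K) (hη : 0 < η) :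
    ∃ C : ℝ, ∀ X : ℝ, 1 ≤ X → (Viol M K X).Finite ∧
      ((Viol M K X).ncard : ℝ) ≤ C * X^(1/4 + 3/(8*M) + η) := by
  classical
  obtain ⟨c, hc, hcases⟩ := viol_cases hM hK
  have hM0 : 0 < M := by linarith
  set θ : ℝ := 9/(2*M) with hθ
  have hθ0 : 0 ≤ θ := by positivity
  have hθ1 : θ ≤ 1 := by rw [hθ, div_le_one (by positivity)]; linarith
  obtain ⟨C, T0, hC, hT0, hblk⟩ := block_count (4*c) θ (2*η) hθ0 hθ1 (by positivity)
  obtain ⟨m0, hm0⟩ := pow_unbounded_of_one_lt T0 (by norm_num : (1:ℝ) < 2)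
  obtain ⟨b, hb⟩ := hcases (4^m0) (one_le_pow₀ (by norm_num))
  set E : ℝ := 1/2 + θ/6 + 2*η with hE
  have hE0 : 0 ≤ E := by positivity
  have hEhalf : E/2 = 1/4 + 3/(8*M) + η := by
    rw [hE, hθ]; field_simp; ring
  set r : ℝ := (2:ℝ)^E with hr
  have hr43 : 4/3 ≤ r := by
    have h1 : (2:ℝ)^((1:ℝ)/2) ≤ r := by
      rw [hr]
      apply Real.rpow_le_rpow_of_exponent_le (by norm_num)
      rw [hE]
      have : 0 ≤ θ/6 := by positivity
      linarith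
    have h2 : (4/3:ℝ) ≤ (2:ℝ)^((1:ℝ)/2) := by
      rw [← Real.sqrt_eq_rpow]
      apply Real.le_sqrt_of_sq_le
      norm_num
    linarith
  have hr0 : 0 < r := by linarith
  refine ⟨((2*b+1)^4 : ℕ) + 4 * C, ?_⟩
  intro X hX
  have hX0 : 0 < X := by linarith
  apply fin_of_card
  intro F hFV
  obtain ⟨m1, hm1, hm1'⟩ := exists_nat_pow_near hX (by norm_num : (1:ℝ) < 4)
  set Fb : Finset (ℤ × ℤ × ℤ × ℤ) := F.filter (fun P =>
    |P.1| ≤ b ∧ |P.2.1| ≤ b ∧ |P.2.2.1| ≤ b ∧ |P.2.2.2| ≤ b) with hFb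
  set Fm : ℕ → Finset (ℤ × ℤ × ℤ × ℤ) := fun m => F.filter (fun P =>
    ((4:ℝ)^m0 < P.2.2.1 ∧ |(P.1:ℝ)|^3 ≤ c * (P.2.2.1:ℝ)^θ ∧ (P.2.1:ℝ)^2 ≤ c * (P.2.2.1:ℝ)^θ) ∧
    (4:ℝ)^m ≤ P.2.2.1 ∧ (P.2.2.1:ℝ) < 4^(m+1)) with hFm
  have hcov : F ⊆ Fb ∪ (Finset.range (m1+1)).biUnion Fm := by
    intro P hP
    obtain ⟨v1, v2, v3, v4⟩ := hFV (Finset.mem_coe.mpr hP)
    rw [Finset.mem_union]
    rcases hb P.1 P.2.1 P.2.2.1 P.2.2.2 v1 v2 v4 with h | h
    · right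
      have hx0 : (0:ℝ) < P.2.2.1 := lt_trans (by positivity) h.1
      have hx1 : (1:ℝ) ≤ P.2.2.1 := by
        have : (0:ℤ) < P.2.2.1 := by exact_mod_cast hx0
        exact_mod_cast this
      obtain ⟨m, hm, hm'⟩ := exists_nat_pow_near hx1 (by norm_num : (1:ℝ) < 4)
      rw [Finset.mem_biUnion]
      refine ⟨m, ?_, ?_⟩
      · rw [Finset.mem_range]
        have hxX : (P.2.2.1:ℝ) ≤ X := (le_abs_self _).trans v3
        have : (4:ℝ)^m < 4^(m1+1) := by linarith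
        exact (pow_lt_pow_iff_right₀ (by norm_num)).mp this
      · rw [hFm, Finset.mem_filter]
        exact ⟨hP, h, hm, hm'⟩
    · left
      rw [hFb, Finset.mem_filter]
      exact ⟨hP, h⟩
  have hFbc : (Fb.card : ℝ) ≤ ((2*b+1)^4 : ℕ) := by
    have : Fb.card ≤ (2*b+1)^4 := card_box4 b Fb (by
      intro P hP
      rw [hFb, Finset.mem_filter] at hP
      exact hP.2)
    exact_mod_cast this
  have hFmc : ∀ m : ℕ, ((Fm m).card : ℝ) ≤ C * r^m := by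
    intro m
    by_cases hmm : m0 ≤ m
    · have hT : T0 ≤ (2:ℝ)^m := hm0.le.trans (pow_le_pow_right₀ (by norm_num) hmm)
      have h22 : ((2:ℝ)^m)^2 = 4^m := by rw [← pow_mul, mul_comm, pow_mul]; norm_num
      have h2 := hblk ((2:ℝ)^m) hT (Fm m) (by
        intro P hP
        rw [hFm, Finset.mem_filter] at hP
        obtain ⟨hPF, ⟨h3, h4, h5⟩, h6, h7⟩ := hP
        obtain ⟨v1, v2, v3, v4⟩ := hFV (Finset.mem_coe.mpr hPF)
        have hx0 : (0:ℝ) < P.2.2.1 := lt_trans (by positivity) h3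
        have h8 : c * (P.2.2.1:ℝ)^θ ≤ 4 * c * ((2:ℝ)^m)^(2*θ) := by
          have e1 : (P.2.2.1:ℝ)^θ ≤ (4 * 4^m)^θ := by
            apply Real.rpow_le_rpow hx0.le _ hθ0
            rw [pow_succ] at h7
            linarith
          have e2 : ((4:ℝ) * 4^m)^θ = 4^θ * ((2:ℝ)^m)^(2*θ) := by
            rw [Real.mul_rpow (by norm_num) (by positivity), ← h22,
              ← Real.rpow_natCast ((2:ℝ)^m) 2, ← Real.rpow_mul (by positivity)]
            push_cast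
            rfl
          have e3 : (4:ℝ)^θ ≤ 4 := by
            calc (4:ℝ)^θ ≤ 4^(1:ℝ) := Real.rpow_le_rpow_of_exponent_le (by norm_num) hθ1
              _ = 4 := Real.rpow_one 4
          calc c * (P.2.2.1:ℝ)^θ ≤ c * (4^θ * ((2:ℝ)^m)^(2*θ)) := by rw [← e2]; gcongr
            _ ≤ c * (4 * ((2:ℝ)^m)^(2*θ)) := by gcongr
            _ = _ := by ring
        refine ⟨v1, v2, ?_, ?_, h4.trans h8, h5.trans h8⟩
        · rw [h22]; exact h6
        · rw [h22]; rw [pow_succ] at h7; linarith)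
      have h9 : ((2:ℝ)^m)^E = r^m := by
        rw [hr, ← Real.rpow_natCast 2 m, ← Real.rpow_natCast (2^E) m, ← Real.rpow_mul (by norm_num),
          ← Real.rpow_mul (by norm_num), mul_comm]
      rw [h9] at h2
      exact h2
    · have : Fm m = ∅ := by
        rw [Finset.eq_empty_iff_forall_notMem]
        intro P hP
        rw [hFm, Finset.mem_filter] at hP
        obtain ⟨_, ⟨h3, _⟩, _, h7⟩ := hP
        have h8 : (4:ℝ)^(m+1) ≤ 4^m0 := pow_le_pow_right₀ (by norm_num) (by omega)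
        linarith
      rw [this]; simp; positivity
  have hcard : (F.card : ℝ) ≤ (Fb.card : ℝ) + ∑ m ∈ Finset.range (m1+1), ((Fm m).card : ℝ) := by
    have e1 := Finset.card_le_card hcov
    have e2 := Finset.card_union_le Fb ((Finset.range (m1+1)).biUnion Fm)
    have e3 : ((Finset.range (m1+1)).biUnion Fm).card ≤ ∑ m ∈ Finset.range (m1+1), (Fm m).card :=
      Finset.card_biUnion_le
    have e5 : F.card ≤ Fb.card + ∑ m ∈ Finset.range (m1+1), (Fm m).card := by omega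
    exact_mod_cast e5
  have hsum : ∑ m ∈ Finset.range (m1+1), ((Fm m).card : ℝ) ≤ C * (4 * r^m1) := by
    calc ∑ m ∈ Finset.range (m1+1), ((Fm m).card : ℝ)
        ≤ ∑ m ∈ Finset.range (m1+1), C * r^m := Finset.sum_le_sum (fun m _ => hFmc m)
      _ = C * ∑ m ∈ Finset.range (m1+1), r^m := by rw [Finset.mul_sum]
      _ ≤ C * (4 * r^m1) := by gcongr; exact geo hr43 m1
  have hrX : r^m1 ≤ X^(E/2) := by
    have e1 : r^m1 = ((4:ℝ)^m1)^(E/2) := by
      have h4 : (4:ℝ)^m1 = (2:ℝ)^(2*(m1:ℝ)) := by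
        rw [Real.rpow_mul (by norm_num)]
        norm_num
      rw [h4, ← Real.rpow_mul (by norm_num), hr, ← Real.rpow_natCast (2^E) m1,
        ← Real.rpow_mul (by norm_num)]
      congr 1; ring
    rw [e1]
    exact Real.rpow_le_rpow (by positivity) hm1 (by positivity)
  have hX1 : 1 ≤ X^(E/2) := Real.one_le_rpow hX (by positivity)
  rw [← hEhalf]
  calc (F.card : ℝ) ≤ (((2*b+1)^4 : ℕ) : ℝ) + C * (4 * r^m1) := by linarith
    _ ≤ (((2*b+1)^4 : ℕ) : ℝ) * X^(E/2) + C * (4 * X^(E/2)) := by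
        have : (0:ℝ) ≤ (((2*b+1)^4 : ℕ) : ℝ) := by positivity
        gcongr
        exact le_mul_of_one_le_right this hX1
    _ = _ := by ring

end

end Pool.Agent.HLS72
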