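import Mathlib
import Pool.Agent.LibHLS72.Form

/-!
# Many violations of the Hall-Lang inequality: the construction

For coprime `q, s` a binary quartic form `ℓ⁴ + 24 λ c(ℓ, λ)`, `λ = qX + sY`, with small
coefficients.
-/

namespace Pool.Agent.HLS72

lemma exists_shift (v lo : ℝ) : ∃ k : ℤ, lo ≤ v + 24*k ∧ v + 24*k < lo + 24 := by
  refine ⟨-⌊(v-lo)/24⌋, ?_, ?_⟩
  · have := Int.floor_le ((v-lo)/24)
    push_cast; linarith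
  · have := Int.lt_floor_add_one ((v-lo)/24)
    push_cast; linarith

lemma invI (x y m p q r s : ℤ) :
    12 * g0 x y m p q * g4 x y m r s - 3 * g1 x y m p q r s * g3 x y m p q r s
      + g2 x y m p q r s ^ 2 = (36*x^2 - 12*m) * (p*s - r*q)^4 := by
  unfold g0 g1 g2 g3 g4; ring

lemma invJ (x y m p q r s : ℤ) :
    72 * g0 x y m p q * g2 x y m p q r s * g4 x y m r s
      + 9 * g1 x y m p q r s * g2 x y m p q r s * g3 x y m p q r s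
      - 27 * g0 x y m p q * g3 x y m p q r s ^ 2
      - 27 * g4 x y m r s * g1 x y m p q r s ^ 2
      - 2 * g2 x y m p q r s ^ 3
      = (432 * x * m - 1728 * y^2 + 432 * x^3) * (p*s - r*q)^6 := by
  unfold g0 g1 g2 g3 g4; ring

/-- first polar at `(s, -q)` -/
lemma polar1 {x y m p q r s : ℤ} (h : p*s - r*q = 1) :
    4 * g0 x y m p q * s^3 - 3 * g1 x y m p q r s * s^2 * q + 2 * g2 x y m p q r s * s * q^2
      - g3 x y m p q r s * q^3 = 4 * p := by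
  have : 4 * g0 x y m p q * s^3 - 3 * g1 x y m p q r s * s^2 * q
      + 2 * g2 x y m p q r s * s * q^2 - g3 x y m p q r s * q^3 = 4 * p * (p*s - r*q)^3 := by
    unfold g0 g1 g2 g3; ring
  rw [this, h]; ring

/-- second polar at `(s, -q)` -/
lemma polar2 {x y m p q r s : ℤ} (h : p*s - r*q = 1) :
    6 * g0 x y m p q * s^2 - 3 * g1 x y m p q r s * s * q + g2 x y m p q r s * q^2
      = 6 * p^2 - 6 * x * q^2 := by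
  have : 6 * g0 x y m p q * s^2 - 3 * g1 x y m p q r s * s * q + g2 x y m p q r s * q^2
      = (6 * p^2 - 6 * x * q^2) * (p*s - r*q)^2 := by
    unfold g0 g1 g2; ring
  rw [this, h]; ring

section constr

variable (p q r s k0 k1 k2 k3 : ℤ)

def e0 : ℤ := k0*s^3 - k1*s^2*q + k2*s*q^2 - k3*q^3
def e1 : ℤ := -3*k0*s^2*r + k1*(s^2*p + 2*s*q*r) - k2*(2*s*q*p + q^2*r) + 3*k3*q^2*p
def e2 : ℤ := 3*k0*s*r^2 - k1*(q*r^2 + 2*s*r*p) + k2*(s*p^2 + 2*p*q*r) - 3*k3*q*p^2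
def e3 : ℤ := -k0*r^3 + k1*r^2*p - k2*r*p^2 + k3*p^3

lemma kap0 : e0 q s k0 k1 k2 k3 * p^3 + e1 p q r s k0 k1 k2 k3 * p^2 * q
    + e2 p q r s k0 k1 k2 k3 * p * q^2 + e3 p r k0 k1 k2 k3 * q^3 = k0 * (p*s - r*q)^3 := by
  unfold e0 e1 e2 e3; ring

lemma kap1 : 3 * e0 q s k0 k1 k2 k3 * p^2 * r + e1 p q r s k0 k1 k2 k3 * (2*p*r*q + p^2*s)
    + e2 p q r s k0 k1 k2 k3 * (r*q^2 + 2*p*q*s) + 3 * e3 p r k0 k1 k2 k3 * q^2 * s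
      = k1 * (p*s - r*q)^3 := by
  unfold e0 e1 e2 e3; ring

lemma kap2 : 3 * e0 q s k0 k1 k2 k3 * p * r^2 + e1 p q r s k0 k1 k2 k3 * (2*p*r*s + r^2*q)
    + e2 p q r s k0 k1 k2 k3 * (p*s^2 + 2*q*r*s) + 3 * e3 p r k0 k1 k2 k3 * q * s^2
      = k2 * (p*s - r*q)^3 := by
  unfold e0 e1 e2 e3; ring

lemma kap3 : e0 q s k0 k1 k2 k3 * r^3 + e1 p q r s k0 k1 k2 k3 * r^2 * s
    + e2 p q r s k0 k1 k2 k3 * r * s^2 + e3 p r k0 k1 k2 k3 * s^3 = k3 * (p*s - r*q)^3 := by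
  unfold e0 e1 e2 e3; ring

end constr

section form

variable (c0 c1 c2 c3 : ℤ)

def fx : ℤ := 36*c0^2 - 4*c1
def fy : ℤ := 216*c0^3 - 36*c0*c1 + 3*c2
def fA : ℤ := 36*c0*c2 - 6*c3 - 12*c1^2
def fm : ℤ := 3 * fx c0 c1 ^ 2 + 4 * fA c0 c1 c2 c3

lemma form0 (p q : ℤ) : g0 (fx c0 c1) (fy c0 c1 c2) (fm c0 c1 c2 c3) (p + 6*c0*q) q
    = p^4 + 24*q*(c0*p^3 + c1*p^2*q + c2*p*q^2 + c3*q^3) := by
  unfold g0 fm fA fy fx; ring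

lemma form1 (p q r s : ℤ) :
    g1 (fx c0 c1) (fy c0 c1 c2) (fm c0 c1 c2 c3) (p + 6*c0*q) q (r + 6*c0*s) s
    = 4*p^3*r + 24*q*(3*c0*p^2*r + c1*(2*p*r*q + p^2*s) + c2*(r*q^2 + 2*p*q*s) + 3*c3*q^2*s)
      + 24*s*(c0*p^3 + c1*p^2*q + c2*p*q^2 + c3*q^3) := by
  unfold g1 fm fA fy fx; ring

lemma form2 (p q r s : ℤ) :
    g2 (fx c0 c1) (fy c0 c1 c2) (fm c0 c1 c2 c3) (p + 6*c0*q) q (r + 6*c0*s) s
    = 6*p^2*r^2 + 24*q*(3*c0*p*r^2 + c1*(2*p*r*s + r^2*q) + c2*(p*s^2 + 2*q*r*s) + 3*c3*q*s^2)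
      + 24*s*(3*c0*p^2*r + c1*(2*p*r*q + p^2*s) + c2*(r*q^2 + 2*p*q*s) + 3*c3*q^2*s) := by
  unfold g2 fm fA fy fx; ring

lemma form3 (p q r s : ℤ) :
    g3 (fx c0 c1) (fy c0 c1 c2) (fm c0 c1 c2 c3) (p + 6*c0*q) q (r + 6*c0*s) s
    = 4*p*r^3 + 24*q*(c0*r^3 + c1*r^2*s + c2*r*s^2 + c3*s^3)
      + 24*s*(3*c0*p*r^2 + c1*(2*p*r*s + r^2*q) + c2*(p*s^2 + 2*q*r*s) + 3*c3*q*s^2) := by
  unfold g3 fm fA fy fx; ring

end form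

/-- for coprime `(q, s)` there is a quartic form with small coefficients. -/
lemma exists_form {q s : ℤ} (hq : 0 < q) (hcop : IsCoprime q s) :
    ∃ x y A p r : ℤ, p*s - r*q = 1 ∧ ∃ D0 D1 D2 D3 : ℝ,
      (100 ≤ D0 ∧ D0 < 124) ∧ (-12 ≤ D1 ∧ D1 < 12) ∧ (-12 ≤ D2 ∧ D2 < 12) ∧
      (-1024 ≤ D3 ∧ D3 < -1000) ∧
      (g0 x y (3*x^2 + 4*A) p q : ℝ) = q * D0 ∧
      (g1 x y (3*x^2 + 4*A) p q r s : ℝ) = q * D1 + s * D0 ∧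
      (g2 x y (3*x^2 + 4*A) p q r s : ℝ) = q * D2 + s * D1 ∧
      (g3 x y (3*x^2 + 4*A) p q r s : ℝ) = q * D3 + s * D2 := by
  obtain ⟨u, p0, hup⟩ := hcop
  -- u*q + p0*s = 1
  set r0 : ℤ := -u with hr0
  have hd : p0*s - r0*q = 1 := by rw [hr0]; linarith
  have hqr : (0:ℝ) < q := by exact_mod_cast hq
  have hqn : (q:ℝ) ≠ 0 := hqr.ne'
  obtain ⟨k0, a0, b0⟩ := exists_shift ((p0:ℝ)^4/q) 100
  set D0 : ℝ := (p0:ℝ)^4/q + 24*k0 with hD0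
  obtain ⟨k1, a1, b1⟩ := exists_shift ((4*(p0:ℝ)^3*r0 + 24*s*k0 - s*D0)/q) (-12)
  set D1 : ℝ := (4*(p0:ℝ)^3*r0 + 24*s*k0 - s*D0)/q + 24*k1 with hD1
  obtain ⟨k2, a2, b2⟩ := exists_shift ((6*(p0:ℝ)^2*r0^2 + 24*s*k1 - s*D1)/q) (-12)
  set D2 : ℝ := (6*(p0:ℝ)^2*r0^2 + 24*s*k1 - s*D1)/q + 24*k2 with hD2
  obtain ⟨k3, a3, b3⟩ := exists_shift ((4*(p0:ℝ)*r0^3 + 24*s*k2 - s*D2)/q) (-1024)
  set D3 : ℝ := (4*(p0:ℝ)*r0^3 + 24*s*k2 - s*D2)/q + 24*k3 with hD3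
  set c0 : ℤ := e0 q s k0 k1 k2 k3 with hc0
  set c1 : ℤ := e1 p0 q r0 s k0 k1 k2 k3 with hc1
  set c2 : ℤ := e2 p0 q r0 s k0 k1 k2 k3 with hc2
  set c3 : ℤ := e3 p0 r0 k0 k1 k2 k3 with hc3
  have K0 := kap0 p0 q r0 s k0 k1 k2 k3
  have K1 := kap1 p0 q r0 s k0 k1 k2 k3
  have K2 := kap2 p0 q r0 s k0 k1 k2 k3
  have K3 := kap3 p0 q r0 s k0 k1 k2 k3
  rw [hd, one_pow, mul_one, ← hc0, ← hc1, ← hc2, ← hc3] at K0 K1 K2 K3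
  refine ⟨fx c0 c1, fy c0 c1 c2, fA c0 c1 c2 c3, p0 + 6*c0*q, r0 + 6*c0*s, ?_,
    D0, D1, D2, D3, ⟨a0, by linarith⟩, ⟨a1, by linarith⟩, ⟨a2, by linarith⟩, ⟨a3, by linarith⟩,
    ?_, ?_, ?_, ?_⟩
  · linear_combination hd
  · have h := form0 c0 c1 c2 c3 p0 q
    rw [K0] at h
    unfold fm at h
    rw [h, hD0]
    push_cast
    field_simp
  · have h := form1 c0 c1 c2 c3 p0 q r0 s
    rw [K0, K1] at h
    unfold fm at h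
    rw [h, hD1]
    push_cast
    field_simp
    ring
  · have h := form2 c0 c1 c2 c3 p0 q r0 s
    rw [K1, K2] at h
    unfold fm at h
    rw [h, hD2]
    push_cast
    field_simp
    ring
  · have h := form3 c0 c1 c2 c3 p0 q r0 s
    rw [K2, K3] at h
    unfold fm at h
    rw [h, hD3]
    push_cast
    field_simp
    ring

end Pool.Agent.HLS72
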