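import Mathlib
import Pool.Agent.LibHLS72.Low1

/-!
# Many violations of the Hall-Lang inequality: sizes
-/

namespace Pool.Agent.HLS72

lemma abs_lin {D D' a b q s : ℝ} (hq : 0 ≤ q) (hs : 0 ≤ s) (hsq : s ≤ q) (h1 : |D| ≤ a)
    (h2 : |D'| ≤ b) : |q * D + s * D'| ≤ (a + b) * q := by
  have hb : 0 ≤ b := le_trans (abs_nonneg _) h2
  calc |q * D + s * D'| ≤ |q * D| + |s * D'| := abs_add_le _ _
    _ = q * |D| + s * |D'| := by rw [abs_mul, abs_mul, abs_of_nonneg hq, abs_of_nonneg hs]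
    _ ≤ q * a + q * b := by
      apply add_le_add
      · exact mul_le_mul_of_nonneg_left h1 hq
      · exact mul_le_mul hsq h2 (abs_nonneg _) hq
    _ = (a + b) * q := by ring

lemma abs_mul2 {a b A B : ℝ} (h1 : |a| ≤ A) (h2 : |b| ≤ B) : |a * b| ≤ A * B := by
  have hA : 0 ≤ A := le_trans (abs_nonneg _) h1
  rw [abs_mul]
  exact mul_le_mul h1 h2 (abs_nonneg _) hA

lemma abs_mul3 {a b c A B C : ℝ} (h1 : |a| ≤ A) (h2 : |b| ≤ B) (h3 : |c| ≤ C) :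
    |a * b * c| ≤ A * B * C := abs_mul2 (abs_mul2 h1 h2) h3

/-- sizes of the coefficients -/
lemma facts_G {q s D0 D1 D2 D3 G0 G1 G2 G3 G4 : ℝ}
    (hq : 1 ≤ q) (hs0 : 0 < s) (hsq : s ≤ q)
    (aD0 : |D0| ≤ 124) (aD1 : |D1| ≤ 12) (aD2 : |D2| ≤ 12) (aD3 : |D3| ≤ 1024)
    (hG0 : G0 = q * D0) (hG1 : G1 = q * D1 + s * D0) (hG2 : G2 = q * D2 + s * D1)
    (hG3 : G3 = q * D3 + s * D2)
    (hval : G0 * s^4 - G1 * s^3 * q + G2 * s^2 * q^2 - G3 * s * q^3 + G4 * q^4 = 1) :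
    |G0| ≤ 124 * q ∧ |G1| ≤ 136 * q ∧ |G2| ≤ 24 * q ∧ |G3| ≤ 1036 * q ∧ |G4| ≤ 1025 * q ∧
      ∃ j : ℝ, 0 < j ∧ j ≤ 1 ∧ G4 = s * D3 + j := by
  have hq0 : 0 < q := by linarith
  have hG4 : G4 * q^4 = s * D3 * q^4 + 1 := by
    have : G0 * s^4 - G1 * s^3 * q + G2 * s^2 * q^2 - G3 * s * q^3 = - (s * D3 * q^4) := by
      rw [hG0, hG1, hG2, hG3]; ring
    linarith
  have q4 : 1 ≤ q^4 := one_le_pow₀ hq
  have q4' : 0 < q^4 := by positivity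
  have eG4 : G4 = s * D3 + 1/q^4 := by
    field_simp
    linarith
  have hj0 : 0 < 1/q^4 := by positivity
  have hj1 : 1/q^4 ≤ 1 := by
    rw [div_le_one q4']; exact q4
  refine ⟨?_, ?_, ?_, ?_, ?_, 1/q^4, hj0, hj1, eG4⟩
  · rw [hG0, abs_mul, abs_of_pos hq0]
    have := mul_le_mul_of_nonneg_left aD0 hq0.le
    linarith
  · rw [hG1]
    have := abs_lin hq0.le hs0.le hsq aD1 aD0
    linarith
  · rw [hG2]
    have := abs_lin hq0.le hs0.le hsq aD2 aD1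
    linarith
  · rw [hG3]
    have := abs_lin hq0.le hs0.le hsq aD3 aD2
    linarith
  · rw [eG4]
    calc |s * D3 + 1/q^4| ≤ |s * D3| + |1/q^4| := abs_add_le _ _
      _ = s * |D3| + 1/q^4 := by rw [abs_mul, abs_of_pos hs0, abs_of_pos hj0]
      _ ≤ q * 1024 + q := by
        have := mul_le_mul hsq aD3 (abs_nonneg _) hq0.le
        linarith
      _ = 1025 * q := by ring

lemma prod_neg {D0 D3 : ℝ} (h0 : 100 ≤ D0) (h0' : D0 < 124) (h3 : -1024 ≤ D3)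
    (h3' : D3 < -1000) : D0 * D3 ≤ -100000 ∧ -126976 ≤ D0 * D3 := by
  constructor <;> nlinarith

lemma facts_A {q s D0 D1 D2 D3 G0 G1 G2 G3 G4 A j : ℝ}
    (hq : 1 ≤ q) (hs : q ≤ 4 * s) (hs0 : 0 < s) (hsq : s ≤ q)
    (h0 : 100 ≤ D0 ∧ D0 < 124) (aD1 : |D1| ≤ 12) (aD2 : |D2| ≤ 12)
    (h3 : -1024 ≤ D3 ∧ D3 < -1000)
    (hG0 : G0 = q * D0) (hG1 : G1 = q * D1 + s * D0) (hG2 : G2 = q * D2 + s * D1)
    (hG3 : G3 = q * D3 + s * D2) (bG2 : |G2| ≤ 24 * q)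
    (hj0 : 0 < j) (hj1 : j ≤ 1) (eG4 : G4 = s * D3 + j)
    (hI : 12 * G0 * G4 - 3 * G1 * G3 + G2 ^ 2 = - 48 * A) :
    0 < A ∧ A ≤ 25000 * q^2 := by
  have hq0 : 0 < q := by linarith
  have aD0 : |D0| ≤ 124 := abs_le.2 ⟨by linarith [h0.1], h0.2.le⟩
  have aD3 : |D3| ≤ 1024 := abs_le.2 ⟨h3.1, by linarith [h3.2]⟩
  have aq : |q| ≤ q := (abs_of_pos hq0).le
  have as : |s| ≤ q := by rw [abs_of_pos hs0]; exact hsq
  have eI : - 48 * A = 9 * ((q * s) * (D0 * D3)) - 3 * (q * q * (D1 * D3))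
      - 3 * (q * s * (D1 * D2)) - 3 * (s * s * (D0 * D2)) + G2 * G2 + 12 * (q * D0 * j) := by
    rw [← hI, eG4, hG0, hG1, hG3, hG2]; ring
  obtain ⟨b03, b03'⟩ := prod_neg h0.1 h0.2 h3.1 h3.2
  have c13 := abs_mul3 aq aq (abs_mul2 aD1 aD3)
  have c12 := abs_mul3 aq as (abs_mul2 aD1 aD2)
  have c02 := abs_mul3 as as (abs_mul2 aD0 aD2)
  have c22 := abs_mul2 bG2 bG2
  have c0j : |q * D0 * j| ≤ q * 124 * q := by
    have : |j| ≤ q := by rw [abs_of_pos hj0]; linarith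
    exact abs_mul3 aq aD0 this
  have c0j' : q * D0 * j ≤ q * 124 * 1 := by
    have : |j| ≤ 1 := by rw [abs_of_pos hj0]; linarith
    exact (abs_le.1 (abs_mul3 aq aD0 this)).2
  have hqs : 0 < q * s := mul_pos hq0 hs0
  have q2 : q ≤ q * q := by nlinarith only [hq]
  have hqs4 : q * q ≤ 4 * (q * s) := by nlinarith only [hs, hq0]
  have hqs1 : q * s ≤ q * q := mul_le_mul_of_nonneg_left hsq hq0.le
  have up : (q * s) * (D0 * D3) ≤ (q * s) * (-100000) := mul_le_mul_of_nonneg_left b03 hqs.le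
  have lo : (q * s) * (-126976) ≤ (q * s) * (D0 * D3) := mul_le_mul_of_nonneg_left b03' hqs.le
  rw [abs_le] at c13 c12 c02 c22 c0j
  have e1 : q * q * (12 * 1024) = 12288 * (q * q) := by ring
  have e2 : q * q * (12 * 12) = 144 * (q * q) := by ring
  have e3 : q * q * (124 * 12) = 1488 * (q * q) := by ring
  have e4 : 24 * q * (24 * q) = 576 * (q * q) := by ring
  have e5 : q * 124 * q = 124 * (q * q) := by ring
  have e6 : q^2 = q * q := by ring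
  rw [e1] at c13
  rw [e2] at c12
  rw [e3] at c02
  rw [e4] at c22
  rw [e5] at c0j
  rw [e6]
  constructor
  · linarith [c13.1, c12.1, c02.1, c22.2]
  · linarith [c13.2, c12.2, c02.2, c22.1, c0j.1]

lemma facts_B {q G0 G1 G2 G3 G4 B : ℝ} (hq : 1 ≤ q)
    (bG0 : |G0| ≤ 124 * q) (bG1 : |G1| ≤ 136 * q) (bG2 : |G2| ≤ 24 * q) (bG3 : |G3| ≤ 1036 * q)
    (bG4 : |G4| ≤ 1025 * q)
    (hJ : 72 * G0 * G2 * G4 + 9 * G1 * G2 * G3 - 27 * G0 * G3 ^ 2 - 27 * G4 * G1 ^ 2 - 2 * G2 ^ 3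
      = - 1728 * B) : |B| ≤ 3000000 * q^3 := by
  have t1 := abs_mul3 bG0 bG2 bG4
  have t2 := abs_mul3 bG1 bG2 bG3
  have t3 := abs_mul3 bG0 bG3 bG3
  have t4 := abs_mul3 bG4 bG1 bG1
  have t5 := abs_mul3 bG2 bG2 bG2
  have eJ : 1728 * B = - (72 * (G0 * G2 * G4)) - 9 * (G1 * G2 * G3) + 27 * (G0 * G3 * G3)
        + 27 * (G4 * G1 * G1) + 2 * (G2 * G2 * G2) := by linarith
  have q3 : 0 < q^3 := by positivity
  have e1 : 124 * q * (24 * q) * (1025 * q) = 3050400 * q^3 := by ring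
  have e2 : 136 * q * (24 * q) * (1036 * q) = 3381504 * q^3 := by ring
  have e3 : 124 * q * (1036 * q) * (1036 * q) = 133088704 * q^3 := by ring
  have e4 : 1025 * q * (136 * q) * (136 * q) = 18958400 * q^3 := by ring
  have e5 : 24 * q * (24 * q) * (24 * q) = 13824 * q^3 := by ring
  rw [e1] at t1
  rw [e2] at t2
  rw [e3] at t3
  rw [e4] at t4
  rw [e5] at t5
  rw [abs_le] at t1 t2 t3 t4 t5 ⊢
  constructor
  · linarith [t1.1, t1.2, t2.1, t2.2, t3.1, t3.2, t4.1, t4.2, t5.1, t5.2]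
  · linarith [t1.1, t1.2, t2.1, t2.2, t3.1, t3.2, t4.1, t4.2, t5.1, t5.2]

lemma facts_p {q s D0 D1 D2 D3 G0 G1 G2 G3 p : ℝ}
    (hq : 1 ≤ q) (hs0 : 0 < s) (hsq : s ≤ q)
    (h0 : 100 ≤ D0 ∧ D0 < 124) (aD1 : |D1| ≤ 12) (aD2 : |D2| ≤ 12)
    (h3 : -1024 ≤ D3 ∧ D3 < -1000)
    (hG0 : G0 = q * D0) (hG1 : G1 = q * D1 + s * D0) (hG2 : G2 = q * D2 + s * D1)
    (hG3 : G3 = q * D3 + s * D2)
    (hp1 : 4 * G0 * s^3 - 3 * G1 * s^2 * q + 2 * G2 * s * q^2 - G3 * q^3 = 4 * p) :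
    244 * q^4 ≤ p ∧ p ≤ 293 * q^4 := by
  have hq0 : 0 < q := by linarith
  have ep : 4 * p = q * (D0 * s^3 - D1 * (s^2 * q) + D2 * (s * q^2) - D3 * q^3) := by
    rw [← hp1, hG0, hG1, hG2, hG3]; ring
  have s2 : s^2 ≤ q^2 := pow_le_pow_left₀ hs0.le hsq 2
  have s3 : s^3 ≤ q^3 := pow_le_pow_left₀ hs0.le hsq 3
  have f1 : |D1 * (s^2 * q)| ≤ 12 * q^3 := by
    rw [abs_mul, abs_of_pos (by positivity : 0 < s^2 * q)]
    calc |D1| * (s^2 * q) ≤ 12 * (q^2 * q) := by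
          apply mul_le_mul aD1 _ (by positivity) (by norm_num)
          exact mul_le_mul_of_nonneg_right s2 hq0.le
      _ = 12 * q^3 := by ring
  have f2 : |D2 * (s * q^2)| ≤ 12 * q^3 := by
    rw [abs_mul, abs_of_pos (by positivity : 0 < s * q^2)]
    calc |D2| * (s * q^2) ≤ 12 * (q * q^2) := by
          apply mul_le_mul aD2 _ (by positivity) (by norm_num)
          exact mul_le_mul_of_nonneg_right hsq (by positivity)
      _ = 12 * q^3 := by ring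
  have f0 : 0 ≤ D0 * s^3 := mul_nonneg (by linarith [h0.1]) (by positivity)
  have f0' : D0 * s^3 ≤ 124 * q^3 := by
    calc D0 * s^3 ≤ 124 * s^3 := mul_le_mul_of_nonneg_right h0.2.le (by positivity)
      _ ≤ 124 * q^3 := by linarith
  have q3 : 0 < q^3 := by positivity
  have f3 : D3 * q^3 ≤ -1000 * q^3 := mul_le_mul_of_nonneg_right h3.2.le q3.le
  have f3' : -1024 * q^3 ≤ D3 * q^3 := mul_le_mul_of_nonneg_right h3.1 q3.le
  rw [abs_le] at f1 f2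
  have hq4 : q * q^3 = q^4 := by ring
  constructor
  · have : 976 * q^3 ≤ D0 * s^3 - D1 * (s^2 * q) + D2 * (s * q^2) - D3 * q^3 := by
      linarith [f1.2, f2.1]
    have h := mul_le_mul_of_nonneg_left this hq0.le
    rw [← ep] at h
    nlinarith only [h, hq4]
  · have : D0 * s^3 - D1 * (s^2 * q) + D2 * (s * q^2) - D3 * q^3 ≤ 1172 * q^3 := by
      linarith [f1.1, f2.2]
    have h := mul_le_mul_of_nonneg_left this hq0.le
    rw [← ep] at h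
    nlinarith only [h, hq4]

lemma facts_x {q s D0 D1 D2 G0 G1 G2 p x : ℝ}
    (hq : 1 ≤ q) (hs0 : 0 < s) (hsq : s ≤ q)
    (aD0 : |D0| ≤ 124) (aD1 : |D1| ≤ 12) (aD2 : |D2| ≤ 12)
    (hG0 : G0 = q * D0) (hG1 : G1 = q * D1 + s * D0) (hG2 : G2 = q * D2 + s * D1)
    (hpl : 244 * q^4 ≤ p) (hpu : p ≤ 293 * q^4)
    (hp2 : 6 * G0 * s^2 - 3 * G1 * s * q + G2 * q^2 = 6 * p^2 - 6 * x * q^2) :
    |p^2 - x*q^2| ≤ 68 * q^3 ∧ 59000 * q^6 ≤ x ∧ x ≤ 86000 * q^6 := by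
  have hq0 : 0 < q := by linarith
  have q3 : 0 < q^3 := by positivity
  have aq : |q| ≤ q := (abs_of_pos hq0).le
  have as : |s| ≤ q := by rw [abs_of_pos hs0]; exact hsq
  have ex : 6 * (p^2 - x*q^2) = 3 * (q * s * (D0 * s)) - 2 * (D1 * (q^2 * s)) + D2 * q^3 := by
    have : 6 * (p^2 - x*q^2) = 6 * p^2 - 6 * x * q^2 := by ring
    rw [this, ← hp2, hG0, hG1, hG2]; ring
  have k1 := abs_mul3 aq as (abs_mul2 aD0 as)
  have k2 : |D1 * (q^2 * s)| ≤ 12 * q^3 := by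
    rw [abs_mul, abs_of_pos (by positivity : 0 < q^2 * s)]
    calc |D1| * (q^2 * s) ≤ 12 * (q^2 * q) := by
          apply mul_le_mul aD1 _ (by positivity) (by norm_num)
          exact mul_le_mul_of_nonneg_left hsq (by positivity)
      _ = 12 * q^3 := by ring
  have k3 : |D2 * q^3| ≤ 12 * q^3 := by
    rw [abs_mul, abs_of_pos q3]
    exact mul_le_mul_of_nonneg_right aD2 q3.le
  have e1 : q * q * (124 * q) = 124 * q^3 := by ring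
  rw [e1] at k1
  have hδ : |p^2 - x*q^2| ≤ 68 * q^3 := by
    rw [abs_le] at k1 k2 k3 ⊢
    constructor
    · linarith [k1.1, k2.2, k3.1]
    · linarith [k1.2, k2.1, k3.2]
  have hδ' := abs_le.1 hδ
  have hp0 : 0 < p := by
    have : 0 < q^4 := by positivity
    linarith
  have pl2 : (244 * q^4)^2 ≤ p^2 := pow_le_pow_left₀ (by positivity) hpl 2
  have pu2 : p^2 ≤ (293 * q^4)^2 := pow_le_pow_left₀ hp0.le hpu 2
  have q38 : q^3 ≤ q^8 := pow_le_pow_right₀ hq (by norm_num)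
  have e2 : (244 * q^4)^2 = 59536 * q^8 := by ring
  have e3 : (293 * q^4)^2 = 85849 * q^8 := by ring
  rw [e2] at pl2
  rw [e3] at pu2
  have q8 : 0 < q^8 := by positivity
  refine ⟨hδ, ?_, ?_⟩
  · have h : 59000 * q^6 * q^2 ≤ x * q^2 := by
      have e : 59000 * q^6 * q^2 = 59000 * q^8 := by ring
      rw [e]
      linarith [hδ'.2]
    exact le_of_mul_le_mul_right h (by positivity)
  · have h : x * q^2 ≤ 86000 * q^6 * q^2 := by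
      have e : 86000 * q^6 * q^2 = 86000 * q^8 := by ring
      rw [e]
      linarith [hδ'.1]
    exact le_of_mul_le_mul_right h (by positivity)

/-- **The construction.**  For coprime `q, s` with `q / 4 ≤ s < q` there is a point with
`A ≪ q²`, `B ≪ q³` and `x` of order `q⁶`. -/
theorem exists_point {q s : ℤ} (hq : 0 < q) (hs : q ≤ 4 * s) (hsq : s ≤ q)
    (hcop : IsCoprime q s) :
    ∃ x y A B p r : ℤ, p*s - r*q = 1 ∧ y^2 = x^3 + A*x + B ∧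
      0 < A ∧ (A:ℝ) ≤ 25000 * (q:ℝ)^2 ∧ |(B:ℝ)| ≤ 3000000 * (q:ℝ)^3 ∧
      244 * (q:ℝ)^4 ≤ p ∧ |(p:ℝ)^2 - x*(q:ℝ)^2| ≤ 68 * (q:ℝ)^3 ∧
      59000 * (q:ℝ)^6 ≤ x ∧ (x:ℝ) ≤ 86000 * (q:ℝ)^6 := by
  obtain ⟨x, y, A, p, r, hd, D0, D1, D2, D3, h0, h1, h2, h3, hG0, hG1, hG2, hG3⟩ :=
    exists_form hq hcop
  set m : ℤ := 3*x^2 + 4*A with hm
  set B : ℤ := y^2 - x^3 - A*x with hB
  have hqr : (1:ℝ) ≤ q := by exact_mod_cast hq
  have hsr : (q:ℝ) ≤ 4 * s := by exact_mod_cast hs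
  have hsqr : (s:ℝ) ≤ q := by exact_mod_cast hsq
  have hs0 : (0:ℝ) < s := by linarith
  have hval := value (x := x) (y := y) (m := m) hd
  have hI := invI x y m p q r s
  have hJ := invJ x y m p q r s
  have hp1 := polar1 (x := x) (y := y) (m := m) hd
  have hp2 := polar2 (x := x) (y := y) (m := m) hd
  rw [hd, one_pow, mul_one] at hI hJ
  have eI : (36 * x^2 - 12 * m) = - 48 * A := by rw [hm]; ring
  have eJ : 432 * x * m - 1728 * y^2 + 432 * x^3 = - 1728 * B := by rw [hm, hB]; ring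
  rw [eI] at hI
  rw [eJ] at hJ
  have hval' : (g0 x y m p q : ℝ) * (s:ℝ)^4 - (g1 x y m p q r s : ℝ) * (s:ℝ)^3 * q
      + (g2 x y m p q r s : ℝ) * (s:ℝ)^2 * (q:ℝ)^2 - (g3 x y m p q r s : ℝ) * s * (q:ℝ)^3
      + (g4 x y m r s : ℝ) * (q:ℝ)^4 = 1 := by exact_mod_cast hval
  have hI' : 12 * (g0 x y m p q : ℝ) * (g4 x y m r s : ℝ)
      - 3 * (g1 x y m p q r s : ℝ) * (g3 x y m p q r s : ℝ) + (g2 x y m p q r s : ℝ)^2
      = - 48 * (A:ℝ) := by exact_mod_cast hI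
  have hJ' : 72 * (g0 x y m p q : ℝ) * (g2 x y m p q r s : ℝ) * (g4 x y m r s : ℝ)
      + 9 * (g1 x y m p q r s : ℝ) * (g2 x y m p q r s : ℝ) * (g3 x y m p q r s : ℝ)
      - 27 * (g0 x y m p q : ℝ) * (g3 x y m p q r s : ℝ)^2
      - 27 * (g4 x y m r s : ℝ) * (g1 x y m p q r s : ℝ)^2
      - 2 * (g2 x y m p q r s : ℝ)^3 = - 1728 * (B:ℝ) := by exact_mod_cast hJ
  have hp1' : 4 * (g0 x y m p q : ℝ) * (s:ℝ)^3 - 3 * (g1 x y m p q r s : ℝ) * (s:ℝ)^2 * q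
      + 2 * (g2 x y m p q r s : ℝ) * s * (q:ℝ)^2 - (g3 x y m p q r s : ℝ) * (q:ℝ)^3
      = 4 * (p:ℝ) := by exact_mod_cast hp1
  have hp2' : 6 * (g0 x y m p q : ℝ) * (s:ℝ)^2 - 3 * (g1 x y m p q r s : ℝ) * s * q
      + (g2 x y m p q r s : ℝ) * (q:ℝ)^2 = 6 * (p:ℝ)^2 - 6 * (x:ℝ) * (q:ℝ)^2 := by
    exact_mod_cast hp2
  have aD0 : |D0| ≤ 124 := abs_le.2 ⟨by linarith [h0.1], h0.2.le⟩
  have aD1 : |D1| ≤ 12 := abs_le.2 ⟨h1.1, h1.2.le⟩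
  have aD2 : |D2| ≤ 12 := abs_le.2 ⟨h2.1, h2.2.le⟩
  have aD3 : |D3| ≤ 1024 := abs_le.2 ⟨h3.1, by linarith [h3.2]⟩
  obtain ⟨bG0, bG1, bG2, bG3, bG4, j, hj0, hj1, eG4⟩ :=
    facts_G hqr hs0 hsqr aD0 aD1 aD2 aD3 hG0 hG1 hG2 hG3 hval'
  obtain ⟨hA0, hA1⟩ := facts_A hqr hsr hs0 hsqr h0 aD1 aD2 h3 hG0 hG1 hG2 hG3 bG2 hj0 hj1 eG4 hI'
  have hB' := facts_B hqr bG0 bG1 bG2 bG3 bG4 hJ'
  obtain ⟨hpl, hpu⟩ := facts_p hqr hs0 hsqr h0 aD1 aD2 h3 hG0 hG1 hG2 hG3 hp1'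
  obtain ⟨hδ, hxl, hxu⟩ := facts_x hqr hs0 hsqr aD0 aD1 aD2 hG0 hG1 hG2 hpl hpu hp2'
  exact ⟨x, y, A, B, p, r, hd, by rw [hB]; ring, by exact_mod_cast hA0, hA1, hB', hpl, hδ,
    hxl, hxu⟩

/-- the point determines `(q, s)`. -/
theorem point_inj {q s p r q' s' p' r' x : ℤ} (hq : 0 < q) (hq' : 0 < q')
    (hs0 : 0 < s) (hsq : s < q) (hs0' : 0 < s') (hsq' : s' < q')
    (hd : p*s - r*q = 1) (hd' : p'*s' - r'*q' = 1)
    (hp : 244 * (q:ℝ)^4 ≤ p) (hp' : 244 * (q':ℝ)^4 ≤ p')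
    (h : |(p:ℝ)^2 - x*(q:ℝ)^2| ≤ 68 * (q:ℝ)^3) (h' : |(p':ℝ)^2 - x*(q':ℝ)^2| ≤ 68 * (q':ℝ)^3) :
    q = q' ∧ s = s' := by
  have hqr : (0:ℝ) < q := by exact_mod_cast hq
  have hqr' : (0:ℝ) < q' := by exact_mod_cast hq'
  have key : p * q' = p' * q := by
    by_contra hne
    have h1 : (1:ℝ) ≤ |(p:ℝ) * q' - p' * q| := by
      have : (1:ℤ) ≤ |p * q' - p' * q| := Int.one_le_abs (sub_ne_zero.2 hne)
      exact_mod_cast this
    have h2 : 244 * (q * q') * ((q:ℝ)^3 + (q':ℝ)^3) ≤ (p:ℝ) * q' + p' * q := by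
      have a := mul_le_mul_of_nonneg_right hp hqr'.le
      have b := mul_le_mul_of_nonneg_right hp' hqr.le
      have e : 244 * (q * q') * ((q:ℝ)^3 + (q':ℝ)^3) = 244 * (q:ℝ)^4 * q' + 244 * (q':ℝ)^4 * q := by
        ring
      linarith
    have h3 : |((p:ℝ) * q' - p' * q) * ((p:ℝ) * q' + p' * q)|
        ≤ 68 * (q:ℝ)^3 * (q':ℝ)^2 + 68 * (q':ℝ)^3 * (q:ℝ)^2 := by
      have e : ((p:ℝ) * q' - p' * q) * ((p:ℝ) * q' + p' * q)
        = ((p:ℝ)^2 - x*(q:ℝ)^2) * (q':ℝ)^2 - ((p':ℝ)^2 - x*(q':ℝ)^2) * (q:ℝ)^2 := by ring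
      rw [e]
      calc |((p:ℝ)^2 - x*(q:ℝ)^2) * (q':ℝ)^2 - ((p':ℝ)^2 - x*(q':ℝ)^2) * (q:ℝ)^2|
          ≤ |((p:ℝ)^2 - x*(q:ℝ)^2) * (q':ℝ)^2| + |((p':ℝ)^2 - x*(q':ℝ)^2) * (q:ℝ)^2| :=
            abs_sub _ _
        _ = |(p:ℝ)^2 - x*(q:ℝ)^2| * (q':ℝ)^2 + |(p':ℝ)^2 - x*(q':ℝ)^2| * (q:ℝ)^2 := by
            rw [abs_mul, abs_mul, abs_of_pos (by positivity : 0 < (q':ℝ)^2),
              abs_of_pos (by positivity : 0 < (q:ℝ)^2)]
        _ ≤ _ := by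
            apply add_le_add
            · exact mul_le_mul_of_nonneg_right h (by positivity)
            · exact mul_le_mul_of_nonneg_right h' (by positivity)
    have hS : 0 < (q:ℝ) * q' := mul_pos hqr hqr'
    have hpos : 0 < 244 * ((q:ℝ) * q') * ((q:ℝ)^3 + (q':ℝ)^3) := by positivity
    rw [abs_mul, abs_of_pos (lt_of_lt_of_le hpos h2)] at h3
    have h4 : 244 * ((q:ℝ) * q') * ((q:ℝ)^3 + (q':ℝ)^3)
        ≤ 68 * (q:ℝ)^3 * (q':ℝ)^2 + 68 * (q':ℝ)^3 * (q:ℝ)^2 := by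
      calc 244 * ((q:ℝ) * q') * ((q:ℝ)^3 + (q':ℝ)^3) ≤ (p:ℝ) * q' + p' * q := h2
        _ = 1 * ((p:ℝ) * q' + p' * q) := by ring
        _ ≤ |(p:ℝ) * q' - p' * q| * ((p:ℝ) * q' + p' * q) :=
            mul_le_mul_of_nonneg_right h1 (le_trans hpos.le h2)
        _ ≤ _ := h3
    have h5 : 244 * ((q:ℝ)^3 + (q':ℝ)^3) ≤ 68 * ((q:ℝ) * q') * (q + q') := by
      have e : 68 * (q:ℝ)^3 * (q':ℝ)^2 + 68 * (q':ℝ)^3 * (q:ℝ)^2
        = ((q:ℝ) * q') * (68 * ((q:ℝ) * q') * (q + q')) := by ring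
      have e' : 244 * ((q:ℝ) * q') * ((q:ℝ)^3 + (q':ℝ)^3)
        = ((q:ℝ) * q') * (244 * ((q:ℝ)^3 + (q':ℝ)^3)) := by ring
      rw [e, e'] at h4
      exact le_of_mul_le_mul_left h4 hS
    have h6 : ((q:ℝ) * q') * (q + q') ≤ (q:ℝ)^3 + (q':ℝ)^3 := by
      have e : (q:ℝ)^3 + (q':ℝ)^3 - ((q:ℝ) * q') * (q + q') = (q + q') * ((q:ℝ) - q')^2 := by ring
      have : 0 ≤ ((q:ℝ) + q') * ((q:ℝ) - q')^2 := by positivity
      linarith
    have h7 : 0 < ((q:ℝ) * q') * (q + q') := by positivity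
    nlinarith only [h5, h6, h7]
  -- coprimality
  have c1 : IsCoprime q p := ⟨-r, s, by linarith⟩
  have c2 : IsCoprime q' p' := ⟨-r', s', by linarith⟩
  have d1 : q ∣ q' := c1.dvd_of_dvd_mul_left ⟨p', by rw [key]; ring⟩
  have d2 : q' ∣ q := c2.dvd_of_dvd_mul_left ⟨p, by rw [← key]; ring⟩
  have hqq : q = q' := le_antisymm (Int.le_of_dvd hq' d1) (Int.le_of_dvd hq d2)
  subst hqq
  have hpp : p = p' := mul_right_cancel₀ hq.ne' key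
  subst hpp
  refine ⟨rfl, ?_⟩
  have hdv : q ∣ s - s' := by
    apply c1.dvd_of_dvd_mul_left
    exact ⟨r - r', by linear_combination hd - hd'⟩
  have : s - s' = 0 := by
    apply Int.eq_zero_of_abs_lt_dvd hdv
    rw [abs_lt]; constructor <;> linarith
  linarith

end Pool.Agent.HLS72
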