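import Mathlib

/-!
# Counting coprime pairs
-/

namespace Pool.Agent.HLS72

open Finset

/-- `∑_{d ≤ N} φ(d) ⌊N / d⌋ = 1 + ... + N` -/
lemma sum_totient_floor (N : ℕ) :
    ∑ d ∈ Ioc 0 N, Nat.totient d * (N / d) = ∑ n ∈ Ioc 0 N, n := by
  have h1 : ∀ n ∈ Ioc 0 N, n = ∑ d ∈ (Ioc 0 N).filter (· ∣ n), Nat.totient d := by
    intro n hn
    rw [mem_Ioc] at hn
    have e : (Ioc 0 N).filter (· ∣ n) = n.divisors := by
      ext d
      simp only [mem_filter, mem_Ioc, Nat.mem_divisors]
      constructor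
      · rintro ⟨_, h⟩; exact ⟨h, by omega⟩
      · rintro ⟨h, _⟩
        exact ⟨⟨Nat.pos_of_dvd_of_pos h (by omega), le_trans (Nat.le_of_dvd (by omega) h) hn.2⟩, h⟩
    rw [e, Nat.sum_totient]
  rw [sum_congr rfl h1]
  have h2 : ∑ n ∈ Ioc 0 N, ∑ d ∈ (Ioc 0 N).filter (· ∣ n), Nat.totient d
      = ∑ d ∈ Ioc 0 N, ∑ n ∈ (Ioc 0 N).filter (d ∣ ·), Nat.totient d := by
    apply sum_comm'
    intro x y
    simp only [mem_filter]
    tauto
  rw [h2]
  apply sum_congr rfl
  intro d hd
  rw [sum_const, Nat.Ioc_filter_dvd_card_eq_div, smul_eq_mul, mul_comm]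

lemma sum_totient_lower (N : ℕ) : N ^ 2 ≤ 12 * ∑ d ∈ Ioc 0 N, Nat.totient d := by
  have h1 : ∀ d ∈ Ioc 0 N, Nat.totient d * (N / d) ≤
      3 * Nat.totient d + (if d ≤ N / 4 then N else 0) := by
    intro d hd
    rw [mem_Ioc] at hd
    split_ifs with h
    · have a : Nat.totient d ≤ d := Nat.totient_le d
      have b : d * (N / d) ≤ N := Nat.mul_div_le N d
      calc Nat.totient d * (N / d) ≤ d * (N / d) := Nat.mul_le_mul_right _ a
        _ ≤ N := b
        _ ≤ _ := Nat.le_add_left _ _
    · have : N / d ≤ 3 := by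
        have h4 : N < 4 * d := by omega
        have : N / d < 4 := by
          rw [Nat.div_lt_iff_lt_mul hd.1]; exact h4
        omega
      calc Nat.totient d * (N / d) ≤ Nat.totient d * 3 := Nat.mul_le_mul_left _ this
        _ = 3 * Nat.totient d + 0 := by ring
  have h2 := sum_le_sum h1
  rw [sum_totient_floor, sum_add_distrib, ← mul_sum] at h2
  have h3 : ∑ d ∈ Ioc 0 N, (if d ≤ N / 4 then N else 0) ≤ (N / 4) * N := by
    rw [← sum_filter, sum_const, smul_eq_mul]
    apply Nat.mul_le_mul_right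
    calc ((Ioc 0 N).filter (· ≤ N / 4)).card ≤ (Ioc 0 (N / 4)).card := by
          apply card_le_card
          intro d hd
          simp only [mem_filter, mem_Ioc] at hd ⊢
          exact ⟨hd.1.1, hd.2⟩
      _ = N / 4 := by simp
  have h4 : 2 * ∑ n ∈ Ioc 0 N, n = N * (N + 1) := by
    clear h1 h2 h3
    induction N with
    | zero => simp
    | succ n ih =>
      rw [sum_Ioc_succ_top (by omega), mul_add, ih]; ring
  have h5 : 4 * ((N / 4) * N) ≤ N * N := by
    calc 4 * ((N / 4) * N) = (4 * (N / 4)) * N := by ring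
      _ ≤ N * N := Nat.mul_le_mul_right _ (Nat.mul_div_le N 4)
  nlinarith

/-- at least half of the residues coprime to `q` are at least `q / 2` -/
lemma half_totient {q : ℕ} (hq : 2 ≤ q) :
    Nat.totient q ≤ 2 * ((range q).filter (fun s => q ≤ 2 * s ∧ Nat.Coprime q s)).card := by
  rw [Nat.totient_eq_card_coprime]
  have h1 : ((range q).filter (fun s => Nat.Coprime q s)).card
      = ((range q).filter (fun s => q ≤ 2 * s ∧ Nat.Coprime q s)).card
        + ((range q).filter (fun s => ¬ q ≤ 2 * s ∧ Nat.Coprime q s)).card := by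
    rw [← card_union_of_disjoint]
    · congr 1
      ext s
      simp only [mem_filter, mem_range, mem_union]
      tauto
    · rw [disjoint_left]
      intro s h h'
      simp only [mem_filter, mem_range] at h h'
      exact h'.2.1 h.2.1
  have h2 : ((range q).filter (fun s => ¬ q ≤ 2 * s ∧ Nat.Coprime q s)).card
      ≤ ((range q).filter (fun s => q ≤ 2 * s ∧ Nat.Coprime q s)).card := by
    apply card_le_card_of_injOn (fun s => q - s)
    · intro s hs
      simp only [coe_filter, mem_range, Set.mem_ofPred_eq] at hs ⊢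
      obtain ⟨h1, h2, h3⟩ := hs
      have hs0 : s ≠ 0 := by
        rintro rfl
        rw [Nat.coprime_zero_right] at h3
        omega
      refine ⟨by omega, by omega, ?_⟩
      rw [Nat.coprime_self_sub_right (by omega)]
      exact h3
    · intro s hs t ht h
      simp only [coe_filter, mem_range, Set.mem_ofPred_eq] at hs ht h
      omega
  omega

/-- the coprime pairs used in the construction -/
def Prs (N : ℕ) : Finset (ℕ × ℕ) :=
  ((Ioc 0 N) ×ˢ (range N)).filter (fun v => v.2 < v.1 ∧ v.1 ≤ 2 * v.2 ∧ Nat.Coprime v.1 v.2)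

lemma card_Prs (N : ℕ) : N ^ 2 ≤ 24 * (Prs N).card + 12 := by
  have h1 : (Prs N).card = ∑ q ∈ Ioc 0 N,
      ((range N).filter (fun s => s < q ∧ q ≤ 2 * s ∧ Nat.Coprime q s)).card := by
    unfold Prs
    rw [card_filter, sum_product]
    apply sum_congr rfl
    intro q _
    rw [card_filter]
  have h2 : ∀ q ∈ Ioc 0 N, Nat.totient q ≤
      2 * ((range N).filter (fun s => s < q ∧ q ≤ 2 * s ∧ Nat.Coprime q s)).card
        + (if q = 1 then 1 else 0) := by
    intro q hq
    rw [mem_Ioc] at hq
    split_ifs with h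
    · rw [h]; simp
    · have e : (range N).filter (fun s => s < q ∧ q ≤ 2 * s ∧ Nat.Coprime q s)
          = (range q).filter (fun s => q ≤ 2 * s ∧ Nat.Coprime q s) := by
        ext s
        simp only [mem_filter, mem_range]
        constructor
        · rintro ⟨_, h1, h2⟩; exact ⟨h1, h2⟩
        · rintro ⟨h1, h2⟩; exact ⟨by omega, h1, h2⟩
      rw [e]
      have := half_totient (q := q) (by omega)
      omega
  have h3 := sum_le_sum h2
  rw [sum_add_distrib, ← mul_sum, ← h1] at h3
  have h4 : ∑ q ∈ Ioc 0 N, (if q = 1 then 1 else 0) ≤ 1 := by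
    rw [sum_ite_eq']
    split_ifs <;> omega
  have h5 := sum_totient_lower N
  omega

end Pool.Agent.HLS72
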