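import Mathlib
import Pool.Agent.LibHLS72.Low2
import Pool.Agent.LibHLS72.Low3
import Pool.Agent.LibHLS72.Fin

/-!
# Many violations of the Hall-Lang inequality with the exponent `9/2`
-/

namespace Pool.Agent.HLS72

open Finset

lemma viol_of {K X : ℝ} (hK : 0 < K) (hK1 : K ≤ 1 / 10^13) {q x y A B : ℤ} (hq : 0 < q)
    (he : y^2 = x^3 + A*x + B) (hA0 : 0 < A) (hA : (A:ℝ) ≤ 25000 * (q:ℝ)^2)
    (hB : |(B:ℝ)| ≤ 3000000 * (q:ℝ)^3) (hx : 59000 * (q:ℝ)^6 ≤ x)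
    (hx' : (x:ℝ) ≤ 86000 * (q:ℝ)^6) (hX : 86000 * (q:ℝ)^6 ≤ X) :
    (A, B, x, y) ∈ Viol (9/2) K X := by
  have hq1 : (1:ℝ) ≤ q := by exact_mod_cast hq
  have hq0 : (0:ℝ) < q := by linarith
  have q6 : 0 < (q:ℝ)^6 := by positivity
  have hx0 : (0:ℝ) < x := by linarith
  have hA0r : (0:ℝ) < A := by exact_mod_cast hA0
  have q3 : 1 ≤ (q:ℝ)^3 := one_le_pow₀ hq1
  refine ⟨?_, he, ?_, ?_⟩
  · have : 0 < A^3 := pow_pos hA0 3
    have h2 : 0 ≤ B^2 := sq_nonneg B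
    change 4 * A^3 + 27 * B^2 ≠ 0
    omega
  · change |(x:ℝ)| ≤ X
    rw [abs_of_pos hx0]
    linarith
  · change K * (max (|(A:ℝ)|^3) ((B:ℝ)^2))^((9/2:ℝ)/3) < max |(x:ℝ)| |(y:ℝ)|
    refine lt_of_lt_of_le ?_ (le_max_right _ _)
    have e : ((9/2:ℝ)/3) = 3/2 := by norm_num
    rw [e]
    have hm : max (|(A:ℝ)|^3) ((B:ℝ)^2) ≤ (4000000 * (q:ℝ)^3)^2 := by
      apply max_le
      · rw [abs_of_pos hA0r]
        calc (A:ℝ)^3 ≤ (25000 * (q:ℝ)^2)^3 := pow_le_pow_left₀ hA0r.le hA 3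
          _ = 15625000000000 * (q:ℝ)^6 := by ring
          _ ≤ 16000000000000 * (q:ℝ)^6 := by linarith
          _ = _ := by ring
      · rw [← sq_abs]
        calc |(B:ℝ)|^2 ≤ (3000000 * (q:ℝ)^3)^2 := pow_le_pow_left₀ (abs_nonneg _) hB 2
          _ = 9000000000000 * (q:ℝ)^6 := by ring
          _ ≤ 16000000000000 * (q:ℝ)^6 := by linarith
          _ = _ := by ring
    have hm0 : 0 ≤ max (|(A:ℝ)|^3) ((B:ℝ)^2) := le_trans (sq_nonneg _) (le_max_right _ _)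
    have h1 : (max (|(A:ℝ)|^3) ((B:ℝ)^2))^(3/2:ℝ) ≤ (4000000 * (q:ℝ)^3)^3 := by
      calc (max (|(A:ℝ)|^3) ((B:ℝ)^2))^(3/2:ℝ)
          ≤ ((4000000 * (q:ℝ)^3)^2)^(3/2:ℝ) := Real.rpow_le_rpow hm0 hm (by norm_num)
        _ = (4000000 * (q:ℝ)^3)^3 := by
            have hb : (0:ℝ) ≤ 4000000 * (q:ℝ)^3 := by positivity
            rw [← Real.rpow_natCast _ 2, ← Real.rpow_mul hb, ← Real.rpow_natCast _ 3]
            norm_num
    have q9 : 0 < (q:ℝ)^9 := by positivity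
    have h2 : K * (max (|(A:ℝ)|^3) ((B:ℝ)^2))^(3/2:ℝ) ≤ 6400000 * (q:ℝ)^9 := by
      calc K * (max (|(A:ℝ)|^3) ((B:ℝ)^2))^(3/2:ℝ)
          ≤ (1 / 10^13) * (4000000 * (q:ℝ)^3)^3 := by
            apply mul_le_mul hK1 h1 (Real.rpow_nonneg hm0 _) (by norm_num)
        _ = 6400000 * (q:ℝ)^9 := by ring
    have h3 : (14000000 * (q:ℝ)^9)^2 < |(y:ℝ)|^2 := by
      rw [sq_abs]
      have he' : (y:ℝ)^2 = (x:ℝ)^3 + A*x + B := by exact_mod_cast he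
      rw [he']
      have h4 : (59000 * (q:ℝ)^6)^3 ≤ (x:ℝ)^3 := pow_le_pow_left₀ (by positivity) hx 3
      have h5 : 0 < (A:ℝ) * x := mul_pos hA0r hx0
      have h6 := (abs_le.1 hB).1
      have h7 : (q:ℝ)^3 ≤ (q:ℝ)^18 := pow_le_pow_right₀ hq1 (by norm_num)
      have e1 : (59000 * (q:ℝ)^6)^3 = 205379000000000 * (q:ℝ)^18 := by ring
      have e2 : (14000000 * (q:ℝ)^9)^2 = 196000000000000 * (q:ℝ)^18 := by ring
      have q18 : 0 < (q:ℝ)^18 := by positivity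
      rw [e1] at h4
      rw [e2]
      linarith
    have h4 : 14000000 * (q:ℝ)^9 < |(y:ℝ)| := lt_of_pow_lt_pow_left₀ 2 (abs_nonneg _) h3
    linarith

/-- the points attached to the coprime pairs are different. -/
lemma card_le_viol {K X : ℝ} (hK : 0 < K) (hK1 : K ≤ 1 / 10^13) (N : ℕ)
    (hX : 86000 * (N:ℝ)^6 ≤ X) (hfin : (Viol (9/2) K X).Finite) :
    (Prs N).card ≤ (Viol (9/2) K X).ncard := by
  have hex : ∀ v : ℕ × ℕ, v ∈ Prs N → ∃ w : ℤ × ℤ × ℤ × ℤ, w ∈ Viol (9/2) K X ∧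
      ∃ p r : ℤ, p*(v.2:ℤ) - r*(v.1:ℤ) = 1 ∧ 244 * ((v.1:ℤ):ℝ)^4 ≤ p ∧
        |(p:ℝ)^2 - (w.2.2.1:ℤ)*((v.1:ℤ):ℝ)^2| ≤ 68 * ((v.1:ℤ):ℝ)^3 := by
    intro v hv
    simp only [Prs, mem_filter, mem_product, mem_Ioc, mem_range] at hv
    obtain ⟨⟨⟨hv0, hvN⟩, _⟩, h1, h2, h3⟩ := hv
    obtain ⟨x, y, A, B, p, r, hd, he, hA0, hA, hB, hp, hδ, hxl, hxu⟩ :=
      exists_point (q := (v.1:ℤ)) (s := (v.2:ℤ)) (by exact_mod_cast hv0) (by omega) (by omega)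
        (Nat.isCoprime_iff_coprime.2 h3)
    refine ⟨(A, B, x, y), viol_of hK hK1 (by exact_mod_cast hv0) he hA0 hA hB hxl hxu ?_,
      p, r, hd, hp, hδ⟩
    have : ((v.1:ℤ):ℝ)^6 ≤ (N:ℝ)^6 := by
      apply pow_le_pow_left₀ (by positivity)
      exact_mod_cast hvN
    linarith
  choose! f hf using hex
  have hinj : Set.InjOn f (Prs N : Set (ℕ × ℕ)) := by
    intro v hv w hw hvw
    obtain ⟨_, p, r, hd, hp, hδ⟩ := hf v hv
    obtain ⟨_, p', r', hd', hp', hδ'⟩ := hf w hw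
    rw [hvw] at hδ
    have hv' := hv
    have hw' := hw
    simp only [Prs, mem_coe, mem_filter, mem_product, mem_Ioc, mem_range] at hv' hw'
    obtain ⟨⟨⟨a1, _⟩, _⟩, a2, a3, _⟩ := hv'
    obtain ⟨⟨⟨b1, _⟩, _⟩, b2, b3, _⟩ := hw'
    obtain ⟨e1, e2⟩ := point_inj (q := (v.1:ℤ)) (s := (v.2:ℤ)) (q' := (w.1:ℤ)) (s' := (w.2:ℤ))
      (by omega) (by omega) (by omega) (by omega) (by omega) (by omega) hd hd' hp hp' hδ hδ'
    apply Prod.ext
    · exact_mod_cast e1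
    · exact_mod_cast e2
  calc (Prs N).card = ((Prs N).image f).card := (card_image_of_injOn hinj).symm
    _ = (((Prs N).image f : Finset _) : Set (ℤ × ℤ × ℤ × ℤ)).ncard := (Set.ncard_coe_finset _).symm
    _ ≤ (Viol (9/2) K X).ncard := by
        apply Set.ncard_le_ncard _ hfin
        intro w hw
        simp only [coe_image, Set.mem_image, mem_coe] at hw
        obtain ⟨v, hv, rfl⟩ := hw
        exact (hf v hv).1

lemma triv_viol {K X : ℝ} (hK1 : K ≤ 1 / 10^13) (hX : 1 ≤ X) :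
    ((0, 1, 0, 1) : ℤ × ℤ × ℤ × ℤ) ∈ Viol (9/2) K X := by
  refine ⟨by norm_num, by norm_num, ?_, ?_⟩
  · norm_num; linarith
  · norm_num
    linarith

/-- **Many violations** of the inequality with the exponent `9/2`. -/
theorem many {K X : ℝ} (hK : 0 < K) (hK1 : K ≤ 1 / 10^13) (hX : 1 ≤ X) :
    X^(1/3:ℝ) / 20000 ≤ ((Viol (9/2) K X).ncard : ℝ) := by
  obtain ⟨_, hfin⟩ := sparse (9/2) K 1 le_rfl hK one_pos
  have hfin := (hfin X hX).1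
  have hX0 : 0 < X := by linarith
  set u : ℝ := (X/86000)^(1/6:ℝ) with hu
  have hu0 : 0 < u := Real.rpow_pos_of_pos (by positivity) _
  have hu6 : u^6 = X/86000 := by
    rw [hu, ← Real.rpow_natCast, ← Real.rpow_mul (by positivity)]
    norm_num
  have hX3 : X^(1/3:ℝ) ≤ 45 * u^2 := by
    have h1 : X ≤ (45 * u^2)^3 := by
      have : (45 * u^2)^3 = 91125 * u^6 := by ring
      rw [this, hu6]; linarith
    calc X^(1/3:ℝ) ≤ ((45 * u^2)^3)^(1/3:ℝ) := Real.rpow_le_rpow hX0.le h1 (by norm_num)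
      _ = 45 * u^2 := by
        rw [← Real.rpow_natCast _ 3, ← Real.rpow_mul (by positivity)]
        norm_num
  set N : ℕ := ⌊u⌋₊ with hN
  have hNu : (N:ℝ) ≤ u := Nat.floor_le hu0.le
  have huN : u < N + 1 := Nat.lt_floor_add_one u
  have hNX : 86000 * (N:ℝ)^6 ≤ X := by
    have : (N:ℝ)^6 ≤ u^6 := pow_le_pow_left₀ (by positivity) hNu 6
    rw [hu6] at this
    linarith
  rcases le_or_gt 4 N with h4 | h4
  · have h4r : (4:ℝ) ≤ N := by exact_mod_cast h4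
    have c1 : ((N:ℝ))^2 ≤ 24 * ((Prs N).card : ℝ) + 12 := by exact_mod_cast card_Prs N
    have c2 : ((Prs N).card : ℝ) ≤ ((Viol (9/2) K X).ncard : ℝ) := by
      exact_mod_cast card_le_viol hK hK1 N hNX hfin
    have c3 : u ≤ 5/4 * N := by linarith
    have c4 : u^2 ≤ (5/4 * (N:ℝ))^2 := pow_le_pow_left₀ hu0.le c3 2
    nlinarith
  · have h4r : (N:ℝ) ≤ 3 := by
      have : N ≤ 3 := by omega
      exact_mod_cast this
    have c1 : (1:ℝ) ≤ ((Viol (9/2) K X).ncard : ℝ) := by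
      have : 0 < (Viol (9/2) K X).ncard := by
        rw [Set.ncard_pos hfin]
        exact ⟨_, triv_viol hK1 hX⟩
      exact_mod_cast this
    have c2 : u^2 ≤ 4^2 := pow_le_pow_left₀ hu0.le (by linarith) 2
    nlinarith

end Pool.Agent.HLS72
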