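import Pool.Agent.LibHLS72.Y2

/-!
# Sparsity of the pairs with `0 < |y² - x³| ≤ C |x|^e`
-/

namespace Pool.Agent.HLS72

noncomputable section

/-- the pairs with `|x| ≤ X` and `0 < |y² - x³| ≤ C |x|^e` -/
def Small (C e X : ℝ) : Set (ℤ × ℤ) :=
  {P | |(P.1:ℝ)| ≤ X ∧ P.2^2 ≠ P.1^3 ∧ |(P.2:ℝ)^2 - (P.1:ℝ)^3| ≤ C * |(P.1:ℝ)|^e}

/-- a box of pairs -/
private lemma Y4_box (R : ℝ) (hR : 0 ≤ R) (F : Finset (ℤ × ℤ))
    (hF : ∀ P ∈ F, |(P.1:ℝ)| ≤ R ∧ |(P.2:ℝ)| ≤ R) : (F.card : ℝ) ≤ (2 * R + 1)^2 := by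
  classical
  set I : Finset ℤ := Finset.Icc (-⌊R⌋) ⌊R⌋ with hI
  have hmem : ∀ z : ℤ, |(z:ℝ)| ≤ R → z ∈ I := by
    intro z hz
    rw [abs_le] at hz
    rw [hI, Finset.mem_Icc]
    have h1 : z ≤ ⌊R⌋ := Int.le_floor.mpr hz.2
    have h2 : -z ≤ ⌊R⌋ := Int.le_floor.mpr (by push_cast; linarith)
    omega
  have hsub : F ⊆ I ×ˢ I := by
    intro P hP
    obtain ⟨h1, h2⟩ := hF P hP
    simp only [Finset.mem_product]
    exact ⟨hmem _ h1, hmem _ h2⟩
  have hIc : (I.card : ℝ) ≤ 2 * R + 1 := by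
    rw [hI, Int.card_Icc]
    have h0 : 0 ≤ ⌊R⌋ := Int.floor_nonneg.mpr hR
    have h1 : ((⌊R⌋ + 1 - -⌊R⌋).toNat : ℤ) = 2 * ⌊R⌋ + 1 := by
      rw [Int.toNat_of_nonneg (by omega)]; ring
    have h2 : ((⌊R⌋ + 1 - -⌊R⌋).toNat : ℝ) = 2 * (⌊R⌋:ℝ) + 1 := by exact_mod_cast h1
    rw [h2]
    have := Int.floor_le R
    linarith
  have hc := Finset.card_le_card hsub
  rw [Finset.card_product] at hc
  have hcR : (F.card : ℝ) ≤ (I.card:ℝ) * I.card := by exact_mod_cast hc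
  calc (F.card : ℝ) ≤ (I.card:ℝ) * I.card := hcR
    _ = (I.card:ℝ)^2 := by ring
    _ ≤ (2 * R + 1)^2 := pow_le_pow_left₀ (Nat.cast_nonneg _) hIc 2

/-- the coordinates of a small pair in terms of `max(1, |x|)` -/
private lemma Y4_coords {C e X c : ℝ} (he0 : 0 ≤ e) (he1 : e ≤ 1/2) (hc : c = max C 1)
    {P : ℤ × ℤ} (hP : P ∈ Small C e X) {ξ : ℝ} (hξ : max 1 |(P.1:ℝ)| ≤ ξ) :
    |(P.1:ℝ)| ≤ 2 * c * ξ^3 ∧ |(P.2:ℝ)| ≤ 2 * c * ξ^3 ∧ (P.1 ≤ 0 → |(P.1:ℝ)| ≤ c) := by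
  obtain ⟨_, _, h3⟩ := hP
  obtain ⟨x, y⟩ := P
  simp only at h3 hξ ⊢
  have hc1 : 1 ≤ c := by rw [hc]; exact le_max_right _ _
  have hCc : C ≤ c := by rw [hc]; exact le_max_left _ _
  have hξ1 : 1 ≤ ξ := (le_max_left _ _).trans hξ
  have hξx : |(x:ℝ)| ≤ ξ := (le_max_right _ _).trans hξ
  set ξ0 : ℝ := max 1 |(x:ℝ)| with hξ0
  have hξ01 : 1 ≤ ξ0 := le_max_left _ _
  have hxe : |(x:ℝ)|^e ≤ ξ0 := by
    calc |(x:ℝ)|^e ≤ ξ0^e := Real.rpow_le_rpow (abs_nonneg _) (le_max_right _ _) he0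
      _ ≤ ξ0^(1:ℝ) := Real.rpow_le_rpow_of_exponent_le hξ01 (by linarith)
      _ = ξ0 := Real.rpow_one _
  have hxe0 : 0 ≤ |(x:ℝ)|^e := by positivity
  have h4 : |(y:ℝ)^2 - (x:ℝ)^3| ≤ c * ξ0 := by
    calc |(y:ℝ)^2 - (x:ℝ)^3| ≤ C * |(x:ℝ)|^e := h3
      _ ≤ c * |(x:ℝ)|^e := by gcongr
      _ ≤ c * ξ0 := by gcongr
  have h5 := abs_le.mp h4
  have hξ3 : ξ ≤ ξ^3 := by nlinarith [sq_nonneg ξ]
  have hξ30 : 0 < ξ^3 := by positivity
  refine ⟨?_, ?_, ?_⟩
  · calc |(x:ℝ)| ≤ ξ := hξx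
      _ ≤ ξ^3 := hξ3
      _ ≤ 2 * c * ξ^3 := by nlinarith
  · have k1 : |(y:ℝ)| ≤ (y:ℝ)^2 := by
      by_cases hy : y = 0
      · rw [hy]; simp
      · have hy1 : (1:ℝ) ≤ |(y:ℝ)| := by
          have : (1:ℤ) ≤ |y| := Int.one_le_abs hy
          exact_mod_cast this
        rw [← sq_abs]; nlinarith
    have k2 : (x:ℝ)^3 ≤ ξ^3 := by
      calc (x:ℝ)^3 ≤ |(x:ℝ)^3| := le_abs_self _
        _ = |(x:ℝ)|^3 := abs_pow _ _
        _ ≤ ξ^3 := pow_le_pow_left₀ (abs_nonneg _) hξx 3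
    have k3 : c * ξ0 ≤ c * ξ^3 := by
      have : ξ0 ≤ ξ^3 := hξ.trans hξ3
      gcongr
    have k4 : ξ^3 ≤ c * ξ^3 := by nlinarith
    linarith
  · intro hx0
    rcases hx0.lt_or_eq with hxneg | hx0
    · have hx1 : (1:ℝ) ≤ |(x:ℝ)| := by
        have : (1:ℤ) ≤ |x| := Int.one_le_abs hxneg.ne
        exact_mod_cast this
      have hxx : ξ0 = |(x:ℝ)| := by rw [hξ0]; exact max_eq_right hx1
      have hxR : (x:ℝ)^3 = -|(x:ℝ)|^3 := by
        rw [abs_of_neg (by exact_mod_cast hxneg)]; ring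
      rw [hxx, hxR] at h5
      set u : ℝ := |(x:ℝ)| with hu
      have k1 : u^3 ≤ c * u := by
        have := sq_nonneg (y:ℝ)
        linarith [h5.2]
      have k2 : u^2 * u ≤ c * u := by nlinarith
      have k3 : u^2 ≤ c := le_of_mul_le_mul_right k2 (by linarith)
      nlinarith
    · rw [hx0]; simp; linarith

theorem hall_sparse (C e η : ℝ) (he0 : 0 ≤ e) (he1 : e ≤ 1/2) (hη : 0 < η) :
    ∃ C' : ℝ, ∀ X : ℝ, 1 ≤ X → (Small C e X).Finite ∧
      ((Small C e X).ncard : ℝ) ≤ C' * X^(1/4 + e/6 + η) := by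
  classical
  obtain ⟨c, hc⟩ : ∃ c : ℝ, c = max C 1 := ⟨_, rfl⟩
  have hc1 : 1 ≤ c := by rw [hc]; exact le_max_right _ _
  have hCc : C ≤ c := by rw [hc]; exact le_max_left _ _
  obtain ⟨C0, T0, hC0, hT0, hblock⟩ := block_count (4 * c^2) (2*e) (2*η) (by positivity)
    (by linarith) (by positivity)
  set g : ℝ := 1/2 + (2*e)/6 + 2*η with hg
  have hg0 : 0 < g := by positivity
  have h2g : 1 < (2:ℝ)^g := Real.one_lt_rpow (by norm_num) hg0
  set C1 : ℝ := C0 / ((2:ℝ)^g - 1) with hC1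
  have hC10 : 0 < C1 := by rw [hC1]; apply div_pos hC0; linarith
  have hC1e : C1 * (2:ℝ)^g = C1 + C0 := by
    have : C1 * ((2:ℝ)^g - 1) = C0 := by rw [hC1]; field_simp [(by linarith : (2:ℝ)^g - 1 ≠ 0)]
    linarith
  have hT00 : 0 < T0 := by linarith
  -- large points: dyadic induction
  have hlarge : ∀ (X : ℝ) (m : ℕ) (F : Finset (ℤ × ℤ)),
      (∀ P ∈ F, P ∈ Small C e X ∧ T0^2 ≤ (P.1:ℝ) ∧ (P.1:ℝ) < (T0 * 2^m)^2) →
      (F.card : ℝ) ≤ C1 * (T0 * 2^m)^g := by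
    intro X m
    induction m with
    | zero =>
      intro F hF
      have : F = ∅ := by
        apply Finset.eq_empty_of_forall_notMem
        intro P hP
        obtain ⟨_, k1, k2⟩ := hF P hP
        rw [pow_zero, mul_one] at k2
        linarith
      rw [this]
      simp only [Finset.card_empty, Nat.cast_zero]
      positivity
    | succ m ih =>
      intro F hF
      set T : ℝ := T0 * 2^m with hT
      have hTT0 : T0 ≤ T := by
        rw [hT]; nlinarith [one_le_pow₀ (by norm_num : (1:ℝ) ≤ 2) (n := m)]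
      have hTpos : 0 < T := by linarith
      have hs : T0 * 2^(m+1) = 2 * T := by rw [hT, pow_succ]; ring
      have k1 : ((F.filter (fun P => (P.1:ℝ) < T^2)).card : ℝ) ≤ C1 * T^g := by
        apply ih
        intro P hP
        rw [Finset.mem_filter] at hP
        exact ⟨(hF P hP.1).1, (hF P hP.1).2.1, hP.2⟩
      have k2 : ((F.filter (fun P => ¬ (P.1:ℝ) < T^2)).card : ℝ) ≤ C0 * T^g := by
        set φ : ℤ × ℤ → ℤ × ℤ × ℤ × ℤ := fun P => (0, P.2^2 - P.1^3, P.1, P.2) with hφ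
        have hinj : Function.Injective φ := by
          intro P Q h
          simp only [hφ, Prod.mk.injEq] at h
          exact Prod.ext h.2.2.1 h.2.2.2
        rw [← Finset.card_image_of_injective _ hinj]
        apply hblock T hTT0
        intro P' hP'
        rw [Finset.mem_image] at hP'
        obtain ⟨P, hP, rfl⟩ := hP'
        rw [Finset.mem_filter, not_lt] at hP
        obtain ⟨v, v1, v2⟩ := hF P hP.1
        have v3 : (P.1:ℝ) < 4 * T^2 := by
          rw [hs] at v2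
          calc (P.1:ℝ) < (2*T)^2 := v2
            _ = 4 * T^2 := by ring
        have hT1 : 1 ≤ T^2 := one_le_pow₀ (hT0.trans hTT0)
        have hx1 : (1:ℝ) ≤ P.1 := hT1.trans hP.2
        obtain ⟨_, w1, w2⟩ := v
        rw [abs_of_pos (by linarith : (0:ℝ) < P.1)] at w2
        have w3 : |(P.2:ℝ)^2 - (P.1:ℝ)^3| ≤ c * (4 * T^2)^e := by
          calc |(P.2:ℝ)^2 - (P.1:ℝ)^3| ≤ C * (P.1:ℝ)^e := w2
            _ ≤ c * (P.1:ℝ)^e := by gcongr
            _ ≤ c * (4 * T^2)^e := by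
              apply mul_le_mul_of_nonneg_left _ (by linarith)
              exact Real.rpow_le_rpow (by linarith) v3.le he0
        have w4 : ((4 * T^2)^e)^2 ≤ 4 * T^(2*(2*e)) := by
          have u1 : ((4 * T^2)^e)^2 = 4^(2*e) * T^(2*(2*e)) := by
            rw [← Real.rpow_natCast ((4 * T^2)^e) 2, ← Real.rpow_mul (by positivity),
              Real.mul_rpow (by norm_num) (by positivity), ← Real.rpow_natCast T 2,
              ← Real.rpow_mul hTpos.le]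
            congr 1
            · congr 1; push_cast; ring
            · congr 1; push_cast; ring
          have u2 : (4:ℝ)^(2*e) ≤ 4 := by
            calc (4:ℝ)^(2*e) ≤ 4^(1:ℝ) :=
                  Real.rpow_le_rpow_of_exponent_le (by norm_num) (by linarith)
              _ = 4 := Real.rpow_one _
          rw [u1]
          apply mul_le_mul_of_nonneg_right u2 (by positivity)
        refine ⟨?_, ?_, hP.2, v3, ?_, ?_⟩
        · show 4 * (0:ℤ)^3 + 27 * (P.2^2 - P.1^3)^2 ≠ 0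
          intro h0
          apply w1
          have h1 : (P.2^2 - P.1^3)^2 = 0 := by linarith
          have h2 : P.2^2 - P.1^3 = 0 := by
            exact pow_eq_zero_iff (two_ne_zero) |>.1 h1
          linarith
        · show P.2^2 = P.1^3 + 0 * P.1 + (P.2^2 - P.1^3)
          ring
        · show |((0:ℤ):ℝ)|^3 ≤ 4 * c^2 * T^(2*(2*e))
          simp only [Int.cast_zero, abs_zero]
          norm_num
          positivity
        · show (((P.2^2 - P.1^3 : ℤ)):ℝ)^2 ≤ 4 * c^2 * T^(2*(2*e))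
          push_cast
          rw [← sq_abs]
          calc |(P.2:ℝ)^2 - (P.1:ℝ)^3|^2 ≤ (c * (4 * T^2)^e)^2 :=
                pow_le_pow_left₀ (abs_nonneg _) w3 2
            _ = c^2 * ((4 * T^2)^e)^2 := by ring
            _ ≤ c^2 * (4 * T^(2*(2*e))) := by gcongr
            _ = 4 * c^2 * T^(2*(2*e)) := by ring
      have k3 : (F.card : ℝ) = ((F.filter (fun P => (P.1:ℝ) < T^2)).card : ℝ) +
          ((F.filter (fun P => ¬ (P.1:ℝ) < T^2)).card : ℝ) := by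
        have := Finset.card_filter_add_card_filter_not (s := F) (fun P => (P.1:ℝ) < T^2)
        exact_mod_cast this.symm
      rw [k3, hs, Real.mul_rpow (by norm_num) hTpos.le]
      calc _ ≤ C1 * T^g + C0 * T^g := add_le_add k1 k2
        _ = (C1 * 2^g) * T^g := by rw [hC1e]; ring
        _ = C1 * (2^g * T^g) := by ring
  -- the constant for the small points
  set X0 : ℝ := max c (T0^2) with hX0
  have hX01 : 1 ≤ X0 := hc1.trans (le_max_left _ _)
  set R0 : ℝ := 2 * c * X0^3 with hR0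
  have hR00 : 0 ≤ R0 := by positivity
  refine ⟨(2 * R0 + 1)^2 + C1 * (2 * T0)^g, ?_⟩
  intro X hX
  have hfin : (Small C e X).Finite := by
    set R : ℝ := 2 * c * X^3 with hR
    set I : Set ℤ := Set.Icc (-⌊R⌋) ⌊R⌋ with hI
    have hmem : ∀ z : ℤ, |(z:ℝ)| ≤ R → z ∈ I := by
      intro z hz
      rw [abs_le] at hz
      rw [hI, Set.mem_Icc]
      have h1 : z ≤ ⌊R⌋ := Int.le_floor.mpr hz.2
      have h2 : -z ≤ ⌊R⌋ := Int.le_floor.mpr (by push_cast; linarith)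
      omega
    have hIf : I.Finite := Set.finite_Icc _ _
    apply (hIf.prod hIf).subset
    intro P hP
    obtain ⟨v1, v2, _⟩ := Y4_coords he0 he1 hc hP (ξ := X) (max_le hX hP.1)
    exact ⟨hmem _ v1, hmem _ v2⟩
  refine ⟨hfin, ?_⟩
  rw [Set.ncard_eq_toFinset_card _ hfin]
  set F : Finset (ℤ × ℤ) := hfin.toFinset with hF
  have hFm : ∀ P ∈ F, P ∈ Small C e X := fun P hP => hfin.mem_toFinset.mp hP
  have hX0' : 0 < X := by linarith
  have hsX : 1 ≤ √X := Real.one_le_sqrt.mpr hX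
  -- small part
  have s1 : ((F.filter (fun P => (P.1:ℝ) < T0^2)).card : ℝ) ≤ (2 * R0 + 1)^2 := by
    apply Y4_box R0 hR00
    intro P hP
    rw [Finset.mem_filter] at hP
    have v := hFm P hP.1
    have hξ : max 1 |(P.1:ℝ)| ≤ X0 := by
      apply max_le hX01
      rcases le_or_gt P.1 0 with h0 | h0
      · have := (Y4_coords he0 he1 hc v (le_refl _)).2.2 h0
        exact this.trans (le_max_left _ _)
      · rw [abs_of_pos (by exact_mod_cast h0)]
        exact hP.2.le.trans (le_max_right _ _)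
    obtain ⟨v1, v2, _⟩ := Y4_coords he0 he1 hc v hξ
    exact ⟨v1, v2⟩
  -- large part
  obtain ⟨m, hm1, hm2⟩ := exists_nat_pow_near hsX (by norm_num : (1:ℝ) < 2)
  have s2 : ((F.filter (fun P => ¬ (P.1:ℝ) < T0^2)).card : ℝ) ≤ C1 * (T0 * 2^(m+1))^g := by
    apply hlarge X (m+1)
    intro P hP
    rw [Finset.mem_filter, not_lt] at hP
    refine ⟨hFm P hP.1, hP.2, ?_⟩
    have v := (hFm P hP.1).1
    have w1 : (P.1:ℝ) ≤ X := (le_abs_self _).trans v
    have w2 : X = √X^2 := (Real.sq_sqrt hX0'.le).symm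
    have w3 : √X < T0 * 2^(m+1) := by nlinarith
    calc (P.1:ℝ) ≤ √X^2 := by rw [← w2]; exact w1
      _ < (T0 * 2^(m+1))^2 := pow_lt_pow_left₀ w3 (by positivity) (by norm_num)
  have s3 : (F.card : ℝ) = ((F.filter (fun P => (P.1:ℝ) < T0^2)).card : ℝ) +
      ((F.filter (fun P => ¬ (P.1:ℝ) < T0^2)).card : ℝ) := by
    have := Finset.card_filter_add_card_filter_not (s := F) (fun P => (P.1:ℝ) < T0^2)
    exact_mod_cast this.symm
  have s4 : (T0 * 2^(m+1))^g ≤ (2*T0)^g * X^(g/2) := by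
    have : T0 * 2^(m+1) ≤ (2 * T0) * √X := by rw [pow_succ]; nlinarith
    calc (T0 * 2^(m+1))^g ≤ ((2 * T0) * √X)^g := Real.rpow_le_rpow (by positivity) this hg0.le
      _ = (2*T0)^g * (√X)^g := Real.mul_rpow (by positivity) (by positivity)
      _ = (2*T0)^g * X^(g/2) := by
        congr 1
        rw [Real.sqrt_eq_rpow, ← Real.rpow_mul hX0'.le]
        congr 1; ring
  have s5 : g/2 = 1/4 + e/6 + η := by
    rw [hg]; ring
  rw [s5] at s4
  have s6 : 1 ≤ X^(1/4 + e/6 + η) := Real.one_le_rpow hX (by positivity)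
  rw [s3]
  calc _ ≤ (2 * R0 + 1)^2 + C1 * ((2*T0)^g * X^(1/4 + e/6 + η)) :=
        add_le_add s1 (s2.trans (mul_le_mul_of_nonneg_left s4 hC10.le))
    _ ≤ (2 * R0 + 1)^2 * X^(1/4 + e/6 + η) + C1 * ((2*T0)^g * X^(1/4 + e/6 + η)) := by
        have : 0 ≤ (2 * R0 + 1)^2 := by positivity
        nlinarith
    _ = ((2 * R0 + 1)^2 + C1 * (2 * T0)^g) * X^(1/4 + e/6 + η) := by ring

end

end Pool.Agent.HLS72
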